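import Pool.Agent.Lib.DR.F.AllP
import Pool.Agent.Lib.DR.D.D2Z
import Pool.Agent.Lib.DR.E.AllZ
import Pool.Agent.Lib.DS.C.All
import Pool.Agent.Lib.DS.CV.C8
import Pool.Agent.Lib.FW.G.Ine

/-!
# Theorem DR, part F: `S_Kf` without hypotheses, Proposition F from `S_C10` only (helper12)
-/

set_option autoImplicit false

noncomputable section

namespace Pool.Agent.DR

open Pool.Agent.DN

theorem dKf : S_Kf := F.xKf dO4 DS.zE1 dE4a DS.zE7 DS.zE8 DS.zCj FW.tIne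

/-- Proposition F. -/
theorem dF (hC10 : S_C10) : S_F :=
  F.xF dO4 (DS.aC2 DS.zR1) DS.aC3 (DS.aC6 DS.zR1) DS.aC7
    (DS.sC8 (DS.aC4 DS.zR1) (DS.aC6 DS.zR1) DS.zE1 DS.zE6 DS.zE10) hC10 dR1 dR2 dD2 dD10
    dE1 dE7 dE10 dE11 dKf

end Pool.Agent.DR
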