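import Pool.Agent.Lib.DR.F.SpecL

/-!
# Theorem DR, part F: module `Al` (the coefficients `cM` are in `K`)
-/

set_option autoImplicit false

noncomputable section

namespace Pool.Agent.DR.F

open Pool.Agent.MuZ Pool.Agent.FW NumberField Pool.Agent.DN Pool.Agent.DN.F
open Pool.Agent.DI (io ofC io_inj exists_io io_ofC ofC_io)

/-- Elements of `O` are in `K`. -/
theorem Al_toO {n t : ℕ} (v : OO n t) : toO v ∈ KQ n t := by
  rw [toO_apply]
  refine (KQ n t).add_mem ((KQ n t).intCast_mem _) ((KQ n t).mul_mem ((KQ n t).intCast_mem _) ?_)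
  exact IntermediateField.mem_adjoin_simple_self ℚ (wO n t)

/-- A torsion point is in `K`. -/
theorem Al_tor {n t : ℕ} [SqN n t] {z : ℂ} (h : Tor n t z) : ∃ x ∈ KQ n t, io x = z := by
  obtain ⟨v, j, _, rfl⟩ := h
  refine ⟨toO v / j, (KQ n t).div_mem (Al_toO v) ((KQ n t).natCast_mem j), ?_⟩
  rw [map_div₀, map_natCast, io_toO]

theorem tAl (hC7 : S_C7) : S_Al := by
  intro n t _ f m b hm hb j
  have h7 := (hC7 n t f m b hm hb).2.1
  have hf : 0 < 2 * f := by have := fm_pos hm; omega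
  have hmb : m * b ≠ ⊥ := (fb_mul (fm_fb hm) hb).ne
  have ht : ∀ v ∈ vN (2 * f) (m * b) j, ∃ x ∈ KQ n t, io x = v := by
    intro v hv
    have h1 : Tor n t (v - 1 / (2 * f : ℕ)) := tor_lam hmb ((h7 j v).1 hv).1
    have h2 : Tor n t ((1 : ℂ) / (2 * f : ℕ)) := by
      have := tor_div (n := n) (t := t) hf (1 : OO n t)
      rwa [toC_one] at this
    have h3 := tor_add h1 h2
    rw [sub_add_cancel] at h3
    exact Al_tor h3
  have hs : ∃ x ∈ KQ n t, io x = cM (2 * f) m b j := by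
    classical
    choose! g hg hgi using ht
    refine ⟨∑ v ∈ vN (2 * f) (m * b) j,
      (if v - 1 / (2 * f : ℕ) ∈ Lam b then (1 - NI m : Om) else 1) * (g v)⁻¹, ?_, ?_⟩
    · refine (KQ n t).sum_mem fun v hv => (KQ n t).mul_mem ?_ ((KQ n t).inv_mem (hg v hv))
      split_ifs
      · exact (KQ n t).sub_mem (KQ n t).one_mem ((KQ n t).natCast_mem _)
      · exact (KQ n t).one_mem
    · unfold cM
      rw [map_sum]
      refine Finset.sum_congr rfl fun v hv => ?_
      rw [map_mul, map_inv₀, hgi v hv]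
      by_cases h : v - 1 / (2 * f : ℕ) ∈ Lam b
      · rw [if_pos h, if_pos h, map_sub, map_one, map_natCast]
      · rw [if_neg h, if_neg h, map_one]
  obtain ⟨x, hx, hxc⟩ := hs
  rw [← hxc, ofC_io]
  exact ⟨hx, rfl⟩

end Pool.Agent.DR.F
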