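import Pool.Agent.Lib.DR.F.F2b

/-!
# Theorem DR, part F: `S_F2`
-/

set_option autoImplicit false
set_option linter.unusedSectionVars false

open scoped Pointwise Topology MatrixGroups
open Filter

noncomputable section

namespace Pool.Agent.DR.FA

open Pool.Agent.MuZ Pool.Agent.FW NumberField IsDedekindDomain Pool.Agent.DN Pool.Agent.DN.FA
open Pool.Agent.DI (io ofC io_inj exists_io io_ofC ofC_io VP MP UP TP ex)

private theorem F2_neg (b d : ℤ) : -((b : ℚ) / d) = ((-b : ℤ) : ℚ) / d := by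
  push_cast
  ring

private theorem F2_four (b d : ℤ) : 4 * ((b : ℚ) / d) = ((4 * b : ℤ) : ℚ) / d := by
  push_cast
  ring

/-- The matrix `(a 4b; c/4 d)`. -/
private theorem F2_g0 {M : ℕ} {a b c d : ℤ} (h : G0 (32 * M) a b c d)
    (hd : (32 * M : ℤ) ∣ d - 1) : ∃ c' : ℤ, G0 M a (4 * b) c' d ∧ (M : ℤ) ∣ d - 1 := by
  obtain ⟨h1, e, he⟩ := h
  refine ⟨8 * (M * e), ⟨?_, ⟨8 * e, by ring⟩⟩, dvd_trans ⟨32, by ring⟩ hd⟩
  rw [← h1, he]
  ring

theorem tF2 (hE1 : S_E1) (hE7 : S_E7) (hE11 : S_E11) (hKf : S_Kf) (hKP : S_KP) (hGc : S_Gc)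
    (hYE : S_YE) (hKap : S_Kap) (hSm : S_Sm) (hBet : S_Bet) (hPb : S_Pb) (hLead : S_Lead) :
    S_F2 := by
  intro n t _ f M m R R2 hm hmt hFR hR hLv hFR2 hR2 hLv2 χ hχ hN P hP σ hσ c hc hyp
  have hPp : P.IsPrime := hP.1.1
  have hf := hm.odd
  have h15 := hm.dvd
  obtain ⟨k1, hkfull, -, -, -, -, -, k9, -⟩ := hKf n t f hf h15
  obtain ⟨-, -, hst, -⟩ := k1 f (Or.inl rfl)
  obtain ⟨-, kw, hst2, -⟩ := k1 (2 * f) (Or.inr rfl)
  obtain ⟨hcc, hcw⟩ := k9 c hc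
  obtain ⟨g1, g4, g5⟩ := hGc n t f hf h15
  have htop : FB f (⊤ : Ideal (OO n t)) := fb_top f
  -- the set `S`
  have hden : ∀ b d : ℤ, (M : ℤ) ∣ d - 1 → ((b : ℚ) / d).den.Coprime M := fun b d hd => den_cop hd b
  have h0 : (0 : ℚ).den.Coprime M := by
    rw [Rat.den_zero]
    exact Nat.coprime_one_left M
  let S : Set Om := {w | ∃ a b c' d : ℤ, G0 M a b c' d ∧ (4 : ℤ) ∣ b ∧ (M : ℤ) ∣ d - 1 ∧
    w = wg f m ((b : ℚ) / d)}
  have hS : ∀ w ∈ S, w ∈ Kf n t f ∧ ∀ Q : Ideal ZZ, Ab2 Q → ∀ τ ∈ GK n t, VP Q (τ w) := by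
    rintro w ⟨a, b, c', d, -, -, hd, rfl⟩
    have e1 := hYE n t f M m R hm hFR hLv _ (hden b d hd)
    have e2 := hYE n t f M m R hm hFR hLv _ (hden (-b) d hd)
    have e3 := hYE n t f M m R hm hFR hLv _ h0
    rw [← F2_neg] at e2
    unfold wg
    refine ⟨sub_mem (add_mem e1.1 e2.1) (mul_mem (by exact_mod_cast natCast_mem (Kf n t f) 2) e3.1),
      fun Q hQ τ hτ => ?_⟩
    have hQp : Q.IsPrime := hQ.1.1
    rw [map_sub, map_add, map_mul, map_ofNat]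
    exact DI.VP.sub (DI.VP.add (e1.2.1 Q hQ τ hτ) (e2.2.1 Q hQ τ hτ))
      (DI.VP.mul (by exact_mod_cast DI.VP.nat 2) (e3.2.1 Q hQ τ hτ))
  have hS'' : ∀ w ∈ S, MP P (∑ b ∈ R, χ b * rO ⊤ b * σ b w) := by
    rintro w ⟨a, b, c', d, hG, h4, hd, rfl⟩
    rw [hSm n t f M m R hm hFR hR hLv χ σ hσ _ (hden b d hd)]
    exact hyp a b c' d hG h4 hd
  -- the class of the leading coefficient
  obtain ⟨b1, hb1, hb1r, hb1u⟩ := DN.F.exists_b1 (two_f hf) (DN.F.fb_pn (fm_fb hm)) hR2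
  have hfb1 := hFR2 b1 hb1
  obtain ⟨β, hβK, hβV, hβS, Q, hQ, hQn⟩ := F2_key hE1 hE7 hE11 hKf hGc hKap hBet hf h15 hFR hR hχ
    hN hP hσ hc S hS hS'' hfb1
  have hQp : Q.IsPrime := hQ.1.1
  obtain ⟨N0, hN0, hper⟩ := hPb n t f M m R R2 hm hFR hR hLv hFR2 hR2 hLv2 P hP σ hσ β hβK hβV
  obtain ⟨p0, pc⟩ := F2_pO hKP (n := n) (t := t) hQ hcw
  have h2K : (2 : Om) ∈ Kf n t (2 * f) := by exact_mod_cast natCast_mem (Kf n t (2 * f)) 2
  have hpK : toO (pO n t) ∈ Kf n t (2 * f) := by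
    rw [toO_apply]
    exact add_mem (intCast_mem _ _) (mul_mem (intCast_mem _ _) kw)
  have hbK : bet n t β ∈ Kf n t (2 * f) := div_mem (mul_mem hpK (hkfull hβK)) h2K
  have hbet : ∀ b : Ideal (OO n t), FB f b → 2 * σ b (bet n t β) / toO (pO n t) = σ b β := by
    intro b hb
    unfold bet
    rw [map_div₀, map_mul, map_ofNat, GK_toO (hσ.mem b hb)]
    field_simp
  obtain ⟨-, -, -, l4, l5⟩ := hLead n t f m R2 hm hFR2 hR2 σ hσ N0 (bet n t β) hbK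
  obtain ⟨b1', hb1', hb1r', u, hu1, hu2⟩ := l5 hmt hN0
  obtain rfl : b1' = b1 := hb1u b1' hb1' hb1r'
  -- integrality
  have hA : ∀ Q' : Ideal ZZ, Ab2 Q' → ∀ j : ℕ,
      VP Q' (aF f m R2 σ N0 (bet n t β) j / toO (pO n t)) := by
    intro Q' hQ' j
    refine l4 Q' hQ' (toO (pO n t)) p0 (fun b hb => ?_) j
    rw [hbet b (hFR2 b hb)]
    exact hβV Q' hQ' _ (hσ.mem b (hFR2 b hb))
  have hcQ : Ab2 (c • Q) := ab2_smul c hQ
  have hcr : VP Q (c (toO (pO n t)) / toO (pO n t)) := by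
    have h1 := pc.vp.add (DI.VP.one (P := Q))
    rwa [sub_add_cancel] at h1
  have hcA : ∀ j : ℕ, c (aF f m R2 σ N0 (bet n t β) j) / toO (pO n t) =
      c (aF f m R2 σ N0 (bet n t β) j / toO (pO n t)) * (c (toO (pO n t)) / toO (pO n t)) := by
    intro j
    have h1 : c (toO (pO n t)) ≠ 0 := fun h => p0 ((map_eq_zero c).1 h)
    rw [map_div₀]
    field_simp
  refine ⟨N0, bet n t β, Q, hQ, hbK, fun j => ?_, ?_, ?_⟩
  · unfold cF
    rw [add_div, hcA]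
    exact DI.VP.add (hA Q hQ j) ((F2_vp hcc (hA _ hcQ j)).mul hcr)
  · -- the leading coefficient
    obtain ⟨Y, hY⟩ : ∃ Y, Y = rO b1' ⊤ * σ b1' β := ⟨_, rfl⟩
    rw [← hY] at hQn
    have ha1 : aF f m R2 σ N0 (bet n t β) 1 / toO (pO n t) = u * Y := by
      rw [hu1, hY]
      have h1 := hbet b1' hfb1
      rw [← h1]
      ring
    have hrV : ∀ Q' : Ideal ZZ, Ab2 Q' → VP Q' Y := by
      intro Q' hQ'
      have hQp' : Q'.IsPrime := hQ'.1.1
      have h1 : UP Q' (rO ⊤ b1') := by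
        have h := (g4 b1' hfb1).2.2.1 ⊤ htop Q' hQ'
        rwa [Ideal.mul_top] at h
      have h2 := (g4 ⊤ htop).2.2.2.1 b1' ⊤ hfb1 htop
      rw [(g4 ⊤ htop).2.1] at h2
      have h3 : rO b1' ⊤ = (rO ⊤ b1')⁻¹ := eq_inv_of_mul_eq_one_right h2
      rw [hY, h3]
      exact h1.inv.1.mul (hβV Q' hQ' _ (hσ.mem b1' hfb1))
    have hYV := hrV Q hQ
    have hcYV : VP Q (c Y) := F2_vp hcc (hrV _ hcQ)
    have hmu := hu2 Q hQ
    have hmcu : MP Q (c u - 1) := by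
      have h1 := F2_mp hcc (hu2 _ hcQ)
      rwa [map_sub, map_one] at h1
    have huV : VP Q (c u) := by
      have h1 := hmcu.vp.add (DI.VP.one (P := Q))
      rwa [sub_add_cancel] at h1
    have e : cF f m R2 σ c N0 (bet n t β) 1 / toO (pO n t) =
        (Y + c Y) + ((u - 1) * Y + ((c u - 1) * c Y + c u * c Y *
          (c (toO (pO n t)) / toO (pO n t) - 1))) := by
      unfold cF
      rw [add_div, hcA, ha1, map_mul]
      ring
    have hm1 : MP Q ((u - 1) * Y + ((c u - 1) * c Y + c u * c Y *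
          (c (toO (pO n t)) / toO (pO n t) - 1))) :=
      DI.MP.add (DI.MP.mul_right hmu hYV) (DI.MP.add (DI.MP.mul_right hmcu hcYV)
        (DI.MP.mul_left (huV.mul hcYV) pc))
    rw [e]
    refine DI.UP.congr (x := Y + c Y) ⟨hYV.add hcYV, hQn⟩ ?_
    rw [add_sub_cancel_left]
    exact hm1
  · intro a b c' d h1 h2
    obtain ⟨α, hα1, hα2⟩ := hper a b c' d h1 h2
    obtain ⟨α', hα'1, hα'2⟩ := hper a (-b) (-c') d (g0_inv h1) h2
    refine ⟨α, α', ?_, fun z hz => ⟨hα2 z hz, ?_⟩⟩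
    · rw [← (hKP n t P hP).2.1, toO_add, ← hα1, ← hα'1]
      obtain ⟨c'', h3, h4⟩ := F2_g0 h1 h2
      have e1 : (N0 : Om) * perA f m R σ β b d + (N0 : Om) * perA f m R σ β (-b) d =
          (N0 : Om) * ∑ b' ∈ R, σ b' (β * wg f m (((4 * b : ℤ) : ℚ) / d)) := by
        unfold perA
        rw [← mul_add, ← Finset.sum_add_distrib]
        congr 1
        refine Finset.sum_congr rfl fun b' _ => ?_
        rw [← map_add, F2_four, F2_four]
        unfold wg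
        rw [F2_neg]
        congr 1
        rw [show 4 * -b = -(4 * b) from by ring]
        ring
      rw [e1]
      refine DI.MP.mul_left (DI.VP.nat N0) ?_
      exact hβS _ ⟨a, 4 * b, c'', d, h3, Dvd.intro _ rfl, h4, rfl⟩
    · have h3 := hα'2 z hz
      rw [Int.cast_neg, Int.cast_neg, ← sub_eq_add_neg] at h3
      exact h3

end Pool.Agent.DR.FA
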