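import Pool.Agent.Lib.DR.F.KP
import Pool.Agent.Lib.DN.F.FHm

/-!
# Theorem DR, part F: the contradiction (`S_FH`) from the generic form `DR.F4.fh`
-/

set_option autoImplicit false

open scoped Pointwise

noncomputable section

namespace Pool.Agent.DR

open Pool.Agent.MuZ Pool.Agent.FW NumberField Pool.Agent.DN
open Pool.Agent.DI (io ofC io_inj exists_io io_ofC ofC_io VP MP UP TP ex)
open _root_.DN.F4 _root_.DI.F4
open Pool.Agent.DN.FHm (VPv mem_VPv)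

namespace FHm

variable {n t : ℕ}

/-- `pO/2` is a point of order `pp`. -/
theorem half_lam (hO4 : S_O4) [Rmf n t] : toC (pO n t) / 2 ∈ Lam (pp n t * (⊤ : Ideal (OO n t))) ∧
    toC (pO n t) / 2 ∉ Lam (⊤ : Ideal (OO n t)) ∧ 2 * (toC (pO n t) / 2) ∈ Lam (⊤ : Ideal (OO n t)) := by
  obtain ⟨-, -, -, h4, -⟩ := hO4 n t
  refine ⟨?_, ?_, ?_⟩
  · rw [Ideal.mul_top]
    intro v hv
    have h5 : v * pO n t ∈ pp n t * pp n t := Ideal.mul_mem_mul hv FA.pO_mem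
    rw [h4, Ideal.mem_span_singleton] at h5
    obtain ⟨u, hu⟩ := h5
    refine ⟨u, ?_⟩
    have h6 : toC v * toC (pO n t) = 2 * toC u := by rw [← toC_mul, hu, toC_mul, toC_two]
    linear_combination h6 / 2
  · intro h
    obtain ⟨u, hu⟩ := lam_top.1 h
    have h1 : pO n t = 2 * u := by
      apply toC_inj
      rw [toC_mul, toC_two, ← hu]
      ring
    have h2 : ((2 : ℕ) : OO n t) ∣ pO n t := ⟨u, by rw [h1]; push_cast; ring⟩
    have h3 := ((nat_dvd_iff 2 (pO n t)).1 h2).2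
    have h4 : (pO n t).im = 1 := rfl
    rw [h4] at h3
    revert h3
    norm_num
  · exact lam_top.2 ⟨pO n t, by ring⟩

/-- The point of order two: the equation. -/
theorem half_eq (hO4 : S_O4) [Rmf n t] (hB1 : S_B1) (hB2 : S_B2) (hR1 : S_R1) :
    4 * xO (⊤ : Ideal (OO n t)) (toC (pO n t) / 2) ^ 3 +
      (a1O (⊤ : Ideal (OO n t)) * xO (⊤ : Ideal (OO n t)) (toC (pO n t) / 2) +
        a3O (⊤ : Ideal (OO n t))) ^ 2 = 0 := by
  have ht : (⊤ : Ideal (OO n t)) ≠ ⊥ := top_ne_bot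
  have hG : G15 (⊤ : Ideal (OO n t)) := ⟨ht, top_sup_eq _⟩
  obtain ⟨-, h1, h2⟩ := half_lam (n := n) (t := t) hO4
  obtain ⟨-, -, -, -, b1, -⟩ := hB1 n t ⊤ ht
  obtain ⟨-, b2⟩ := hB2 n t ⊤ ht (toC (pO n t) / 2) h1
  obtain ⟨b3, -⟩ := b2 hG.cop
  have hW : WC (⊤ : Ideal (OO n t)) (toC (pO n t) / 2) = 0 := by
    unfold WC
    rw [(b1 _ h1).2 h2, zero_div]
  rw [hW] at b3
  obtain ⟨r1, r2, r3, -⟩ := hR1.1 n t |>.1 ⊤ hG
  have hT : Tor n t (toC (pO n t) / 2) := ⟨pO n t, 2, by norm_num, by norm_num⟩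
  have r4 := (r3 _ hT).1
  apply io_inj
  rw [map_zero, map_add, map_mul, map_pow, map_pow, map_add, map_mul, map_ofNat, r1, r2, r4, ← b3]
  ring

end FHm

open FHm

/-- **S_FH.** -/
theorem tFH (hO4 : S_O4) (hB1 : S_B1) (hB2 : S_B2) (hR1 : S_R1) (hR2 : S_R2) (hD10 : S_D10)
    (hKf : S_Kf) (hLead : S_Lead) : S_FH := by
  intro n t _ f m R hm hR hRC P hP σ hσ c hc N0 β hβ hV hu1 T W ψ Q1 Q2 hTW hψ hQ2 hQ K' hK'
    hQ1k hQ2k vQ1 vQ2
  have hPp : P.IsPrime := hP.1.1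
  have e1 := half_eq (n := n) (t := t) hO4 hB1 hB2 hR1
  obtain ⟨l1', l2', -⟩ := half_lam (n := n) (t := t) hO4
  obtain ⟨g1, g2⟩ := (hR2 n t).1 P hP
  have hG : G15 (⊤ : Ideal (OO n t)) := ⟨top_ne_bot, top_sup_eq _⟩
  obtain ⟨-, u3, -⟩ := g1.2 ⊤ hG
  have ua := g2 ⊤ hG
  have u2e := (hD10 n t P hP ⊤ hG).2 _ l1' l2'
  obtain ⟨-, -, -, -, -, uc⟩ := FA.tKP hO4 n t P hP
  obtain ⟨l1, l2, -⟩ := hLead n t f m R hm hR hRC σ hσ N0 β hβ
  obtain ⟨kf, kfw, -⟩ := (hKf n t f hm.odd hm.dvd).1 (2 * f) (Or.inr rfl)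
  obtain ⟨cc, hcc⟩ : ∃ cc, cc = toO (pO n t) := ⟨_, rfl⟩
  obtain ⟨a1, ha1⟩ : ∃ a1, a1 = a1O (⊤ : Ideal (OO n t)) := ⟨_, rfl⟩
  obtain ⟨a3, ha3⟩ : ∃ a3, a3 = a3O (⊤ : Ideal (OO n t)) := ⟨_, rfl⟩
  obtain ⟨e, he⟩ : ∃ e, e = xO (⊤ : Ideal (OO n t)) (toC (pO n t) / 2) := ⟨_, rfl⟩
  rw [← ha1, ← ha3, ← he] at e1
  rw [← hcc] at uc hV hu1
  rw [← he] at u2e hψ
  rw [← ha1] at ua
  rw [← ha3] at u3
  rw [← ha1, ← ha3] at hTW
  have hc0 : cc ≠ 0 := by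
    intro h
    have := uc.ne_zero
    rw [h] at this
    norm_num at this
  have he0 : e ≠ 0 := by
    intro h
    have := u2e.ne_zero
    rw [h, mul_zero] at this
    exact this rfl
  -- the root `r`
  obtain ⟨r0, hr0⟩ : ∃ r0 : Om, r0 ^ 2 = -e := IsAlgClosed.exists_pow_nat_eq _ (by norm_num)
  have hsq : (2 * r0) ^ 2 = (a1 + a3 / e) ^ 2 := by
    have h1 : (a1 + a3 / e) ^ 2 = -4 * e := by
      have h2 : (a1 + a3 / e) ^ 2 * e ^ 2 = -4 * e * e ^ 2 := by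
        have h3 : (a1 + a3 / e) ^ 2 * e ^ 2 = (a1 * e + a3) ^ 2 := by
          field_simp
        rw [h3]
        linear_combination e1
      exact mul_right_cancel₀ (pow_ne_zero 2 he0) h2
    rw [h1, mul_pow, hr0]
    ring
  obtain ⟨r, hr, hra⟩ : ∃ r : Om, r ^ 2 = -e ∧ 2 * r = a1 + a3 / e := by
    rcases sq_eq_sq_iff_eq_or_eq_neg.1 hsq with h | h
    · exact ⟨r0, hr0, h⟩
    · exact ⟨-r0, by rw [neg_sq, hr0], by rw [mul_neg, h, neg_neg]⟩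
  have hcrU : UP P (cc * r) := by
    refine DI.UP.of_pow (n := 2) (by norm_num) ?_
    have h1 : (cc * r) ^ 2 = -(cc ^ 2 / 2 * (2 * e)) := by
      rw [mul_pow, hr]
      ring
    rw [h1]
    exact (uc.mul u2e).neg
  have hr0' : r ≠ 0 := by
    intro h
    have := hcrU.ne_zero
    rw [h, mul_zero] at this
    exact this rfl
  have hac : UP P (a1 / cc) := by
    refine DI.UP.of_pow (n := 2) (by norm_num) ?_
    have h1 : (a1 / cc) ^ 2 = a1 ^ 2 / 2 * (cc ^ 2 / 2)⁻¹ := by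
      field_simp
    rw [h1]
    exact ua.mul uc.inv
  -- the field of coefficients
  let S0 : Set Om := {r, a1, a3}
  have : FiniteDimensional ℚ (IntermediateField.adjoin ℚ S0) :=
    IntermediateField.finiteDimensional_adjoin fun x _ => (Algebra.IsAlgebraic.isAlgebraic x).isIntegral
  let K1 : IntermediateField ℚ Om :=
    K' ⊔ (Kf n t (2 * f) ⊔ ((Kf n t (2 * f)).map (c : Om →ₐ[ℚ] Om) ⊔ IntermediateField.adjoin ℚ S0))
  have : FiniteDimensional ℚ K1 := inferInstance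
  have hK'1 : K' ≤ K1 := le_sup_left
  have hK2 : Kf n t (2 * f) ≤ K1 := le_sup_left.trans le_sup_right
  have hK3 : (Kf n t (2 * f)).map (c : Om →ₐ[ℚ] Om) ≤ K1 :=
    (le_sup_left.trans le_sup_right).trans le_sup_right
  have hK4 : IntermediateField.adjoin ℚ S0 ≤ K1 :=
    (le_sup_right.trans le_sup_right).trans le_sup_right
  have hS0 : ∀ x ∈ S0, x ∈ K1 := fun x hx => hK4 (IntermediateField.subset_adjoin ℚ S0 hx)
  have hcS : cc ∈ K1 := by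
    apply hK2
    rw [hcc, toO_apply]
    exact add_mem (intCast_mem _ _) (mul_mem (intCast_mem _ _) kfw)
  have h2V : (2 : Om)⁻¹ ∉ VPv P := by
    intro h1
    have h3 : VP P (2 : Om)⁻¹ := h1
    have h4 := DI.MP.mul_left h3 hP.2
    rw [inv_mul_cancel₀ two_ne_zero] at h4
    exact DI.MP.one_not h4
  obtain ⟨ϖ, hϖ⟩ := _root_.DT.F4.disV Om (VPv P) K1 2 (by norm_num) (by exact_mod_cast h2V)
  have hcu : ∀ j, PowerSeries.coeff j (uF f m R σ c N0 β) = cF f m R σ c N0 β j := fun j => by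
    unfold uF
    rw [PowerSeries.coeff_mk]
  have hu1' : UP P (PowerSeries.coeff 1 (uF f m R σ c N0 β) / cc) := by
    rw [hcu]
    exact hu1
  refine _root_.DR.F4.fh (V := VPv P) (S := K1.toSubfield) hϖ h2V (c := cc) (a := a1) (b := a3)
    (e := e) (r := r) hc0 uc.1 uc.inv.1 hcS hac.1 (hS0 _ (by simp [S0])) u3.1 u3.ne_zero u3.inv.1
    (hS0 _ (by simp [S0])) hcrU.1 hr0' hcrU.inv.1 (hS0 _ (by simp [S0])) hr hra
    (u := uF f m R σ c N0 β) (T := T) (W := W) (ψ := ψ) (Q1 := Q1)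
    (Q2 := Q2) ?_ ?_ ?_ ?_ hu1'.inv.1 hTW hψ hQ2 hQ (fun j => hK'1 (hQ1k j))
    (fun j => hK'1 (hQ2k j)) vQ1 vQ2
  · intro j
    rw [hcu]
    exact hV j
  · intro j
    rw [hcu]
    unfold cF
    exact add_mem (hK2 (l1 j)) (hK3 ⟨_, l1 j, rfl⟩)
  · rw [hcu]
    unfold cF
    rw [l2, map_zero, add_zero]
  · intro h
    have h1 := hu1'.ne_zero
    rw [h, zero_div] at h1
    exact h1 rfl

end Pool.Agent.DR
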