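import Pool.Agent.Lib.DR.F.SpecA

/-!
# Theorem DR, part F, module `Gc`: the Galois action on the quotients of the framings
-/

set_option autoImplicit false

open scoped Pointwise

noncomputable section

namespace Pool.Agent.DR.FA

open Pool.Agent.MuZ Pool.Agent.FW NumberField IsDedekindDomain Pool.Agent.DN Pool.Agent.DN.FA
open Pool.Agent.DI (io ofC io_inj exists_io io_ofC ofC_io VP MP UP TP ex)

theorem tGc (hE1 : S_E1) (hE10 : S_E10) (hB7 : S_B7) (hR1 : S_R1) (hD2 : S_D2)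
    (hKf : S_Kf) : S_Gc := by
  intro n t _ f hf h15
  have h2f : 0 < 2 * f := two_f hf
  have hf0 : 0 < f := f_pos hf
  have h152 : 15 ∣ 2 * f := h15.mul_left 2
  obtain ⟨-, -, e3, -, -⟩ := hE1 n t (2 * f) h2f h152
  have gtop : G15 (⊤ : Ideal (OO n t)) := Eb.g15_top
  refine ⟨fun τ _ a ha b hb b' hb' => ?_, ?_, ?_⟩
  · exact ((hE10 n t τ (2 * f) a h2f h152 ha).1 b (fb_g15 h15 hb)).2 b' (fb_g15 h15 hb')
  · intro b hb
    have gb : G15 b := fb_g15 h15 hb
    have hfr : ∀ c c' : Ideal (OO n t), G15 c → G15 c' → io (rO c c') = fr c' / fr c ∧ fr c ≠ 0 := by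
      intro c c' hc hc'
      obtain ⟨-, -, -, r4⟩ := (hR1.1 n t).1 c hc
      obtain ⟨h1, h2⟩ := r4 c' hc'
      refine ⟨h1, fun h3 => h2 ?_⟩
      apply io_inj
      rw [h1, h3, div_zero, map_zero]
    refine ⟨?_, ?_, ?_, ?_, ?_⟩
    · intro τ _ a ha hr
      obtain ⟨-, -, e3', -, -⟩ := hE1 n t f hf0 h15
      have h1 := ((hE10 n t τ f ⊤ hf0 h15 (e3' τ a ⊤ ha hr)).1 ⊤ gtop).2 b gb
      rw [Ideal.top_mul, Ideal.top_mul] at h1
      exact h1
    · apply io_inj
      obtain ⟨h1, h2⟩ := hfr b b gb gb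
      rw [h1, div_self h2, map_one]
    · intro a ha Q hQ
      obtain ⟨-, -, -, -, -, -, h7, -⟩ := hD2 n t Q hQ a (fb_g15 h15 ha)
      exact h7 b hb.ne (fb_two hb) gb.cop
    · intro b' b'' hb' hb''
      obtain ⟨h1, h2⟩ := hfr b b' gb (fb_g15 h15 hb')
      obtain ⟨h3, h4⟩ := hfr b' b'' (fb_g15 h15 hb') (fb_g15 h15 hb'')
      obtain ⟨h5, -⟩ := hfr b b'' gb (fb_g15 h15 hb'')
      apply io_inj
      rw [map_mul, h1, h3, h5]
      field_simp
    · intro α hα hd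
      have hα15 : (15 : OO n t) ∣ α - 1 := by
        refine dvd_trans ?_ hd
        obtain ⟨j, hj⟩ := h15
        exact ⟨j, by rw [hj]; push_cast; ring⟩
      have hα3 : (3 : OO n t) ∣ α - 1 := dvd_trans ⟨5, by norm_num⟩ hα15
      have hα5 : (5 : OO n t) ∣ α - 1 := dvd_trans ⟨3, by norm_num⟩ hα15
      obtain ⟨-, -, h7⟩ := hB7 n t b gb.ne
      obtain ⟨h8, -⟩ := (h7 gb.cop).1 α hα hα3 (Or.inl hα5)
      have gs : G15 (sp α * b) := by
        refine Eb.g15_mul ⟨Eb.ne_sp hα, ?_⟩ gb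
        refine ((aO6 n t).2.2.2.1 15 α (by norm_num)).2 ?_
        refine cop_congr (a := 1) ?_ (cop_one 15)
        have e : (1 : OO n t) - α = -(α - 1) := by ring
        rw [e]
        exact (dvd_neg).2 (by exact_mod_cast hα15)
      obtain ⟨h1, h2⟩ := hfr b (sp α * b) gb gs
      apply io_inj
      rw [h1, h8, io_toO, mul_div_assoc, div_self h2, mul_one]
  · intro σ hσ N hN x hx
    obtain ⟨hK, -⟩ := hKf n t f hf h15
    obtain ⟨-, -, -, hiff⟩ := hK N hN
    have hN0 : 0 < N := by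
      rcases hN with rfl | rfl
      · exact hf0
      · exact h2f
    have hND : N ∣ 2 * f := by
      rcases hN with rfl | rfl
      · exact Dvd.intro_left 2 rfl
      · exact dvd_rfl
    refine ⟨fun b b' hb hb' hr => ?_, fun τ hτ a ha b hb => ⟨?_, ?_⟩⟩
    · exact (hiff (σ b) (hσ.mem b hb) (σ b') (hσ.mem b' hb') b b' (Eb.psi_level (hσ.psi b hb) hND)
        (Eb.psi_level (hσ.psi b' hb') hND)).2 hr x hx
    · have hab : FB f (a * b) := fb_mul (fb_psi ha) hb
      exact (hiff (τ * σ b) (mul_mem hτ (hσ.mem b hb)) (σ (a * b)) (hσ.mem _ hab) (a * b) (a * b)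
        (Eb.psi_level (Eb.psi_mul ha (hσ.psi b hb)) hND)
        (Eb.psi_level (hσ.psi _ hab) hND)).2 (ray_refl hN0 _) x hx
    · have hab : FB f (a * b) := fb_mul (fb_psi ha) hb
      have h1 : Psi (σ b * τ) (2 * f) (a * b) := by
        rw [mul_comm a b]
        exact Eb.psi_mul (hσ.psi b hb) ha
      exact (hiff (σ b * τ) (mul_mem (hσ.mem b hb) hτ) (σ (a * b)) (hσ.mem _ hab) (a * b) (a * b)
        (Eb.psi_level h1 hND) (Eb.psi_level (hσ.psi _ hab) hND)).2 (ray_refl hN0 _) x hx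

end Pool.Agent.DR.FA
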