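import Pool.Agent.Lib.DR.F.SpecA

/-!
# Theorem DR, part F, module Kap: `χ` is a character modulo `f`; the numbers `χ(b) fr(b)/fr(1)`
-/

set_option autoImplicit false

open scoped Pointwise

noncomputable section

namespace Pool.Agent.DR.FA

open Pool.Agent.MuZ Pool.Agent.FW NumberField IsDedekindDomain Pool.Agent.DN Pool.Agent.DN.FA
open Pool.Agent.DI (io ofC io_inj exists_io io_ofC ofC_io VP MP UP TP ex)

/-- `χ` of an odd number of exponents. -/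
private theorem Kap_one {x : Om} {j : ℕ} (hj : Odd j) (h1 : x ^ j = 1) (h2 : x ^ 2 = 1) : x = 1 := by
  obtain ⟨i, rfl⟩ := hj
  rw [pow_add, pow_mul, h2, one_pow, one_mul, pow_one] at h1
  exact h1

/-- `χ((α)) = 1` for `α = 1` modulo `f`, prime to `2`. -/
theorem chi_sp (hO4 : S_O4) {n t : ℕ} [Rmf n t] {f : ℕ} (hf : Odd f) {χ : Ideal (OO n t) → Om}
    (hχ : IsChi (2 * f) χ) {α : OO n t} (h0 : α ≠ 0) (h1 : (f : OO n t) ∣ α - 1) (h2 : Cop α 2) :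
    χ (sp α) = 1 := by
  have h2f : 0 < 2 * f := two_f hf
  obtain ⟨j, hj, h⟩ := hχ.odd
  have hfb : FB f (sp α) := fb_sp hf (cop_of h1 h2)
  have htop : FB f (⊤ : Ideal (OO n t)) := fb_top f
  have e1 : χ ⊤ = 1 := by
    have h3 := h ⊤ htop.ne htop.cop
    have h4 : χ ⊤ = χ ⊤ * χ ⊤ := by
      rw [← hχ.mul, Ideal.mul_top]
    have h5 : χ ⊤ ≠ 0 := by
      intro h6
      rw [h6, zero_pow] at h3
      · exact zero_ne_one h3
      · obtain ⟨i, rfl⟩ := hj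
        omega
    exact (mul_eq_left₀ h5).1 h4.symm
  refine Kap_one hj (h _ hfb.ne hfb.cop) ?_
  rw [pow_two, ← hχ.mul, ← sp_mul]
  have h3 : ((2 * f : ℕ) : OO n t) ∣ α * α - 1 := by
    obtain ⟨-, -, -, -, -, -, -, -, -, -, -, h12, -⟩ := hO4 n t
    obtain ⟨v, hv⟩ := h12 α h2
    obtain ⟨u, hu⟩ := h1
    obtain ⟨i, hi⟩ := hf
    have hi' : (f : OO n t) = 2 * i + 1 := by
      rw [hi]
      push_cast
      ring
    have hw : α * α - 1 = (f : OO n t) * (u * (α + 1)) := by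
      have e2 : α * α - 1 = (α - 1) * (α + 1) := by ring
      rw [e2, hu]
      ring
    have hv' : α * α - 1 = 2 * v := by
      rw [← hv]
      ring
    refine ⟨v - i * (u * (α + 1)), ?_⟩
    push_cast
    rw [hi'] at hw ⊢
    linear_combination (2 * (i : OO n t) + 1) * hv' - 2 * (i : OO n t) * hw
  rw [← e1]
  have hfb2 : FB f (sp (α * α)) := by
    rw [sp_mul]
    exact fb_mul hfb hfb
  refine hχ.ray _ _ hfb2.ne htop.ne hfb2.cop htop.cop ?_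
  refine ray_of (α := 1) (α' := α * α) one_ne_zero (mul_ne_zero h0 h0) ?_ h3 ?_
  · rw [sub_self]
    exact dvd_zero _
  · rw [sp_one, Ideal.top_mul, Ideal.mul_top]

private theorem Kap_chi {n t : ℕ} [Rmf n t] {f : ℕ} {χ : Ideal (OO n t) → Om} (hχ : IsChi (2 * f) χ)
    {P : Ideal ZZ} (hP : P.IsPrime) {b : Ideal (OO n t)} (hb : FB f b) : UP P (χ b) := by
  obtain ⟨j, hj, h⟩ := hχ.odd
  have hj0 : 0 < j := by
    obtain ⟨i, rfl⟩ := hj
    omega
  apply DI.UP.of_pow hj0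
  rw [h b hb.ne hb.cop]
  exact DI.UP.one

theorem tKap (hO4 : S_O4) (hKP : S_KP) (hOd : S_Od) (hGc : S_Gc) : S_Kap := by
  intro n t _ f hf h15 χ hχ P hP
  have hPr : P.IsPrime := hP.1.1
  obtain ⟨-, hr, -⟩ := hGc n t f hf h15
  obtain ⟨-, -, -, hu, -⟩ := hKP n t P hP
  have htop : FB f (⊤ : Ideal (OO n t)) := fb_top f
  have hr1 : ∀ b : Ideal (OO n t), FB f b → UP P (rO ⊤ b) := by
    intro b hb
    have h := (hr b hb).2.2.1 ⊤ htop P hP
    rwa [Ideal.mul_top] at h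
  refine ⟨fun b hb => ⟨Kap_chi hχ hPr hb, hr1 b hb⟩, ?_⟩
  -- multiplication by `α`
  have key : ∀ (b : Ideal (OO n t)) (α : OO n t), FB f b → α ≠ 0 → Cop α 2 → (f : OO n t) ∣ α - 1 →
      χ (sp α * b) = χ b ∧ MP P (χ (sp α * b) * rO ⊤ (sp α * b) - χ b * rO ⊤ b) := by
    intro b α hb h0 hα2 hα
    have ha : FB f (sp α) := fb_sp hf (cop_of hα hα2)
    have e1 : χ (sp α * b) = χ b := by
      rw [hχ.mul, chi_sp hO4 hf hχ h0 hα hα2, one_mul]
    refine ⟨e1, ?_⟩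
    have e2 : rO ⊤ (sp α * b) = rO ⊤ b * toO α := by
      rw [← (hr b hb).2.2.2.2 α h0 hα]
      exact ((hr ⊤ htop).2.2.2.1 b (sp α * b) hb (fb_mul ha hb)).symm
    have e : χ (sp α * b) * rO ⊤ (sp α * b) - χ b * rO ⊤ b = χ b * rO ⊤ b * (toO α - 1) := by
      rw [e1, e2]
      ring
    rw [e]
    exact DI.MP.mul_left ((Kap_chi hχ hPr hb).1.mul (hr1 b hb).1) (hu α hα2).2
  intro b b' hb hb' hR
  obtain ⟨α, α', g1, g2, g3, g4, g5, g6, g7⟩ := hOd n t f hf h15 b b' hb hb' hR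
  obtain ⟨k1, k2⟩ := key b α hb g1 g3 g5
  obtain ⟨k1', k2'⟩ := key b' α' hb' g2 g4 g6
  rw [g7] at k1 k2
  refine ⟨by rw [← k1, k1'], ?_⟩
  have e : χ b * rO ⊤ b - χ b' * rO ⊤ b' =
      (χ (sp α' * b') * rO ⊤ (sp α' * b') - χ b' * rO ⊤ b') -
      (χ (sp α' * b') * rO ⊤ (sp α' * b') - χ b * rO ⊤ b) := by ring
  rw [e]
  exact DI.MP.sub k2' k2

end Pool.Agent.DR.FA
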