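import Pool.Agent.Lib.DR.F.SpecA

/-!
# Theorem DR, part F, module `YE`: the numbers `yE`
-/

set_option autoImplicit false

open scoped Pointwise

noncomputable section

namespace Pool.Agent.DR.FA

open Pool.Agent.MuZ Pool.Agent.FW NumberField IsDedekindDomain Pool.Agent.DN Pool.Agent.DN.FA
open Pool.Agent.DI (io ofC io_inj exists_io io_ofC ofC_io VP MP UP TP ex)

/-- The translate of a prime above `2`. -/
theorem ab2_smul (σ : Gal(Om/ℚ)) {P : Ideal ZZ} (hP : Ab2 P) : Ab2 (σ • P) := by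
  have hp : P.IsPrime := hP.1.1
  have hp' : (σ • P).IsPrime := inferInstance
  refine ⟨⟨hp', fun h => hP.1.2 ?_⟩, ?_⟩
  · rw [eq_bot_iff]
    intro x hx
    have h1 : σ • x ∈ σ • P := (DI.smul_mem_smul_iff σ x).2 hx
    rw [h, Ideal.mem_bot] at h1
    have h3 : σ⁻¹ • σ • x = 0 := by rw [h1, smul_zero]
    rw [inv_smul_smul] at h3
    rw [h3]
    exact Ideal.zero_mem _
  · have h1 := (DI.MP.smul (P := P) σ (x := (2 : Om))).2 hP.2
    rwa [map_ofNat] at h1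

private theorem YE_den {r : ℚ} {j : ℕ} (hj : Odd j) (h : r.den.Coprime j) : (r / 4).den.Coprime j := by
  have h1 : (r / 4).den ∣ r.den * 4 := by
    have h2 := Rat.mul_den_dvd r (1 / 4)
    have e : (1 / 4 : ℚ).den = 4 := by norm_num
    have e2 : r * (1 / 4) = r / 4 := by ring
    rw [e, e2] at h2
    exact h2
  have h3 : Nat.Coprime 4 j := by
    have h4 : Nat.Coprime (2 ^ 2) j := Nat.Coprime.pow_left 2 (Nat.coprime_two_left.2 hj)
    exact h4
  exact Nat.Coprime.coprime_dvd_left h1 (Nat.coprime_mul_iff_left.2 ⟨h, h3⟩)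

private theorem YE_act (hC8 : F.S_C8) (hTm : S_Tm) {n t : ℕ} [Rmf n t] {f : ℕ}
    {m : Ideal (OO n t)} (hm : FM f m) {r : ℚ} (hr : (r / 4).den.Coprime (NI m)) {τ : Gal(Om/ℚ)}
    (hτ : τ ∈ GK n t) {a b : Ideal (OO n t)} (ha : Psi τ (2 * f) a) (hb : FB f b) :
    τ (yE f m b r) = yE f m (a * b) r := by
  obtain ⟨t1, -⟩ := hTm n t f hm.odd hm.dvd
  unfold yE etE
  rw [map_mul, map_div₀, map_ofNat, map_sum, GK_toO hτ]
  refine congrArg (fun x => toO (pO n t) / 2 * x) (Finset.sum_congr rfl fun α hα => ?_)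
  have hs : FB f (sp α * b) := fb_mul (fb_sp hm.odd (t1 α hα).2.2.2) hb
  rw [hC8 n t f m _ hm hs (r / 4) hr τ hτ a ha, mul_left_comm]

theorem tYE (hC6 : F.S_C6) (hC8 : F.S_C8) (hC10 : H_C10) (hE1 : S_E1) (hTm : S_Tm) : S_YE := by
  intro n t _ f M m R hm hR hlv r hr
  have h2f : 0 < 2 * f := two_f hm.odd
  have hf0 : 0 < f := f_pos hm.odd
  have h152 : 15 ∣ 2 * f := hm.dvd.mul_left 2
  have hNm : Odd (NI m) := Odd.of_dvd_nat hlv.odd (lv_m hlv)
  have hr' : (r / 4).den.Coprime (NI m) :=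
    YE_den hNm (Nat.Coprime.coprime_dvd_right (lv_m hlv) hr)
  obtain ⟨t1, t2, -⟩ := hTm n t f hm.odd hm.dvd
  have hact : ∀ τ ∈ GK n t, ∀ a : Ideal (OO n t), Psi τ (2 * f) a →
      τ (yE f m ⊤ r) = yE f m a r := by
    intro τ hτ a ha
    have h1 := YE_act hC8 hTm hm hr' hτ ha (fb_top f)
    rw [Ideal.mul_top] at h1
    exact h1
  have hcl : ∀ b : Ideal (OO n t), FB f b → Ray f b ⊤ → yE f m b r = yE f m ⊤ r := by
    intro b hb hray
    have h1 := (t2 Om (fun c => etaM (2 * f) m c (r / 4)) fun c c' hc hc' hcc => by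
      simp only [(hC6 n t f m c hm hc c' hc' hcc).2 (r / 4)]).2 b ⊤ hb
        (fb_top f) hray
    unfold yE etE
    exact congrArg (fun x => toO (pO n t) / 2 * x) h1
  refine ⟨?_, ?_, hact⟩
  · intro τ hτ a ha hray
    obtain ⟨e1, -, -, -, -⟩ := hE1 n t (2 * f) h2f h152
    obtain ⟨-, e2, -, -, -⟩ := hE1 n t f hf0 hm.dvd
    obtain ⟨a', ha'⟩ := e1 τ hτ
    have ha'f : Psi τ f a' := Eb.psi_level ha' (Dvd.intro_left 2 rfl)
    have hr1 : Ray f a' ⊤ := ray_trans hf0 (e2 τ a' a ha'f ha) hray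
    rw [hact τ hτ a' ha']
    exact hcl a' (fb_psi ha') hr1
  · intro Q hQ τ _
    have hQ' : Ab2 (τ⁻¹ • Q) := ab2_smul τ⁻¹ hQ
    have h1 := hC10 n t f M m ⊤ hm (fb_top f) (lv_top hlv) (τ⁻¹ • Q) hQ' r hr
    have h2 := (DI.VP.smul (P := τ⁻¹ • Q) τ (x := yE f m ⊤ r)).2 h1
    rwa [smul_inv_smul] at h2

end Pool.Agent.DR.FA
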