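import Pool.Agent.Lib.DR.F.KP
import Pool.Agent.Lib.DR.F.YE
import Pool.Agent.Lib.DR.E.AllB
import Pool.Agent.Lib.DN.E.F0
import Pool.Agent.Lib.DN.E.Ab
import Pool.Agent.Lib.DI.B.A12
import Pool.Agent.Lib.MuZ.Inst

/-!
# Theorem DR, part F, module `Kf`: Galois theory of the ray class fields `Kf n t f`, `Kf n t (2 * f)`

Adapted from `DN/F/Kf.lean` (helper79).
-/

set_option autoImplicit false

open scoped Pointwise Topology MatrixGroups
open Filter

noncomputable section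

namespace Pool.Agent.DR.F

open Pool.Agent.MuZ Pool.Agent.FW NumberField IsDedekindDomain Pool.Agent.DN Pool.Agent.DN.F
open Pool.Agent.DI (io ofC io_inj exists_io io_ofC ofC_io VP MP UP TP ex)
open Pool.Agent.DR.FA (S_KP ab2_smul)

/-- The ray class group itself. -/
theorem Kf_hg {n t : ℕ} [SqN n t] {N : ℕ} (hN : 0 < N) :
    Eb.HG N (fun a : Ideal (OO n t) => Ray N a ⊤) where
  top := ray_refl hN ⊤
  cop := fun a h => by
    have h1 := pn_ray hN (ray_symm hN h) (pn_top N)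
    exact ⟨h1.ne, h1.cop⟩
  ray := fun a a' h h' => ray_trans hN (ray_symm hN h') h
  mul := fun a a' h h' => by
    have h1 := ray_mul hN h h'
    rwa [Ideal.mul_top] at h1
  cj := fun a h => by
    have h1 := ray_cj h
    rwa [cjI_top] at h1

/-- Galois theory of one ray class field. -/
private theorem Kf_one (hE1 : DS.S_E1) (hE8 : DS.S_E8) {n t : ℕ} [SqN n t] {N : ℕ} (hN : 0 < N)
    (h15 : 15 ∣ N) (hAb : ∀ τ ∈ GK n t, ∀ x ∈ Kf n t N, τ x ∈ Kf n t N) :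
    FiniteDimensional ℚ (Kf n t N) ∧ wO n t ∈ Kf n t N ∧
      (∀ τ ∈ GK n t, ∀ x ∈ Kf n t N, τ x ∈ Kf n t N) ∧
      ∀ τ ∈ GK n t, ∀ τ' ∈ GK n t, ∀ a a' : Ideal (OO n t), Psi τ N a → Psi τ' N a' →
        ((∀ x ∈ Kf n t N, τ x = τ' x) ↔ Ray N a a') := by
  have hg := Kf_hg (n := n) (t := t) hN
  obtain ⟨hfd, hle, hfix⟩ :=
    hE8 n t N (fun a : Ideal (OO n t) => Ray N a ⊤) hN h15 hg.top hg.cop hg.ray hg.mul
  refine ⟨hfd, hle (IntermediateField.mem_adjoin_simple_self ℚ (wO n t)), hAb, ?_⟩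
  intro τ hτ τ' hτ' a a' ha ha'
  have hρ : τ⁻¹ * τ' ∈ GK n t := mul_mem (inv_mem hτ) hτ'
  obtain ⟨s, hs⟩ := (hE1 n t N hN h15).1 _ hρ
  have h2 := Eb.psi_mul ha hs
  rw [mul_inv_cancel_left] at h2
  have h3 : Ray N (a * s) a' := (hE1 n t N hN h15).2.1 τ' _ _ h2 ha'
  have h4 : (∀ x ∈ Kf n t N, τ x = τ' x) ↔ Ray N s ⊤ := by
    rw [← hfix _ hρ s hs]
    constructor
    · intro h x hx
      have h5 := h x hx
      rw [AlgEquiv.mul_apply, ← h5, ← AlgEquiv.mul_apply, inv_mul_cancel]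
      rfl
    · intro h x hx
      have h5 := h x hx
      have h6 : τ' x = (τ * (τ⁻¹ * τ')) x := by rw [mul_inv_cancel_left]
      rw [h6, AlgEquiv.mul_apply, h5]
  rw [h4]
  constructor
  · intro h
    have h5 : Ray N (a * s) (a * ⊤) := ray_mul hN (ray_refl hN a) h
    rw [Ideal.mul_top] at h5
    exact ray_trans hN (ray_symm hN h5) h3
  · intro h
    have h5 : Ray N (a * s) (a * ⊤) := by
      rw [Ideal.mul_top]
      exact ray_trans hN h3 (ray_symm hN h)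
    exact ray_cancel' hN (pn_psi ha) h5

/-- The inertia group at `P` is not contained in `GK`. -/
theorem Kf_in (hO4 : S_O4) (hKP : S_KP) (hIne : FW.S_Ine) {n t : ℕ} [Rmf n t] {c : Gal(Om/ℚ)}
    (hc : IsCj c) {P : Ideal ZZ} (hP : Ab2 P) : ∃ τ ∈ P.inertia Gal(Om/ℚ), τ ∉ GK n t := by
  have hPp : P.IsPrime := hP.1.1
  have ht : t = 0 := Rmf.zero (n := n)
  have hcw : c (wO n t) = -wO n t := by
    rw [cj_wO hc, ht]
    simp
  obtain ⟨-, -, -, -, -, -, -, -, -, -, -, -, h13, -⟩ := hO4 n t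
  obtain ⟨-, -, k3, -⟩ := hKP n t P hP
  have hfd : FiniteDimensional ℚ (KQ n t) := by
    unfold KQ
    exact IntermediateField.adjoin.finiteDimensional
      (Algebra.IsAlgebraic.isAlgebraic (wO n t)).isIntegral
  have hst : ∀ x ∈ KQ n t, c x ∈ KQ n t := by
    intro x hx
    have h1 : (KQ n t).map (c : Om →ₐ[ℚ] Om) ≤ KQ n t := by
      unfold KQ
      rw [IntermediateField.adjoin_map, IntermediateField.adjoin_le_iff]
      rintro _ ⟨y, hy, rfl⟩
      rw [Set.mem_singleton_iff] at hy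
      rw [hy]
      change c (wO n t) ∈ _
      rw [hcw]
      exact neg_mem (IntermediateField.mem_adjoin_simple_self ℚ (wO n t))
    exact h1 ⟨x, hx, rfl⟩
  obtain ⟨s, hs, -, hsx⟩ := hIne ⊥ (KQ n t) hfd bot_le P hPp hP.1.2 c (by
    rw [IntermediateField.fixingSubgroup_bot]
    exact Subgroup.mem_top c) hst (by
    intro y hy
    obtain ⟨N, hN, v, hv⟩ := k3 (y : Om) hy (DI.VP.integral y.2)
    have h1 : (N : Om) * (c (y : Om) - (y : Om)) = -toO (v - cjO v) := by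
      have h2 := congrArg c hv
      rw [map_mul, map_natCast, cj_toO hc] at h2
      rw [toO_sub, mul_sub, hv, h2]
      ring
    have h2 : MP P ((N : Om) * (c (y : Om) - (y : Om))) := by
      rw [h1]
      obtain ⟨u, hu⟩ := h13 v
      rw [hu, toO_mul, FA.KP_toO2]
      exact DI.MP.neg (DI.MP.mul_right hP.2 (toO_VP _))
    have h3 : UP P ((N : ℕ) : Om) := by
      have h4 : MP P (((N : ℕ) : Om) - 1) := by
        obtain ⟨i, rfl⟩ := hN
        push_cast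
        rw [add_sub_cancel_right]
        exact DI.MP.mul_right hP.2 (DI.VP.nat i)
      exact DI.UP.congr DI.UP.one h4
    have h5 := DI.MP.mul_left h3.inv.1 h2
    rw [inv_mul_cancel_left₀ h3.ne_zero] at h5
    exact (DI.MP.coe_iff (c • y - y)).1 h5)
  refine ⟨s, hs, fun h => ?_⟩
  have h1 := hsx (wO n t) (IntermediateField.mem_adjoin_simple_self ℚ (wO n t))
  rw [mem_GK_iff.1 h, hcw] at h1
  have h2 : 2 * wO n t = 0 := by linear_combination h1
  have h3 : wO n t = 0 := (mul_eq_zero.1 h2).resolve_left two_ne_zero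
  have h4 : wI n t ≠ 0 := by
    intro h5
    have h6 := congrArg QuadraticAlgebra.im h5
    rw [QuadraticAlgebra.im_zero] at h6
    exact one_ne_zero h6
  exact toO_ne h4 (by rw [toO_wI, h3])

theorem tKf (hO4 : S_O4) (hKP : S_KP) (hE1 : DS.S_E1) (hE4 : S_E4a) (hE7 : DS.S_E7) (hE8 : DS.S_E8)
    (hCj : DS.S_Cj) (hIne : FW.S_Ine) : S_Kf := by
  intro n t _ f hfo h15
  have hf : 0 < f := hfo.pos
  have h2f : 0 < 2 * f := by omega
  have h15' : 15 ∣ 2 * f := h15.mul_left 2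
  have ht : t = 0 := Rmf.zero (n := n)
  have hg := Kf_hg (n := n) (t := t) hf
  have hg2 := Kf_hg (n := n) (t := t) h2f
  obtain ⟨-, hle, -⟩ := hE8 n t f (fun a : Ideal (OO n t) => Ray f a ⊤) hf h15 hg.top hg.cop hg.ray hg.mul
  have hnor : ∀ τ : Gal(Om/ℚ), ∀ x ∈ Kf n t f, τ x ∈ Kf n t f := by
    obtain ⟨c, -, hc⟩ := hCj
    exact (hc n t).2.2 f _ hf h15 hg.ray hg.cj
  have hnor2 : ∀ τ : Gal(Om/ℚ), ∀ x ∈ Kf n t (2 * f), τ x ∈ Kf n t (2 * f) := by
    obtain ⟨c, -, hc⟩ := hCj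
    exact (hc n t).2.2 (2 * f) _ h2f h15' hg2.ray hg2.cj
  have h1 := Kf_one hE1 hE8 (n := n) (t := t) hf h15 fun τ _ => hnor τ
  have hfd : FiniteDimensional ℚ (Kf n t f) := h1.1
  have hinr : ∀ P : Ideal ZZ, Ab2 P → ∀ τ ∈ GK n t, τ ∈ P.inertia Gal(Om/ℚ) →
      ∀ x ∈ Kf n t f, τ x = x := by
    intro P hP τ hG hτ x hx
    exact hx τ hG ⊤ (hE4 n t P hP τ hG hτ f hfo h15) hg.top
  obtain ⟨c0, hc0⟩ : ∃ c : Gal(Om/ℚ), IsCj c := by
    obtain ⟨c, hc⟩ := Pool.Agent.DI.tA1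
    exact ⟨c, hc⟩
  refine ⟨?_, ?_, ?_, ?_, hinr, ?_, ⟨c0, hc0⟩, ?_, fun P hP => Kf_in hO4 hKP hIne hc0 hP⟩
  · rintro N (rfl | rfl)
    · exact h1
    · exact Kf_one hE1 hE8 h2f h15' fun τ _ => hnor2 τ
  · -- `Kf n t f ≤ Kf n t (2 * f)`
    intro x hx τ hτ a ha hr
    exact hx τ hτ a ((hE1 n t _ h2f h15').2.2.2.2 τ f a ha (Dvd.intro_left _ rfl) h15)
      (ray_dvd h2f (Dvd.intro_left _ rfl) hr)
  · -- representatives
    choose! σ hσ using fun (b : Ideal (OO n t)) (hb : FB f b) => hE7 n t (2 * f) b h2f h15' hb.ne hb.cop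
    exact ⟨σ, fun b hb => (hσ b hb).1, fun b hb => (hσ b hb).2⟩
  · -- the fixed field
    intro x hx
    have h2 : x ∈ IntermediateField.fixedField (KQ n t).fixingSubgroup := by
      rintro ⟨τ, hτ⟩
      exact hx τ hτ
    rwa [InfiniteGalois.fixedField_fixingSubgroup] at h2
  · -- reduction is injective
    intro P hP τ hτ τ' hτ' h x hx
    have hP' := ab2_smul τ'⁻¹ hP
    have hp : P.IsPrime := hP.1.1
    have hp' : (τ'⁻¹ • P).IsPrime := hP'.1.1
    have hρ : τ'⁻¹ * τ ∈ GK n t := mul_mem (inv_mem hτ') hτ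
    obtain ⟨s, hs, hsK, hsx⟩ := hIne (KQ n t) (Kf n t f) hfd hle (τ'⁻¹ • P) hP'.1.1 hP'.1.2 _ hρ
      (hnor _) (by
      intro y hy
      have h3 := (DI.MP.smul (P := P) τ'⁻¹ (x := τ (y : Om) - τ' (y : Om))).2 (h _ hy y.2)
      have h4 : τ'⁻¹ (τ (y : Om) - τ' (y : Om)) = (((τ'⁻¹ * τ) • y - y : ZZ) : Om) := by
        rw [map_sub, ← AlgEquiv.mul_apply, ← AlgEquiv.mul_apply, inv_mul_cancel]
        rfl
      rw [h4] at h3
      exact (DI.MP.coe_iff _).1 h3)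
    have h5 : (τ'⁻¹ * τ) x = x := by
      rw [← hsx x hx]
      exact hinr _ hP' s hsK hs x hx
    have h6 : τ x = (τ' * (τ'⁻¹ * τ)) x := by rw [mul_inv_cancel_left]
    rw [h6, AlgEquiv.mul_apply, h5]
  · intro c hc
    refine ⟨?_, ?_⟩
    · apply AlgEquiv.ext
      intro x
      rw [AlgEquiv.mul_apply, cj_cj hc]
      rfl
    · rw [cj_wO hc, ht]
      simp

end Pool.Agent.DR.F
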