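import Pool.Agent.Lib.DR.F.SpecA

/-!
# Theorem DR, part F, module `Pa`: the periods of `A`
-/

set_option autoImplicit false
set_option linter.unusedSectionVars false

open scoped Pointwise Topology MatrixGroups
open Filter

noncomputable section

namespace Pool.Agent.DR.FA

open Pool.Agent.MuZ Pool.Agent.FW NumberField IsDedekindDomain Pool.Agent.DN Pool.Agent.DN.FA
open Pool.Agent.DI (io ofC io_inj exists_io io_ofC ofC_io VP MP UP TP ex)

theorem tPa (hC2 : F.S_C2) (hC6 : F.S_C6) (hE1 : S_E1) (hKf : S_Kf) (hTm : S_Tm) (hGc : S_Gc)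
    (hYE : S_YE) : S_Pa := by
  intro n t _ f M m R R2 hFM hFR hR hLv hFR2 hR2 hLv2 σ hσ β₀ hβ₀ hβV a b c' d hg hd
  obtain ⟨-, -, G5⟩ := hGc n t f hFM.odd hFM.dvd
  obtain ⟨T1, T2, -⟩ := hTm n t f hFM.odd hFM.dvd
  obtain ⟨-, -, -, hfix, -⟩ := hKf n t f hFM.odd hFM.dvd
  have hfp : 0 < f := f_pos hFM.odd
  have hMd : (M : ℤ) ∣ d - 1 := dvd_trans (Dvd.intro_left 32 rfl) hd
  have hden : ((4 : ℚ) * (b / d)).den.Coprime M := by
    have h := den_cop hMd (4 * b)
    have e : (((4 * b : ℤ) : ℚ)) / d = 4 * (b / d) := by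
      push_cast
      ring
    rwa [e] at h
  have hden0 : (0 : ℚ).den.Coprime M := by simp
  obtain ⟨Y1, Y2, Y3⟩ := hYE n t f M m R hFM hFR hLv _ hden
  obtain ⟨Z1, Z2, Z3⟩ := hYE n t f M m R hFM hFR hLv _ hden0
  set x : Om := yE f m (⊤ : Ideal (OO n t)) (4 * (b / d)) - yE f m ⊤ 0 with hx
  have hxK : β₀ * x ∈ Kf n t f := (Kf n t f).mul_mem hβ₀ ((Kf n t f).sub_mem Y1 Z1)
  refine ⟨?_, ?_, ?_⟩
  · intro z hz
    -- the class function
    set F : Ideal (OO n t) → Om := fun b' => toO (pO n t) * σ b' β₀ / 2 *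
      (etaM (2 * f) m b' (b / d) - etaM (2 * f) m b' 0) with hF
    have hFc : ∀ b1 b2, FB f b1 → FB f b2 → Ray (2 * f) b1 b2 → F b1 = F b2 := by
      intro b1 b2 h1 h2 h3
      have e2 := (G5 σ hσ f (Or.inl rfl) β₀ hβ₀).1 b1 b2 h1 h2 (ray_f hFM.odd h3)
      have e3 := (hC6 n t f m b1 hFM h1 b2 h2 h3).2
      change toO (pO n t) * σ b1 β₀ / 2 * (etaM (2 * f) m b1 (b / d) - etaM (2 * f) m b1 0) =
        toO (pO n t) * σ b2 β₀ / 2 * (etaM (2 * f) m b2 (b / d) - etaM (2 * f) m b2 0)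
      rw [e2, e3, e3]
    have hsum := (T2 Om F hFc).1 R R2 hR hFR hR2
    have hin : ∀ b' ∈ R, ∑ α ∈ tm2 n t f, F (sp α * b') = σ b' (β₀ * x) := by
      intro b' hb'
      have hfb := hFR b' hb'
      have e1 : ∀ α ∈ tm2 n t f, F (sp α * b') = σ b' β₀ * (toO (pO n t) / 2) *
          (etaM (2 * f) m (sp α * b') (4 * (b / d) / 4) - etaM (2 * f) m (sp α * b') (0 / 4)) := by
        intro α hα
        obtain ⟨h1, h2, h3, h4⟩ := T1 α hα
        have h5 : Ray f (sp α * b') b' := by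
          refine ray_of (one_ne_zero) h1 ?_ h2 ?_
          · rw [sub_self]
            exact dvd_zero _
          · rw [sp_one, Ideal.top_mul]
        have h6 : FB f (sp α * b') := fb_mul (fb_sp hFM.odd h4) hfb
        have h7 := (G5 σ hσ f (Or.inl rfl) β₀ hβ₀).1 _ b' h6 hfb h5
        have h8 : (4 : ℚ) * (b / d) / 4 = b / d := by ring
        have h9 : (0 : ℚ) / 4 = 0 := by ring
        change toO (pO n t) * σ (sp α * b') β₀ / 2 *
          (etaM (2 * f) m (sp α * b') (b / d) - etaM (2 * f) m (sp α * b') 0) = _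
        rw [h7, h8, h9]
        ring
      rw [Finset.sum_congr rfl e1, ← Finset.mul_sum, Finset.sum_sub_distrib,
        map_mul, hx, map_sub, Y3 (σ b') (hσ.mem b' hfb) b' (hσ.psi b' hfb),
        Z3 (σ b') (hσ.mem b' hfb) b' (hσ.psi b' hfb)]
      unfold yE etE
      ring
    rw [Finset.sum_congr rfl hin] at hsum
    have h1 : ∀ b' ∈ R2, io (σ b' (bet n t β₀)) * ThM (2 * f) m b' ((a * z + b) / (c' * z + d)) =
        io (σ b' (bet n t β₀)) * ThM (2 * f) m b' z + io (F b') := by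
      intro b' hb'
      have hfb := hFR2 b' hb'
      have h2 := hC2 n t f M m b' hFM hfb (lv_one hLv2 hb') a b c' d hg hd z hz
      have h4 : F b' = σ b' (bet n t β₀) * (etaM (2 * f) m b' (b / d) - etaM (2 * f) m b' 0) := by
        unfold bet
        rw [map_div₀, map_mul, GK_toO (hσ.mem b' hfb), map_ofNat]
      rw [h2, h4, mul_add, ← map_mul io]
    unfold AF
    rw [Finset.sum_congr rfl h1, Finset.sum_add_distrib, ← map_sum io, hsum]
    unfold perA
    push_cast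
    ring
  · refine hfix _ fun τ hτ => ?_
    obtain ⟨e, he⟩ := (hE1 n t (2 * f) (two_f hFM.odd) (Dvd.dvd.mul_left hFM.dvd 2)).1 τ hτ
    have hfe : FB f e := fb_psi he
    obtain ⟨h1, h2⟩ := G5 σ hσ f (Or.inl rfl) (β₀ * x) hxK
    have h3 := sum_mul hfp (Dvd.intro_left 2 rfl) hR hFR hfe (fun b' => σ b' (β₀ * x)) h1
    unfold perA
    rw [map_sum, ← hx, ← h3]
    exact Finset.sum_congr rfl fun b' hb' => (h2 τ hτ e he b' (hFR b' hb')).1
  · intro Q hQ
    have := hQ.1.1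
    refine DI.VP.sum _ _ fun b' hb' => ?_
    rw [map_mul, map_sub]
    have hm := hσ.mem b' (hFR b' hb')
    exact (hβV Q hQ _ hm).mul ((Y2 Q hQ _ hm).sub (Z2 Q hQ _ hm))

end Pool.Agent.DR.FA
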