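import Pool.Agent.Lib.DR.F.SpecA
import Pool.Agent.Lib.DI.F.Fg

/-!
# Theorem DR, part F, module `Pb`: finitely many generators
-/

set_option autoImplicit false
set_option linter.unusedSectionVars false

open scoped Pointwise Topology MatrixGroups
open Filter CongruenceSubgroup

noncomputable section

namespace Pool.Agent.DR.FA

open Pool.Agent.MuZ Pool.Agent.FW NumberField IsDedekindDomain Pool.Agent.DN Pool.Agent.DN.FA
open Pool.Agent.DI (io ofC io_inj exists_io io_ofC ofC_io VP MP UP TP ex)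

/-- a common odd denominator -/
private theorem Pb_exists_N {n t : ℕ} [SqN n t] (T : Finset Om)
    (h : ∀ x ∈ T, ∃ N : ℕ, Odd N ∧ ∃ v : OO n t, (N : Om) * x = toO v) :
    ∃ N0 : ℕ, Odd N0 ∧ ∀ x ∈ T, ∃ v : OO n t, (N0 : Om) * x = toO v := by
  classical
  induction T using Finset.induction_on with
  | empty => exact ⟨1, odd_one, fun x hx => absurd hx (Finset.notMem_empty x)⟩
  | insert a T ha ih =>
    obtain ⟨N, hN, h1⟩ := ih fun x hx => h x (Finset.mem_insert_of_mem hx)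
    obtain ⟨N', hN', v, hv⟩ := h a (Finset.mem_insert_self a T)
    refine ⟨N * N', hN.mul hN', fun x hx => ?_⟩
    rcases Finset.mem_insert.1 hx with rfl | hx
    · refine ⟨N * v, ?_⟩
      rw [toO_mul, toO_nat, ← hv]
      push_cast
      ring
    · obtain ⟨v', hv'⟩ := h1 x hx
      refine ⟨N' * v', ?_⟩
      rw [toO_mul, toO_nat, ← hv']
      push_cast
      ring

/-- the common denominator for the group generated by `T` -/
private theorem Pb_closure_N {n t : ℕ} [SqN n t] (N0 : ℕ) (T : Finset Om)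
    (h : ∀ x ∈ T, ∃ v : OO n t, (N0 : Om) * x = toO v)
    (x : Om) (hx : x ∈ AddSubgroup.closure (T : Set Om)) :
    ∃ v : OO n t, (N0 : Om) * x = toO v := by
  induction hx using AddSubgroup.closure_induction with
  | mem x hx => exact h x hx
  | zero => exact ⟨0, by rw [mul_zero, toO_zero]⟩
  | add x y _ _ hx hy =>
    obtain ⟨v, hv⟩ := hx
    obtain ⟨v', hv'⟩ := hy
    exact ⟨v + v', by rw [mul_add, hv, hv', toO_add]⟩
  | neg x _ hx =>
    obtain ⟨v, hv⟩ := hx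
    exact ⟨-v, by rw [mul_neg, hv, toO_neg]⟩

/-- the entries of an element of `Gamma1` -/
private theorem Pb_ent (M : ℕ) {g : SL(2, ℤ)} (hg : g ∈ Gamma1 M) :
    G0 M (g 0 0) (g 0 1) (g 1 0) (g 1 1) ∧ (M : ℤ) ∣ g 1 1 - 1 := by
  rw [Gamma1_mem] at hg
  obtain ⟨-, h2, h3⟩ := hg
  refine ⟨⟨?_, ?_⟩, ?_⟩
  · have := Matrix.SpecialLinearGroup.det_coe g
    rw [Matrix.det_fin_two] at this
    exact this
  · exact (ZMod.intCast_zmod_eq_zero_iff_dvd _ _).1 h3
  · refine (ZMod.intCast_zmod_eq_zero_iff_dvd _ _).1 ?_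
    rw [Int.cast_sub, h2, Int.cast_one, sub_self]

/-- the matrix with given entries -/
private theorem Pb_mk (M : ℕ) {a b c d : ℤ} (h : G0 M a b c d) (hd : (M : ℤ) ∣ d - 1) :
    ∃ g ∈ Gamma1 M, g 0 1 = b ∧ g 1 1 = d := by
  have h1 : ((d : ℤ) : ZMod M) = 1 := by
    have := (ZMod.intCast_zmod_eq_zero_iff_dvd (d - 1) M).2 hd
    rw [Int.cast_sub, Int.cast_one] at this
    exact sub_eq_zero.1 this
  have h2 : ((c : ℤ) : ZMod M) = 0 :=
    (ZMod.intCast_zmod_eq_zero_iff_dvd c M).2 h.2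
  have h3 : ((a : ℤ) : ZMod M) = 1 := by
    have := congrArg (fun t : ℤ => (t : ZMod M)) h.1
    simp only [Int.cast_sub, Int.cast_mul, h1, h2, mul_zero, sub_zero, mul_one, Int.cast_one] at this
    exact this
  have hdet : Matrix.det !![a, b; c, d] = 1 := by
    rw [Matrix.det_fin_two_of]
    exact h.1
  have hg : (show SL(2, ℤ) from ⟨!![a, b; c, d], hdet⟩) ∈ Gamma1 M := (Gamma1_mem M _).2 ⟨h3, h1, h2⟩
  exact ⟨_, hg, rfl, rfl⟩

/-- additivity of the periods -/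
private theorem Pb_per_mul (M : ℕ) (U : ℂ → ℂ) (p : ℤ → ℤ → Om)
    (h : ∀ a b c d : ℤ, G0 M a b c d → (M : ℤ) ∣ d - 1 → ∀ z : ℂ, 0 < z.im →
      U ((a * z + b) / (c * z + d)) = U z + io (p b d))
    (g : SL(2, ℤ)) (hg : g ∈ Gamma1 M) (k : SL(2, ℤ)) (hk : k ∈ Gamma1 M) :
    p ((g * k) 0 1) ((g * k) 1 1) = p (g 0 1) (g 1 1) + p (k 0 1) (k 1 1) := by
  have key : ∀ g ∈ Gamma1 M, ∀ z : UpperHalfPlane,
      U ((g • z : UpperHalfPlane) : ℂ) = U z + io (p (g 0 1) (g 1 1)) := by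
    intro g hg z
    obtain ⟨h1, h2⟩ := Pb_ent M hg
    have h3 := h _ _ _ _ h1 h2 z z.im_pos
    rw [← h3, UpperHalfPlane.coe_specialLinearGroup_apply]
    simp only [eq_intCast, Complex.ofReal_intCast]
  have h1 := key g hg (k • UpperHalfPlane.I)
  have h2 := key k hk UpperHalfPlane.I
  have h3 := key (g * k) ((Gamma1 M).mul_mem hg hk) UpperHalfPlane.I
  rw [mul_smul, h1, h2] at h3
  apply io_inj
  rw [map_add]
  linear_combination -h3

private theorem Pb_cast {M : ℕ} {x : ℤ} (h : (32 * M : ℤ) ∣ x) : ((32 * M : ℕ) : ℤ) ∣ x := by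
  push_cast
  exact h

private theorem Pb_uncast {M : ℕ} {x : ℤ} (h : ((32 * M : ℕ) : ℤ) ∣ x) : (32 * M : ℤ) ∣ x := by
  push_cast at h
  exact h

private theorem Pb_g0 {M : ℕ} {a b c d : ℤ} (h : G0 (32 * M : ℤ) a b c d) :
    G0 ((32 * M : ℕ) : ℤ) a b c d := by
  push_cast
  exact h

private theorem Pb_g0' {M : ℕ} {a b c d : ℤ} (h : G0 ((32 * M : ℕ) : ℤ) a b c d) :
    G0 (32 * M : ℤ) a b c d := by
  push_cast at h
  exact h

theorem tPb (hKP : S_KP) (hPa : S_Pa) : S_Pb := by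
  intro n t _ f M m R R2 hFM hFR hR hLv hFR2 hR2 hLv2 P hP σ hσ β₀ hβ hβV
  have hM : NeZero (32 * M) := ⟨by have := hLv.three; omega⟩
  have hPp : P.IsPrime := hP.1.1
  have hper := hPa n t f M m R R2 hFM hFR hR hLv hFR2 hR2 hLv2 σ hσ β₀ hβ hβV
  obtain ⟨T, hT1, hT2⟩ := DI.F.tFg (32 * M) Om (fun g => perA f m R σ β₀ (g 0 1) (g 1 1)) (by
    intro g hg h hh
    exact Pb_per_mul (32 * M) (AF f m R2 σ 1 (bet n t β₀)) (fun b d => perA f m R σ β₀ b d)
      (fun a b c' d h1 h2 z hz => (hper a b c' d (Pb_g0' h1) (Pb_uncast h2)).1 z hz) g hg h hh)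
  obtain ⟨N0, hN0, hNT⟩ := Pb_exists_N (n := n) (t := t) T (by
    intro x hx
    obtain ⟨g, hg, rfl⟩ := hT1 x hx
    obtain ⟨h1, h2⟩ := Pb_ent (32 * M) hg
    obtain ⟨-, h3, h4⟩ := hper _ _ _ _ (Pb_g0' h1) (Pb_uncast h2)
    exact (hKP n t P hP).2.2.1 _ h3 (h4 P hP))
  refine ⟨N0, hN0, fun a b c' d hg hd => ?_⟩
  obtain ⟨g, hg1, hgb, hgd⟩ := Pb_mk (32 * M) (Pb_g0 hg) (Pb_cast hd)
  obtain ⟨α, hα⟩ := Pb_closure_N N0 T hNT _ (hT2 g hg1)
  simp only [hgb, hgd] at hα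
  refine ⟨α, hα, fun z hz => ?_⟩
  have h1 := (hper a b c' d hg hd).1 z hz
  have h2 : ∀ w : ℂ, AF f m R2 σ N0 (bet n t β₀) w =
      N0 * AF f m R2 σ 1 (bet n t β₀) w := by
    intro w
    unfold AF
    push_cast
    ring
  rw [h2, h2, h1, ← io_toO, ← hα, map_mul, map_natCast]
  ring

end Pool.Agent.DR.FA
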