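import Pool.Agent.Lib.DR.F.LaF
import Pool.Agent.Lib.DI.F.F3core

/-!
# Theorem DR, part F, module PsE: the expansion of `Ψ = G(C/2)`
-/

set_option autoImplicit false

open scoped Pointwise Topology MatrixGroups
open Filter

noncomputable section

namespace Pool.Agent.DR.F

open Pool.Agent.MuZ Pool.Agent.FW NumberField IsDedekindDomain Pool.Agent.DN Pool.Agent.DN.F
open Pool.Agent.DI (io ofC io_inj exists_io io_ofC ofC_io VP MP UP TP ex)
open Pool.Agent.DI.F (tay Co Cf P0 P1)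
open Pool.Agent.DI.F.PsiExpAux (pmap_inj der_map lift norm_ex ex_ne)

/-! ## Square roots -/

private theorem PsE_cmul (K : Subfield ℂ) (p q : PowerSeries ℂ) (hp : Cf K p) (hq : Cf K q) :
    Cf K (p * q) := by
  intro n
  rw [PowerSeries.coeff_mul]
  exact K.sum_mem fun x _ => K.mul_mem (hp _) (hq _)

/-- Square roots of power series. -/
private theorem PsE_sq (K : Subfield ℂ) (p : PowerSeries ℂ) (h0 : PowerSeries.coeff 0 p ∈ K)
    (hne : PowerSeries.coeff 0 p ≠ 0) (hC : Cf K (p ^ 2)) : Cf K p := by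
  intro n
  induction n using Nat.strong_induction_on with
  | _ n ih =>
    rcases Nat.eq_zero_or_pos n with hn | hn
    · rw [hn]
      exact h0
    · let T : PowerSeries ℂ := PowerSeries.mk fun m => if m < n then PowerSeries.coeff m p else 0
      have hT : Cf K T := by
        intro m
        rw [PowerSeries.coeff_mk]
        split_ifs with h
        · exact ih m h
        · exact K.zero_mem
      obtain ⟨S, hS⟩ : (PowerSeries.X : PowerSeries ℂ) ^ n ∣ p - T := by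
        rw [PowerSeries.X_pow_dvd_iff]
        intro m hm
        rw [map_sub, PowerSeries.coeff_mk, if_pos hm, sub_self]
      have hS0 : PowerSeries.coeff 0 S = PowerSeries.coeff n p := by
        have h1 := congrArg (PowerSeries.coeff n) hS
        rw [map_sub, PowerSeries.coeff_mk, if_neg (lt_irrefl n), sub_zero] at h1
        have h2 := PowerSeries.coeff_X_pow_mul S n 0
        rw [zero_add] at h2
        rw [← h2, ← h1]
      have hT0 : PowerSeries.coeff 0 T = PowerSeries.coeff 0 p := by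
        rw [PowerSeries.coeff_mk, if_pos hn]
      have h3 : p ^ 2 = T * T + PowerSeries.X ^ n * (2 * (T * S) +
          PowerSeries.X ^ n * (S * S)) := by
        have h4 : p = T + PowerSeries.X ^ n * S := by rw [← hS]; ring
        rw [h4]
        ring
      have h5 := hC n
      rw [h3, map_add] at h5
      have h6 : PowerSeries.coeff n (PowerSeries.X ^ n * (2 * (T * S) +
          PowerSeries.X ^ n * (S * S))) =
          2 * PowerSeries.coeff 0 p * PowerSeries.coeff n p := by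
        have h7 := PowerSeries.coeff_X_pow_mul (2 * (T * S) +
          PowerSeries.X ^ n * (S * S)) n 0
        rw [zero_add] at h7
        rw [h7]
        have h8 : PowerSeries.coeff 0 (PowerSeries.X ^ n : PowerSeries ℂ) = 0 := by
          rw [PowerSeries.coeff_X_pow, if_neg hn.ne]
        simp only [PowerSeries.coeff_zero_eq_constantCoeff, map_add, map_mul, map_ofNat] at h8 hT0 hS0 ⊢
        rw [h8, hT0, hS0]
        ring
      rw [h6] at h5
      have h9 := K.sub_mem h5 (PsE_cmul K _ _ hT hT n)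
      rw [add_sub_cancel_left] at h9
      have h10 : (2 : ℂ) * PowerSeries.coeff 0 p ∈ K := K.mul_mem (ofNat_mem K 2) h0
      have h11 : PowerSeries.coeff n p = (2 * PowerSeries.coeff 0 p)⁻¹ *
          (2 * PowerSeries.coeff 0 p * PowerSeries.coeff n p) := by
        rw [inv_mul_cancel_left₀ (mul_ne_zero two_ne_zero hne)]
      rw [h11]
      exact K.mul_mem (K.inv_mem h10) h9

/-- A meromorphic square root of an analytic function is analytic. -/
private theorem PsE_mer (F E : ℂ → ℂ) (hF : MeromorphicAt F 0) (hE : AnalyticAt ℂ E 0)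
    (hE0 : E 0 ≠ 0) (h : ∀ᶠ u in 𝓝[≠] (0 : ℂ), F u ^ 2 = E u) :
    ∃ g : ℂ → ℂ, AnalyticAt ℂ g 0 ∧ g 0 ≠ 0 ∧ ∀ᶠ u in 𝓝[≠] (0 : ℂ), F u = g u := by
  have hcongr : (F ^ 2) =ᶠ[𝓝[≠] (0 : ℂ)] E := h
  have h1 : meromorphicOrderAt (F ^ 2) 0 = ((0 : ℤ) : WithTop ℤ) := by
    rw [meromorphicOrderAt_congr hcongr, meromorphicOrderAt_eq_int_iff hE.meromorphicAt]
    refine ⟨E, hE, hE0, Filter.Eventually.of_forall fun z => ?_⟩
    rw [zpow_zero, one_smul]
  rw [meromorphicOrderAt_pow hF] at h1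
  have h2 : meromorphicOrderAt F 0 = ((0 : ℤ) : WithTop ℤ) := by
    cases ho : meromorphicOrderAt F 0 with
    | top =>
      rw [ho] at h1
      exact absurd h1 (by decide)
    | coe n =>
      rw [ho] at h1
      have h3 : ((2 * n : ℤ) : WithTop ℤ) = ((0 : ℤ) : WithTop ℤ) := h1
      have h4 : 2 * n = 0 := WithTop.coe_injective h3
      have h5 : n = 0 := by omega
      rw [h5]
  obtain ⟨g, hg, hg0, hFg⟩ := (meromorphicOrderAt_eq_int_iff hF).1 h2
  refine ⟨g, hg, hg0, ?_⟩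
  filter_upwards [hFg] with z hz
  rw [hz, zpow_zero, one_smul]

private theorem PsE_twr {a b : Om} {u T W : PowerSeries Om}
    (h : _root_.DN.F4.TWr (io a) (io b) (PowerSeries.map io u) (PowerSeries.map io T)
      (PowerSeries.map io W)) : _root_.DN.F4.TWr a b u T W := by
  refine ⟨?_, ?_, ?_, ?_, ?_⟩
  · apply pmap_inj
    have := h.curve
    simp only [map_add, map_mul, map_pow, PowerSeries.map_C]
    exact this
  · apply pmap_inj
    have := h.diff
    rw [der_map, der_map, der_map] at this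
    simp only [map_sub, map_mul, map_add, map_ofNat, PowerSeries.map_C]
    exact this
  · have := h.T0
    rw [PowerSeries.coeff_map] at this
    exact io_inj (by rw [this, map_zero])
  · have := h.T1
    rw [PowerSeries.coeff_map, PowerSeries.coeff_map] at this
    exact io_inj this
  · have := h.W0
    rw [PowerSeries.coeff_map] at this
    exact io_inj (by rw [this, map_zero])

/-- The bound for the imaginary part. -/
private theorem PsE_bound {ε : ℝ} (hε : 0 < ε) : ∃ Y : ℝ, 0 ≤ Y ∧ ∀ z : ℂ, Y < z.im → ‖ex z‖ < ε := by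
  refine ⟨max 0 (-Real.log ε / (2 * Real.pi)), le_max_left _ _, fun z hz => ?_⟩
  have h1 : -Real.log ε / (2 * Real.pi) < z.im := lt_of_le_of_lt (le_max_right _ _) hz
  rw [div_lt_iff₀ (by positivity)] at h1
  rw [norm_ex, ← Real.exp_log hε, Real.exp_lt_exp]
  linarith

/-- **The expansion of `Ψ`.** -/
theorem tPsE (hKf : S_Kf) (hLead : S_Lead) (hB1 : S_B1) (hB7 : S_B7) (hR1 : S_R1) : S_PsE := by
  intro n t _ f m R hm hFR hRC σ hσ c hc N0 β hβ h1ne G hG
  -- the field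
  obtain ⟨kfin, -⟩ := (hKf n t f hm.odd hm.dvd).1 (2 * f) (Or.inr rfl)
  obtain ⟨l1, -⟩ := hLead n t f m R hm hFR hRC σ hσ N0 β hβ
  let S0 : Set Om := {a1O (⊤ : Ideal (OO n t)), a3O (⊤ : Ideal (OO n t)),
    xO (⊤ : Ideal (OO n t)) (toC (pO n t) / 2)}
  have : FiniteDimensional ℚ (IntermediateField.adjoin ℚ S0) :=
    IntermediateField.finiteDimensional_adjoin fun x _ => (Algebra.IsAlgebraic.isAlgebraic x).isIntegral
  obtain ⟨L, hLe⟩ : ∃ L : IntermediateField ℚ Om, L = Kf n t (2 * f) ⊔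
    ((Kf n t (2 * f)).map (c : Om →ₐ[ℚ] Om) ⊔ IntermediateField.adjoin ℚ S0) := ⟨_, rfl⟩
  have hLfd : FiniteDimensional ℚ L := by
    rw [hLe]
    infer_instance
  have hK2 : Kf n t (2 * f) ≤ L := by
    rw [hLe]
    exact le_sup_left
  have hK3 : (Kf n t (2 * f)).map (c : Om →ₐ[ℚ] Om) ≤ L := by
    rw [hLe]
    exact le_sup_left.trans le_sup_right
  have hK4 : ∀ x ∈ S0, x ∈ L := by
    intro x hx
    rw [hLe]
    exact (le_sup_right.trans le_sup_right : IntermediateField.adjoin ℚ S0 ≤ _)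
      (IntermediateField.subset_adjoin ℚ S0 hx)
  have hcL : ∀ j, cF f m R σ c N0 β j ∈ L := by
    intro j
    unfold cF
    exact add_mem (hK2 (l1 j)) (hK3 ⟨_, l1 j, rfl⟩)
  obtain ⟨hφ, Λ, hTW, hLat, hX⟩ := tLaF hB1 n t
  obtain ⟨uA, cA, zA, dA, tA, eA⟩ := tuC hLead hB7 n t f m R hm hFR hRC σ hσ c hc N0 β hβ h1ne L hcL
  obtain ⟨r1, r3, rx, -⟩ := (hR1.1 n t).1 ⊤ Eb.g15_top
  have hTor : Tor n t (toC (pO n t) / 2) := ⟨pO n t, 2, by norm_num, by norm_num⟩
  have rX := (rx _ hTor).1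
  have hCo0 : Pool.Agent.DI.F.S_Co := Pool.Agent.DI.F.tCo Pool.Agent.DI.F.tTay
  obtain ⟨hT1, _, _, hTmul, ⟨hTc, hTX⟩, _, hTcongr⟩ := Pool.Agent.DI.F.tTay
  obtain ⟨K, hK⟩ : ∃ K : Subfield ℂ, K = L.toSubfield.map io := ⟨_, rfl⟩
  rw [← hK] at cA
  obtain ⟨φ, hφe⟩ : ∃ φ, φ = fr (⊤ : Ideal (OO n t)) := ⟨_, rfl⟩
  obtain ⟨a1, ha1⟩ : ∃ a1, a1 = A1 (⊤ : Ideal (OO n t)) := ⟨_, rfl⟩
  obtain ⟨a3, ha3⟩ : ∃ a3, a3 = A3 (⊤ : Ideal (OO n t)) := ⟨_, rfl⟩
  obtain ⟨e1, he1⟩ : ∃ e1, e1 = XC (⊤ : Ideal (OO n t)) (toC (pO n t) / 2) := ⟨_, rfl⟩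
  rw [← hφe] at hφ hLat hX eA
  rw [← ha1] at hTW hX r1
  rw [← ha3] at hTW r3
  rw [← he1] at rX
  have ha1K : a1 ∈ K := by
    rw [hK]
    exact ⟨_, hK4 _ (by simp [S0]), r1⟩
  have ha3K : a3 ∈ K := by
    rw [hK]
    exact ⟨_, hK4 _ (by simp [S0]), r3⟩
  have he1K : e1 ∈ K := by
    rw [hK]
    exact ⟨_, hK4 _ (by simp [S0]), rX⟩
  obtain ⟨hc1, har, _, hinv, hcomp, hsl, hcg⟩ := hCo0 K
  obtain ⟨-, -, -, -, ⟨tt, ww, htt, hww, htt0, hww0, hTt, hWw⟩, hTWn⟩ :=
    tTWg Λ a1 a3 hTW K ha1K ha3K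
  obtain ⟨hTAk, hWAk, hrelA⟩ := tTWc Λ a1 a3 hTW K ha1K ha3K uA cA zA
  obtain ⟨hnA, htA⟩ := Pool.Agent.DI.F.F3coreAux.near uA K hCo0 cA zA dA
  obtain ⟨haC, ha0, haq⟩ := hsl uA cA zA
  have hA0 : dslope uA 0 0 ≠ 0 := by
    rw [ha0]
    exact dA
  -- (1) the function `F u = u G(u/(2 φ))`
  have hFm : MeromorphicAt (fun u : ℂ => u * G (u / (2 * φ))) 0 := by
    have h1 : AnalyticAt ℂ (fun u : ℂ => u / (2 * φ)) 0 := analyticAt_id.div_const
    have h2 : MeromorphicAt (fun u : ℂ => G (u / (2 * φ))) 0 := (hG.mer _).comp_analyticAt h1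
    exact analyticAt_id.meromorphicAt.mul h2
  have cE : Co K (fun u : ℂ => tt u * (ww u)⁻¹ - e1 * (u * u)) :=
    (har _ _ ((har _ _ htt (hinv _ hww (by rw [hww0]; exact one_ne_zero))).2.1)
      ((har _ _ (hc1.1 e1 he1K) ((har _ _ hc1.2 hc1.2).2.1)).2.1)).2.2.1
  have hE0 : tt 0 * (ww 0)⁻¹ - e1 * (0 * 0) = 1 := by
    rw [htt0, hww0]
    norm_num
  have hwne : ∀ᶠ u in 𝓝 (0 : ℂ), ww u ≠ 0 :=
    hww.1.continuousAt.eventually_ne (by rw [hww0]; exact one_ne_zero)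
  have hsq : ∀ᶠ u in 𝓝[≠] (0 : ℂ), (u * G (u / (2 * φ))) ^ 2 = tt u * (ww u)⁻¹ - e1 * (u * u) := by
    filter_upwards [hTWn, self_mem_nhdsWithin, hwne.filter_mono nhdsWithin_le_nhds]
      with u hu hu0 hwu
    obtain ⟨h1, h2, h3⟩ := hu
    have hu0' : u ≠ 0 := hu0
    have h5 : 2 * (u / (2 * φ)) = u / φ := by
      field_simp
    have h6 : 2 * (u / (2 * φ)) ∉ Lam (⊤ : Ideal (OO n t)) := by
      rw [h5, hLat, mul_div_cancel₀ _ hφ]
      exact h1
    rw [mul_pow, hG.sq _ h6, h5, ← he1, hX, mul_div_cancel₀ _ hφ, h3, hTt, hWw]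
    field_simp
  obtain ⟨g, hga, hg0, hFg⟩ := PsE_mer _ _ hFm cE.1 (by
    rw [hE0]
    exact one_ne_zero) hsq
  -- `g ^ 2 = E` near `0`
  have hg2 : ∀ᶠ u in 𝓝 (0 : ℂ), g u * g u = tt u * (ww u)⁻¹ - e1 * (u * u) := by
    have h1 : (fun u => g u * g u) =ᶠ[𝓝[≠] (0 : ℂ)] fun u => tt u * (ww u)⁻¹ - e1 * (u * u) := by
      filter_upwards [hFg, hsq] with u h1 h2
      rw [← h1, ← h2]
      ring
    exact (ContinuousAt.eventuallyEq_nhds_iff_eventuallyEq_nhdsNE (hga.mul hga).continuousAt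
      cE.1.continuousAt).1 h1
  have hg01 : g 0 = 1 ∨ g 0 = -1 := by
    have h1 := hg2.self_of_nhds
    rw [hE0] at h1
    exact mul_self_eq_one_iff.1 h1
  -- (2) the function `h`
  have agA : AnalyticAt ℂ (fun q => g (uA q)) 0 := hga.fun_comp_of_eq cA.1 zA
  have ah : AnalyticAt ℂ (fun q => g (uA q) * (dslope uA 0 q)⁻¹) 0 :=
    agA.mul (haC.1.fun_inv hA0)
  obtain ⟨h, hh⟩ : ∃ h : ℂ → ℂ, h = fun q => g (uA q) * (dslope uA 0 q)⁻¹ := ⟨_, rfl⟩
  rw [← hh] at ah
  have hdK : dslope uA 0 0 ∈ K := by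
    have h1 := haC.2 0
    rwa [Pool.Agent.DI.F.F3coreAux.coeff_zero_tay] at h1
  have hh0K : h 0 ∈ K := by
    rw [hh]
    simp only [zA]
    refine K.mul_mem ?_ (K.inv_mem hdK)
    rcases hg01 with h1 | h1
    · rw [h1]
      exact K.one_mem
    · rw [h1]
      exact K.neg_mem K.one_mem
  have hh0 : h 0 ≠ 0 := by
    rw [hh]
    simp only [zA]
    exact mul_ne_zero hg0 (inv_ne_zero hA0)
  have hhq : ∀ᶠ q in 𝓝[≠] (0 : ℂ), h q = q * G (uA q / (2 * φ)) := by
    filter_upwards [hnA, htA.eventually hFg] with q h1 h2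
    rw [hh]
    simp only
    rw [← h2]
    have h3 := haq q
    obtain ⟨b1, b2, b3⟩ := h1
    generalize dslope uA 0 q = d at b2 h3
    rw [h3]
    field_simp
  -- (3) the square of `h`
  have hcA : Tendsto uA (𝓝 0) (𝓝 0) := by
    have h1 := cA.1.continuousAt
    rw [ContinuousAt, zA] at h1
    exact h1
  have hgA2 := hcA.eventually hg2
  have hdn : ∀ᶠ q in 𝓝 (0 : ℂ), dslope uA 0 q ≠ 0 := haC.1.continuousAt.eventually_ne hA0
  have hwn : ∀ᶠ q in 𝓝 (0 : ℂ), ww (uA q) ≠ 0 := hcA.eventually hwne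
  have hev : (fun q => h q * h q) =ᶠ[𝓝 0]
      (fun q => (tt (uA q) * (ww (uA q))⁻¹ - e1 * (uA q * uA q)) *
        (dslope uA 0 q * dslope uA 0 q)⁻¹) := by
    filter_upwards [hgA2, hdn] with q h1 h2
    rw [hh]
    simp only
    rw [← h1]
    field_simp
  have hDD := (har _ _ haC haC).2.1
  have cH : Co K (fun q => (tt (uA q) * (ww (uA q))⁻¹ - e1 * (uA q * uA q)) *
        (dslope uA 0 q * dslope uA 0 q)⁻¹) :=
    (har _ _ (hcomp _ _ cE cA zA) (hinv _ hDD (mul_ne_zero hA0 hA0))).2.1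
  have htay2 : tay (fun q => h q * h q) = tay h ^ 2 := by
    rw [hTmul h h ah ah]
    ring
  have hCf2 : Cf K (tay h ^ 2) := by
    rw [← htay2, hTcongr _ _ hev]
    exact cH.2
  have hc0 : PowerSeries.coeff 0 (tay h) = h 0 := Pool.Agent.DI.F.F3coreAux.coeff_zero_tay h
  have hCfh : Cf K (tay h) := by
    refine PsE_sq K _ ?_ ?_ hCf2
    · rw [hc0]
      exact hh0K
    · rw [hc0]
      exact hh0
  -- the relation with `T`, `W`
  have hrelH : tay h ^ 2 * tay (fun q => Wg Λ a1 a3 (uA q)) =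
      PowerSeries.X ^ 2 * (tay (fun q => Tg Λ a1 a3 (uA q)) -
        PowerSeries.C e1 * tay (fun q => Wg Λ a1 a3 (uA q))) := by
    have h1 : (fun q => h q * h q * Wg Λ a1 a3 (uA q)) =ᶠ[𝓝 0]
        (fun q => (q * q) * (Tg Λ a1 a3 (uA q) + (-e1) * Wg Λ a1 a3 (uA q))) := by
      filter_upwards [hev, hwn, hdn] with q h1 h2 h3
      rw [h1, hWw (uA q), hTt (uA q)]
      have h4 := haq q
      generalize dslope uA 0 q = d at h3 h4
      generalize tt (uA q) = t'
      generalize ww (uA q) = w' at h2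
      rw [h4]
      field_simp
      ring
    have h2 := hTcongr _ _ h1
    have aq : AnalyticAt ℂ (fun q : ℂ => q) 0 := analyticAt_id
    have ac : AnalyticAt ℂ (fun _ : ℂ => (-e1 : ℂ)) 0 := analyticAt_const
    have e2 := hTmul (fun q => h q * h q) (fun q => Wg Λ a1 a3 (uA q)) (ah.mul ah) hWAk.1
    have e3 := hTmul (fun q => q * q) (fun q => Tg Λ a1 a3 (uA q) + (-e1) * Wg Λ a1 a3 (uA q))
      (aq.mul aq) (hTAk.1.add (ac.mul hWAk.1))
    have e4 := Pool.Agent.DI.F.tTay.2.2.1 (fun q => Tg Λ a1 a3 (uA q))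
      (fun q => (-e1) * Wg Λ a1 a3 (uA q)) hTAk.1 (ac.mul hWAk.1)
    have e5 := hTmul (fun _ => (-e1 : ℂ)) (fun q => Wg Λ a1 a3 (uA q)) ac hWAk.1
    have e6 := hTmul (fun q => q) (fun q => q) aq aq
    rw [hTc] at e5
    rw [hTX] at e6
    rw [e2, htay2, e3, e4, e5, e6] at h2
    rw [h2, map_neg]
    ring
  -- (5) the lift
  rw [hK] at hTAk hWAk hCfh
  obtain ⟨T', -, hT'⟩ := lift L _ hTAk.2
  obtain ⟨W', -, hW'⟩ := lift L _ hWAk.2
  obtain ⟨H', lH, hH'⟩ := lift L _ hCfh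
  rw [← hT', ← hW', tA, ← r1, ← r3] at hrelA
  rw [← hW', ← hH', ← hT', ← rX] at hrelH
  rw [eventually_nhdsWithin_iff, Metric.eventually_nhds_iff] at hhq
  obtain ⟨ε, hε, hhq⟩ := hhq
  have hser := hT1 h ah
  rw [Metric.eventually_nhds_iff] at hser
  obtain ⟨ε', hε', hser⟩ := hser
  obtain ⟨Y, hY0, hYb⟩ := PsE_bound hε
  obtain ⟨Y', hY0', hYb'⟩ := PsE_bound hε'
  refine ⟨T', W', H', max Y Y', 1, L, hLfd, lH, PsE_twr hrelA, ?_, ?_⟩
  · apply pmap_inj
    simp only [map_mul, map_pow, map_sub, PowerSeries.map_X, PowerSeries.map_C]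
    exact hrelH
  · intro z hz
    have hz0 : 0 < z.im := lt_of_le_of_lt (hY0.trans (le_max_left _ _)) hz
    have h1 := hhq (y := ex z) (by
      rw [dist_zero_right]
      exact hYb z (lt_of_le_of_lt (le_max_left _ _) hz)) (ex_ne z)
    have h2 := hser (y := ex z) (by
      rw [dist_zero_right]
      exact hYb' z (lt_of_le_of_lt (le_max_right _ _) hz))
    rw [← hH'] at h2
    simp only [PowerSeries.coeff_map] at h2
    have h3 : h (ex z) = ex z ^ 1 * PsF G f m R σ N0 β z := by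
      rw [h1, eA z hz0, pow_one]
      unfold PsF
      congr 2
      field_simp
    rwa [h3] at h2

end Pool.Agent.DR.F
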