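import Pool.Agent.Lib.DR.F.SpecG

/-!
# Theorem DR, part F, module `PsG`: the function `Ψ = G(C/2)`, `C(z) = A(z) + conj A(- conj z)`
-/

set_option autoImplicit false
set_option linter.unusedSectionVars false

open scoped Pointwise Topology MatrixGroups
open Filter

noncomputable section

namespace Pool.Agent.DR.F

open Pool.Agent.MuZ Pool.Agent.FW NumberField IsDedekindDomain Pool.Agent.DN Pool.Agent.DN.F
open Pool.Agent.DI (io ofC io_inj exists_io io_ofC ofC_io VP MP UP TP ex)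

namespace PsGAux

theorem an_conj {f : ℂ → ℂ} {x : ℂ} (hf : AnalyticAt ℂ f ((starRingEnd ℂ) x)) :
    AnalyticAt ℂ (fun z => (starRingEnd ℂ) (f ((starRingEnd ℂ) z))) x := by
  rw [Complex.analyticAt_iff_eventually_differentiableAt] at hf ⊢
  have hc : Tendsto (fun z : ℂ => (starRingEnd ℂ) z) (𝓝 x) (𝓝 ((starRingEnd ℂ) x)) :=
    Complex.continuous_conj.tendsto x
  filter_upwards [hc.eventually hf] with z hz
  have h := hz.conj_conj
  rw [Complex.conj_conj] at h
  exact h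

theorem im_nc (z : ℂ) : (-(starRingEnd ℂ) z).im = z.im := by simp

/-- `A` is analytic. -/
theorem an (hC7 : S_C7) {n t : ℕ} [Rmf n t] {f : ℕ} {m : Ideal (OO n t)}
    {R : Finset (Ideal (OO n t))} (hm : FM f m) (hR : FR f R) (σ : Ideal (OO n t) → Gal(Om/ℚ)) (N0 : ℕ)
    (β : Om) (z : ℂ) (hz : 0 < z.im) : AnalyticAt ℂ (AF f m R σ N0 β) z := by
  have hopen : {z : ℂ | 0 < z.im} ∈ 𝓝 z :=
    (isOpen_lt continuous_const Complex.continuous_im).mem_nhds hz
  have h1 : ∀ b ∈ R, AnalyticAt ℂ (fun z => io (σ b β) * ThM (2 * f) m b z) z := fun b hb =>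
    analyticAt_const.mul ((hC7 n t f m b hm (hR b hb)).1.analyticAt hopen)
  have h2 : AnalyticAt ℂ (fun z => ∑ b ∈ R, io (σ b β) * ThM (2 * f) m b z) z :=
    Finset.analyticAt_fun_sum R h1
  exact analyticAt_const.mul h2

/-- `C` is analytic. -/
theorem anC (hC7 : S_C7) {n t : ℕ} [Rmf n t] {f : ℕ} {m : Ideal (OO n t)}
    {R : Finset (Ideal (OO n t))} (hm : FM f m) (hR : FR f R) (σ : Ideal (OO n t) → Gal(Om/ℚ)) (N0 : ℕ)
    (β : Om) (z : ℂ) (hz : 0 < z.im) : AnalyticAt ℂ (CF f m R σ N0 β) z := by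
  have h1 : AnalyticAt ℂ (AF f m R σ N0 β) (-(starRingEnd ℂ) z) :=
    an hC7 hm hR σ N0 β _ (by rw [im_nc]; exact hz)
  have h2 : AnalyticAt ℂ (fun u => AF f m R σ N0 β (-u)) ((starRingEnd ℂ) z) :=
    AnalyticAt.comp (f := fun u : ℂ => -u) (g := AF f m R σ N0 β) h1 (by fun_prop)
  exact (an hC7 hm hR σ N0 β z hz).add (an_conj h2)

theorem ex_div (z M : ℂ) : ex (z / M) = Complex.exp (2 * Real.pi * Complex.I * z / M) := by
  unfold ex
  congr 1
  ring

theorem conj_ex (z : ℂ) : (starRingEnd ℂ) (ex z) = ex (-(starRingEnd ℂ) z) := by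
  unfold ex
  rw [← Complex.exp_conj]
  congr 1
  simp only [map_mul, Complex.conj_I, Complex.conj_ofReal, map_ofNat]
  ring

/-- The elements of `pp` are `2 x` or `pO + 2 x`. -/
theorem pp_cases (hO4 : S_O4) {n t : ℕ} [Rmf n t] {v : OO n t} (h : v ∈ pp n t) :
    ∃ x : OO n t, v = 2 * x ∨ v = pO n t + 2 * x := by
  obtain ⟨-, -, -, -, -, -, -, -, h9, -⟩ := hO4 n t
  rcases (h9 v).1 h with ⟨x, hx⟩ | ⟨x, hx⟩
  · exact ⟨x, Or.inl hx⟩
  · exact ⟨x, Or.inr (by rw [← hx]; ring)⟩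

/-- `α + conj α'` is in `pp`. -/
theorem trace_mod (hO4 : S_O4) {n t : ℕ} [Rmf n t] {α α' : OO n t} (h : α + α' ∈ pp n t) :
    α + cjO α' ∈ pp n t := by
  obtain ⟨-, -, -, -, -, -, -, -, h9, -, -, -, h13, -⟩ := hO4 n t
  have h1 : α' - cjO α' ∈ pp n t := (h9 _).2 (Or.inl (h13 α'))
  have e : α + cjO α' = (α + α') - (α' - cjO α') := by ring
  rw [e]
  exact Ideal.sub_mem _ h h1

/-- The elements of `pp`, divided by two, are periods. -/
theorem per_half (hO4 : S_O4) {n t : ℕ} [Rmf n t] {G : ℂ → ℂ} (hG : IsGF n t G) {v : OO n t}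
    (h : v ∈ pp n t) (z : ℂ) : G (z + toC v / 2) = G z := by
  obtain ⟨x, rfl | rfl⟩ := pp_cases hO4 h
  · have e : z + toC (2 * x) / 2 = z + toC x := by
      rw [toC_mul, toC_two]
      ring
    rw [e, hG.per]
  · have e : z + toC (pO n t + 2 * x) / 2 = (z + toC (pO n t) / 2) + toC x := by
      rw [toC_add, toC_mul, toC_two]
      ring
    rw [e, hG.per, hG.half]

end PsGAux

open PsGAux in
theorem tPsG (hO4 : S_O4) (hC7 : S_C7) (hCus : S_Cus) : S_PsG := by
  intro n t _ f M m R hm hR hlv σ N0 β G hG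
  refine ⟨fun z hz => ?_, fun z z' hz hz' α α' hpar h1 h2 => ?_, fun γ => ?_⟩
  · have g1 : AnalyticAt ℂ (fun z => CF f m R σ N0 β z / 2) z :=
      (anC hC7 hm hR σ N0 β z hz).div_const
    exact (hG.mer _).comp_analyticAt g1
  · have hx := trace_mod hO4 hpar
    have hC : CF f m R σ N0 β z' = CF f m R σ N0 β z + toC (α + cjO α') := by
      unfold CF
      rw [h1, h2, map_add, conj_toC, toC_add]
      ring
    unfold PsF
    rw [hC, add_div]
    exact per_half hO4 hG hx _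
  · have hdet : γ 0 0 * γ 1 1 - γ 0 1 * γ 1 0 = 1 := by
      have h := γ.det_coe
      rw [Matrix.det_fin_two] at h
      exact h
    obtain ⟨al, hal, hal2⟩ := hCus n t f M m R hm hR hlv σ N0 β (γ 0 0) (γ 0 1) (γ 1 0) (γ 1 1) hdet
    obtain ⟨al', hal', hal2'⟩ := hCus n t f M m R hm hR hlv σ N0 β (γ 0 0) (-(γ 0 1)) (-(γ 1 0)) (γ 1 1)
      (by rw [neg_mul_neg]; exact hdet)
    refine ⟨fun s => G ((al s + (starRingEnd ℂ) (al' ((starRingEnd ℂ) s))) / 2), 0, ?_,
      fun z hz => ?_⟩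
    · have g2 : AnalyticAt ℂ al' ((starRingEnd ℂ) 0) := by
        rw [map_zero]
        exact hal'
      exact (hG.mer _).comp_analyticAt ((hal.add (an_conj g2)).div_const)
    · have hz' : 0 < (z : ℂ).im := hz
      have hγ : ((γ • z : UpperHalfPlane) : ℂ) =
          ((γ 0 0 : ℤ) * (z : ℂ) + (γ 0 1 : ℤ)) / ((γ 1 0 : ℤ) * (z : ℂ) + (γ 1 1 : ℤ)) := by
        rw [UpperHalfPlane.specialLinearGroup_apply]
        simp
      have hγ' : -(starRingEnd ℂ) ((γ • z : UpperHalfPlane) : ℂ) =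
          ((γ 0 0 : ℤ) * (-(starRingEnd ℂ) (z : ℂ)) + (-(γ 0 1) : ℤ)) /
            ((-(γ 1 0) : ℤ) * (-(starRingEnd ℂ) (z : ℂ)) + (γ 1 1 : ℤ)) := by
        rw [hγ]
        simp only [map_div₀, map_add, map_mul, map_intCast]
        push_cast
        rw [← neg_div]
        congr 1 <;> ring
      have h9 : (starRingEnd ℂ) (ex ((z : ℂ) / (32 * M : ℕ))) =
          ex (-(starRingEnd ℂ) (z : ℂ) / (32 * M : ℕ)) := by
        rw [conj_ex]
        congr 1
        simp only [map_div₀, map_natCast]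
        ring
      unfold PsF CF
      rw [hγ', hγ, hal2 _ hz', hal2' _ (by rw [im_nc]; exact hz'), ← h9, ex_div]

end Pool.Agent.DR.F
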