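import Pool.Agent.Lib.DR.F.SpecA

/-!
# Theorem DR, part F, module Sm: the sums with `χ`
-/

set_option autoImplicit false

open scoped Pointwise

noncomputable section

namespace Pool.Agent.DR.FA

open Pool.Agent.MuZ Pool.Agent.FW NumberField IsDedekindDomain Pool.Agent.DN Pool.Agent.DN.FA
open Pool.Agent.DI (io ofC io_inj exists_io io_ofC ofC_io VP MP UP TP ex)

theorem tSm (hYE : S_YE) : S_Sm := by
  intro n t _ f M m R hm hFR hRC hlv χ σ hσ r d1
  have d2 : (-r).den.Coprime M := by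
    rw [Rat.neg_den]
    exact d1
  have d0 : (0 : ℚ).den.Coprime M := by
    rw [Rat.den_zero]
    exact Nat.coprime_one_left M
  obtain ⟨-, -, s1⟩ := hYE n t f M m R hm hFR hlv _ d1
  obtain ⟨-, -, s2⟩ := hYE n t f M m R hm hFR hlv _ d2
  obtain ⟨-, -, s0⟩ := hYE n t f M m R hm hFR hlv _ d0
  unfold xs
  rw [Finset.mul_sum, Finset.mul_sum, ← Finset.sum_sub_distrib]
  refine Finset.sum_congr rfl fun b' hb' => ?_
  have hb := hFR b' hb'
  have hs := hσ.mem b' hb
  have hp := hσ.psi b' hb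
  unfold wg
  rw [map_sub, map_add, map_mul, map_ofNat, s1 _ hs b' hp, s2 _ hs b' hp, s0 _ hs b' hp, neg_zero]
  unfold yE
  ring

end Pool.Agent.DR.FA
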