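import Pool.Agent.Lib.DR.F.SpecA

/-!
# Theorem DR, part F, module Tm: the classes modulo `2 f` in a class modulo `f`
-/

set_option autoImplicit false

open scoped Pointwise

noncomputable section

namespace Pool.Agent.DR.FA

open Pool.Agent.MuZ Pool.Agent.FW NumberField IsDedekindDomain Pool.Agent.DN Pool.Agent.DN.FA

/-- Divisible by `f` (odd) and by `2`. -/
private theorem Tm_dvd {n t f : ℕ} (hf : Odd f) {x : OO n t} (h : (f : OO n t) ∣ x)
    (h2 : (2 : OO n t) ∣ x) : ((2 * f : ℕ) : OO n t) ∣ x := by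
  obtain ⟨j, hj⟩ := hf
  obtain ⟨u, hu⟩ := h
  obtain ⟨v, hv⟩ := h2
  refine ⟨v - j * u, ?_⟩
  have hj' : (f : OO n t) = 2 * j + 1 := by
    rw [hj]
    push_cast
    ring
  rw [hj'] at hu
  push_cast
  rw [hj']
  linear_combination (2 * (j : OO n t) + 1) * hv - 2 * (j : OO n t) * hu

/-- the second element -/
private def ta (n t f : ℕ) : OO n t := ⟨1 - f * (n % 2 : ℕ), f⟩

private theorem Tm_a {n t : ℕ} (f : ℕ) :
    ta n t f = 1 + (f : OO n t) * (pO n t - 2 * ((n % 2 : ℕ) : OO n t)) := by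
  have e1 : (1 : OO n t).re = 1 := rfl
  have e2 : (1 : OO n t).im = 0 := rfl
  have e3 : (2 : OO n t) * ((n % 2 : ℕ) : OO n t) = ((2 * (n % 2) : ℕ) : OO n t) := by push_cast; ring
  rw [e3]
  apply ext'
  · rw [QuadraticAlgebra.re_add, re_mul, re_nat, im_nat, QuadraticAlgebra.re_sub, re_nat, e1]
    unfold ta pO
    push_cast
    ring
  · rw [QuadraticAlgebra.im_add, im_mul, re_nat, im_nat, QuadraticAlgebra.im_sub, im_nat, e2]
    unfold ta pO
    push_cast
    ring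

private theorem Tm_mem {n t f : ℕ} {α : OO n t} : α ∈ tm2 n t f ↔ α = 1 ∨ α = ta n t f := by
  classical
  unfold tm2 ta
  simp only [Finset.mem_insert, Finset.mem_singleton]

private theorem Tm_ne {n t N : ℕ} (hN : 1 < N) {α : OO n t} (h : Cop α N) : α ≠ 0 := by
  rintro rfl
  unfold Cop at h
  rw [Nm_zero] at h
  have h1 := isCoprime_zero_left.1 h
  rw [Int.isUnit_iff] at h1
  omega

private theorem Tm_f {n t f : ℕ} {α : OO n t} (h : α ∈ tm2 n t f) : (f : OO n t) ∣ α - 1 := by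
  rcases Tm_mem.1 h with rfl | rfl
  · rw [sub_self]
    exact dvd_zero _
  · rw [Tm_a]
    exact ⟨pO n t - 2 * ((n % 2 : ℕ) : OO n t), by ring⟩

private theorem Tm_two (hO4 : S_O4) {n t f : ℕ} [Rmf n t] (hf : Odd f) {α : OO n t}
    (h : α ∈ tm2 n t f) : Cop α 2 := by
  obtain ⟨j, hj⟩ := hf
  obtain ⟨-, -, -, -, -, -, -, -, -, -, h11, -⟩ := hO4 n t
  refine (h11 α).2 ?_
  rcases Tm_mem.1 h with rfl | rfl
  · left
    rw [sub_self]
    exact dvd_zero _
  · right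
    rw [Tm_a, hj]
    refine ⟨j * pO n t - (2 * j + 1) * ((n % 2 : ℕ) : OO n t), ?_⟩
    push_cast
    ring

/-- Every `v`, `1` modulo `f` and prime to `2`, is congruent modulo `2 f` to an element of `tm`. -/
private theorem Tm_key (hO4 : S_O4) {n t f : ℕ} [Rmf n t] (hf : Odd f) {v : OO n t}
    (h : (f : OO n t) ∣ v - 1) (h2 : Cop v 2) : ∃ α ∈ tm2 n t f, ((2 * f : ℕ) : OO n t) ∣ v - α := by
  obtain ⟨j, hj⟩ := id hf
  have hj' : (f : OO n t) = 2 * j + 1 := by
    rw [hj]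
    push_cast
    ring
  obtain ⟨-, -, -, -, -, -, -, -, -, -, h11, -⟩ := hO4 n t
  rcases (h11 v).1 h2 with h3 | h3
  · exact ⟨1, Tm_mem.2 (Or.inl rfl), Tm_dvd hf h h3⟩
  · refine ⟨ta n t f, Tm_mem.2 (Or.inr rfl), Tm_dvd hf ?_ ?_⟩
    · have e : v - ta n t f = (v - 1) - (f : OO n t) * (pO n t - 2 * ((n % 2 : ℕ) : OO n t)) := by
        rw [Tm_a]
        ring
      rw [e]
      exact dvd_sub h (Dvd.intro _ rfl)
    · have e : v - ta n t f = (v - (1 + pO n t)) - 2 * (j * pO n t -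
          (2 * j + 1) * ((n % 2 : ℕ) : OO n t)) := by
        rw [Tm_a, hj']
        ring
      rw [e]
      exact dvd_sub h3 (Dvd.intro _ rfl)

/-- The elements of `tm2` are different modulo `2 f`. -/
private theorem Tm_uni {n t f : ℕ} [Rmf n t] (hf : Odd f) {α α' : OO n t} (h : α ∈ tm2 n t f)
    (h' : α' ∈ tm2 n t f) (h2 : ((2 * f : ℕ) : OO n t) ∣ α - α') : α = α' := by
  obtain ⟨j, hj⟩ := hf
  have h3 : ((2 : ℕ) : OO n t) ∣ α - α' := by
    refine dvd_trans ⟨f, ?_⟩ h2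
    push_cast
    rfl
  obtain ⟨-, h5⟩ := (nat_dvd_iff 2 (α - α')).1 h3
  have h7 : (2 : ℤ) ∣ α.im - α'.im := by exact_mod_cast h5
  have e2 : (1 : OO n t).im = 0 := rfl
  have e3 : (ta n t f).im = f := rfl
  rcases Tm_mem.1 h with rfl | rfl <;> rcases Tm_mem.1 h' with rfl | rfl
  · rfl
  · rw [e2, e3] at h7
    omega
  · rw [e2, e3] at h7
    omega
  · rfl

/-- The classes modulo `2 f` in the class of `b'` modulo `f`. -/
private theorem Tm_ray (hO4 : S_O4) (hOd : S_Od) {n t f : ℕ} [Rmf n t] (hf : Odd f) (h15 : 15 ∣ f)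
    {b b' : Ideal (OO n t)} (hb : FB f b) (hb' : FB f b') (h : Ray f b b') :
    ∃ α ∈ tm2 n t f, Ray (2 * f) b (sp α * b') := by
  have hf1 : 1 < 2 * f := by
    obtain ⟨j, hj⟩ := h15
    obtain ⟨i, hi⟩ := hf
    omega
  obtain ⟨α, α', h1, h2, h3, h4, h5, h6, h7⟩ := hOd n t f hf h15 b b' hb hb' h
  have c1 : Cop α (2 * f) := cop_of h5 h3
  obtain ⟨γ, c2, h8⟩ := cop_inv c1
  have h8f : (f : OO n t) ∣ α * γ - 1 := by
    refine dvd_trans ⟨2, ?_⟩ h8
    push_cast
    ring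
  have c2' : Cop γ 2 := cop_dvd c2 (Dvd.intro _ rfl)
  have h9 : (f : OO n t) ∣ γ * α' - 1 := by
    have e : γ * α' - 1 = (α * γ - 1) - γ * ((α - 1) - (α' - 1)) := by ring
    rw [e]
    exact dvd_sub h8f (dvd_mul_of_dvd_right (dvd_sub h5 h6) _)
  have c3 : Cop (γ * α') 2 := cop_mul c2' h4
  obtain ⟨β, hβ, h10⟩ := Tm_key hO4 hf h9 c3
  have c4 : Cop β (2 * f) := cop_of (Tm_f hβ) (Tm_two hO4 hf hβ)
  have c5 : Cop (γ * α') (2 * f) := cop_of h9 c3
  have c6 : Cop (β * (γ * α)) (2 * f) := cop_mul c4 (cop_mul c2 c1)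
  refine ⟨β, hβ, β * (γ * α), γ * α', Tm_ne hf1 c6, Tm_ne hf1 c5, c6, c5, ?_, ?_⟩
  · have e : β * (γ * α) - γ * α' = β * (α * γ - 1) - (γ * α' - β) := by ring
    rw [e]
    exact dvd_sub (dvd_mul_of_dvd_right h8 _) h10
  · rw [sp_mul β, sp_mul γ α, sp_mul γ α', mul_assoc, mul_assoc, h7]
    ring

private theorem Tm_spray {n t N : ℕ} (hN : 1 < N) {v u : OO n t} (hv : Cop v N) (hu : Cop u N)
    (h : (N : OO n t) ∣ v - u) : Ray N (sp v) (sp u) := by
  refine ⟨u, v, Tm_ne hN hu, Tm_ne hN hv, hu, hv, ?_, mul_comm _ _⟩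
  have e : u - v = -(v - u) := by ring
  rw [e]
  exact (dvd_neg).2 h

theorem tTm (hO4 : S_O4) (hOd : S_Od) : S_Tm := by
  classical
  intro n t _ f hf h15
  have hf1 : 1 < 2 * f := by
    obtain ⟨j, hj⟩ := h15
    obtain ⟨i, hi⟩ := hf
    omega
  have hf3 : 3 ≤ f := by
    obtain ⟨j, hj⟩ := h15
    obtain ⟨i, hi⟩ := hf
    omega
  have hN : 0 < 2 * f := two_f hf
  have hf0 : 0 < f := f_pos hf
  have hcop : ∀ α ∈ tm2 n t f, Cop α (2 * f) := fun α hα => cop_of (Tm_f hα) (Tm_two hO4 hf hα)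
  have hfb : ∀ α ∈ tm2 n t f, ∀ b : Ideal (OO n t), FB f b → FB f (sp α * b) := fun α hα b hb =>
    fb_mul (fb_sp hf (hcop α hα)) hb
  refine ⟨fun α hα => ⟨Tm_ne hf1 (hcop α hα), Tm_f hα, Tm_two hO4 hf hα, hcop α hα⟩, ?_, ?_⟩
  · intro A _ F hF
    refine ⟨?_, ?_⟩
    · intro R R2 hR hFR hR2
      have hrep : ∀ x : Ideal (OO n t), FB f x → ∃ y, y ∈ R2 ∧ Ray (2 * f) x y := fun x hx => by
        obtain ⟨y, h1, h2⟩ := hR2.ex x hx.ne hx.cop
        exact ⟨y, h1, h2⟩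
      choose! rep hr1 hr2 using hrep
      have hFB2 : ∀ b ∈ R2, FB f b := fun b hb => ⟨(hR2.mem b hb).1, (hR2.mem b hb).2⟩
      have hrayα : ∀ α ∈ tm2 n t f, ∀ b : Ideal (OO n t), Ray f (sp α * b) b := by
        intro α hα b
        have h1 : Ray f (sp α) ⊤ := by
          have hne : α ≠ 0 := Tm_ne hf1 (hcop α hα)
          refine ray_of (α := 1) (α' := α) one_ne_zero hne ?_ (Tm_f hα) ?_
          · rw [sub_self]
            exact dvd_zero _
          · rw [sp_one, Ideal.top_mul, Ideal.mul_top]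
        have h2 := ray_mul hf0 h1 (ray_refl hf0 b)
        rwa [Ideal.top_mul] at h2
      symm
      rw [← Finset.sum_product']
      refine Finset.sum_bij (fun x _ => rep (sp x.2 * x.1)) ?_ ?_ ?_ ?_
      · rintro ⟨b, α⟩ hx
        obtain ⟨hb, hα⟩ := Finset.mem_product.1 hx
        exact hr1 _ (hfb α hα b (hFR b hb))
      · rintro ⟨b, α⟩ hx ⟨b', α'⟩ hx' h
        obtain ⟨hb, hα⟩ := Finset.mem_product.1 hx
        obtain ⟨hb', hα'⟩ := Finset.mem_product.1 hx'
        change rep (sp α * b) = rep (sp α' * b') at h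
        have h1 := hr2 _ (hfb α hα b (hFR b hb))
        have h2 := hr2 _ (hfb α' hα' b' (hFR b' hb'))
        rw [h] at h1
        have h3 : Ray (2 * f) (sp α * b) (sp α' * b') := ray_trans hN h1 (ray_symm hN h2)
        have h4 : Ray f b b' := ray_trans hf0 (ray_symm hf0 (hrayα α hα b))
          (ray_trans hf0 (ray_f hf h3) (hrayα α' hα' b'))
        have h5 : b = b' := hR.uni b hb b' hb' h4
        subst h5
        have h6 := ray_cancel hN (hFR b hb).ne (hFR b hb).cop h3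
        have h7 := (aO10 n t).2.2.1 (2 * f) f α α' hN (Dvd.intro_left 2 rfl) hf3
          (Tm_ne hf1 (hcop α hα)) (Tm_ne hf1 (hcop α' hα')) (hcop α hα) (hcop α' hα')
          (Tm_f hα) (Tm_f hα') h6
        exact Prod.ext rfl (Tm_uni hf hα hα' h7)
      · intro b hb
        obtain ⟨b', hb', h1⟩ := hR.ex b (hFB2 b hb).ne (fb_f (hFB2 b hb))
        obtain ⟨α, hα, h2⟩ := Tm_ray hO4 hOd hf h15 (hFB2 b hb) (hFR b' hb') h1
        refine ⟨(b', α), Finset.mem_product.2 ⟨hb', hα⟩, ?_⟩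
        have h3 := hfb α hα b' (hFR b' hb')
        exact (hR2.uni b hb _ (hr1 _ h3) (ray_trans hN h2 (hr2 _ h3))).symm
      · rintro ⟨b, α⟩ hx
        obtain ⟨hb, hα⟩ := Finset.mem_product.1 hx
        have h3 := hfb α hα b (hFR b hb)
        exact hF _ _ h3 (hFB2 _ (hr1 _ h3)) (hr2 _ h3)
    · intro b b' hb hb' h
      obtain ⟨β, hβ, h1⟩ := Tm_ray hO4 hOd hf h15 hb hb' h
      have hm : ∀ α, α ∈ tm2 n t f → ∃ α', α' ∈ tm2 n t f ∧
          ((2 * f : ℕ) : OO n t) ∣ α * β - α' := by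
        intro α hα
        have h2 : (f : OO n t) ∣ α * β - 1 := by
          have e : α * β - 1 = α * (β - 1) + (α - 1) := by ring
          rw [e]
          exact dvd_add (dvd_mul_of_dvd_right (Tm_f hβ) _) (Tm_f hα)
        obtain ⟨α', h3, h4⟩ := Tm_key hO4 hf h2 (cop_mul (Tm_two hO4 hf hα) (Tm_two hO4 hf hβ))
        exact ⟨α', h3, h4⟩
      choose! μ hm1 hm2 using hm
      have hinj : Set.InjOn μ (tm2 n t f : Set (OO n t)) := by
        intro α hα α' hα' h2
        have hα := Finset.mem_coe.1 hα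
        have hα' := Finset.mem_coe.1 hα'
        have h3 : ((2 * f : ℕ) : OO n t) ∣ (α - α') * β := by
          have e : (α - α') * β = (α * β - μ α) - (α' * β - μ α') := by
            rw [h2]
            ring
          rw [e]
          exact dvd_sub (hm2 α hα) (hm2 α' hα')
        obtain ⟨γ, -, h4⟩ := cop_inv (hcop β hβ)
        refine Tm_uni hf hα hα' ?_
        have e : α - α' = (α - α') * β * γ - (α - α') * (β * γ - 1) := by ring
        rw [e]
        exact dvd_sub (h3.mul_right _) (dvd_mul_of_dvd_right h4 _)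
      have hsurj : Set.SurjOn μ (tm2 n t f : Set (OO n t)) (tm2 n t f : Set (OO n t)) :=
        Finset.surjOn_of_injOn_of_card_le μ (fun α hα => hm1 α (Finset.mem_coe.1 hα)) hinj le_rfl
      refine Finset.sum_nbij μ hm1 hinj hsurj fun α hα => ?_
      refine hF _ _ (hfb α hα b hb) (hfb _ (hm1 α hα) b' hb') ?_
      have h5 : Ray (2 * f) (sp α * b) (sp α * (sp β * b')) := ray_mul hN (ray_refl hN _) h1
      have h6 : sp α * (sp β * b') = sp (α * β) * b' := by
        rw [sp_mul, mul_assoc]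
      rw [h6] at h5
      exact ray_trans hN h5 (ray_mul hN (Tm_spray hf1 (cop_mul (hcop α hα) (hcop β hβ))
        (hcop _ (hm1 α hα)) (hm2 α hα)) (ray_refl hN _))
  · intro b h hb
    obtain ⟨α, hα, h1⟩ := Tm_ray hO4 hOd hf h15 hb (fb_top f) h
    rw [Ideal.mul_top] at h1
    exact ⟨α, hα, h1⟩

end Pool.Agent.DR.FA
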