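import Pool.Agent.Lib.DR.F.SpecL

/-!
# Theorem DR, part F, module `V1a`: the set `vN (2 f) c 1`, `c = m b`
-/

set_option autoImplicit false

noncomputable section

namespace Pool.Agent.DR.F

open Pool.Agent.MuZ Pool.Agent.FW NumberField IsDedekindDomain Pool.Agent.DN Pool.Agent.DN.F
open Pool.Agent.DI (io ofC io_inj exists_io io_ofC ofC_io VP MP UP TP ex)

private theorem V1a_claim {n t : ℕ} [SqN n t] {c : Ideal (OO n t)} (hc : c ≠ ⊥) {z : ℂ}
    (hz : z ∈ Lam c) : ∃ y ∈ c, (NI c : ℂ) * (starRingEnd ℂ) z = toC y := by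
  have h1 : (starRingEnd ℂ) z ∈ Lam (cjI c) := by
    refine ((aL2 n t).2.2.2.2.2.2.1 c ((starRingEnd ℂ) z) hc).2 ?_
    rw [Complex.conj_conj]
    exact hz
  have h2 : ∀ x ∈ c * cjI c, ∃ y ∈ c, toC x * (starRingEnd ℂ) z = toC y := by
    intro x hx
    refine Submodule.mul_induction_on hx ?_ ?_
    · intro p hp q hq
      obtain ⟨s, hs⟩ := h1 q hq
      refine ⟨p * s, Ideal.mul_mem_right s c hp, ?_⟩
      rw [toC_mul, toC_mul, mul_assoc, hs]
    · rintro p q ⟨y, hy, ey⟩ ⟨y', hy', ey'⟩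
      refine ⟨y + y', Ideal.add_mem _ hy hy', ?_⟩
      rw [toC_add, toC_add, add_mul, ey, ey']
  have h3 : (NI c : OO n t) ∈ c * cjI c := by
    rw [mul_cjI]
    exact Ideal.mem_span_singleton_self _
  obtain ⟨y, hy, ey⟩ := h2 _ h3
  exact ⟨y, hy, by rw [← ey, toC_nat]⟩

private theorem V1a_eq {n t : ℕ} [SqN n t] {c : Ideal (OO n t)} (hc : c ≠ ⊥) {x : OO n t}
    (hx : x ∈ c) (hn : Nm x = NI c) : c = sp x := by
  have h1 : sp x ≤ c := (Ideal.span_singleton_le_iff_mem c).2 hx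
  obtain ⟨c', hc'⟩ := Ideal.dvd_iff_le.2 h1
  have h2 : NI (sp x) = NI c * NI c' := by
    rw [hc']
    exact NI_mul c c'
  have h3 : NI (sp x) = NI c := by
    have h4 := NI_sp x
    rw [hn] at h4
    exact_mod_cast h4
  have h5 : NI c' = 1 := by
    rw [h3] at h2
    have h6 := NI_pos hc
    exact Nat.eq_of_mul_eq_mul_left h6 (by rw [mul_one]; exact h2.symm)
  have h6 := mul_cjI c'
  rw [h5, Nat.cast_one, sp_one] at h6
  have h7 : c' = ⊤ := by
    have h8 : c' * cjI c' ≤ c' := Ideal.mul_le_left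
    rw [h6] at h8
    exact eq_top_iff.2 h8
  rw [hc', h7, Ideal.mul_top]

theorem tV1a (hC7 : S_C7) : S_V1a := by
  intro n t _ f m b hm hb v hv
  obtain ⟨hv1, hv2⟩ := ((hC7 n t f m b hm hb).2.1 1 v).1 hv
  have hN : 0 < 2 * f := by have := fm_pos hm; omega
  generalize 2 * f = N at hv1 hv2 hN ⊢
  have hf0 : (N : ℂ) ≠ 0 := by exact_mod_cast hN.ne'
  have hc : FB f (m * b) := fb_mul (fm_fb hm) hb
  generalize m * b = c at hc hv1 hv2 ⊢
  have hone : (1 : ℂ) ∈ Lam c := fun w _ => ⟨w, by rw [mul_one]⟩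
  have hu : (N : ℂ) * v ∈ Lam c := by
    have e := lam_add (lam_nat N hv1) hone
    have e2 : (N : ℂ) * (v - 1 / N) + 1 = N * v := by
      field_simp
      ring
    rwa [e2] at e
  obtain ⟨x, hxc, hx⟩ := V1a_claim hc.ne hu
  have hr : (NI c : ℝ) * ‖(N : ℂ) * v‖ ^ 2 = 1 := by
    rw [norm_mul, Complex.norm_natCast, mul_pow]
    rw [Nat.cast_one] at hv2
    linear_combination hv2
  have hxu : toC x * (N * v) = 1 := by
    rw [← hx, mul_assoc, Complex.conj_mul']
    exact_mod_cast hr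
  have hx0 : toC x ≠ 0 := by
    intro h
    rw [h, zero_mul] at hxu
    exact zero_ne_one hxu
  have hnm : Nm x = NI c := by
    have h1 : ((Nm x : ℤ) : ℝ) = (NI c : ℝ) := by
      rw [Nm_norm, ← hx, norm_mul, Complex.norm_natCast, RCLike.norm_conj, mul_pow]
      linear_combination (NI c : ℝ) * hr
    exact_mod_cast h1
  refine ⟨x, fun h => hx0 (by rw [h, toC_zero]), V1a_eq hc.ne hxc hnm, ?_, ?_⟩
  · obtain ⟨s, hs⟩ := hv1 x hxc
    have h1 : toC (1 - x) = toC ((N : OO n t) * s) := by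
      rw [toC_sub, toC_one, toC_mul, toC_nat, ← hs]
      have e : (N : ℂ) * (toC x * (v - 1 / N)) = toC x * (N * v) - toC x * (N * (1 / N)) := by ring
      rw [e, hxu, mul_one_div_cancel hf0, mul_one]
    have h2 := toC_inj h1
    refine ⟨-s, ?_⟩
    linear_combination -h2
  · rw [eq_div_iff (mul_ne_zero hf0 hx0)]
    linear_combination hxu

end Pool.Agent.DR.F
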