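import Pool.Agent.Lib.DR.F.Hm
import Pool.Agent.Lib.DR.F.Al
import Pool.Agent.Lib.DR.F.Cls
import Pool.Agent.Lib.DR.F.CoL
import Pool.Agent.Lib.DR.F.Has
import Pool.Agent.Lib.DR.F.V1a
import Pool.Agent.Lib.DR.F.V1b
import Pool.Agent.Lib.DR.F.Lead
import Pool.Agent.Lib.DR.F.Gt
import Pool.Agent.Lib.DR.F.Cus
import Pool.Agent.Lib.DR.F.PsG
import Pool.Agent.Lib.DR.F.PsE
import Pool.Agent.Lib.DR.F.FHm
import Pool.Agent.Lib.DR.F.KP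
import Pool.Agent.Lib.DR.F.Od
import Pool.Agent.Lib.DR.F.Tm
import Pool.Agent.Lib.DR.F.Gc
import Pool.Agent.Lib.DR.F.YE
import Pool.Agent.Lib.DR.F.Kap
import Pool.Agent.Lib.DR.F.Sm
import Pool.Agent.Lib.DR.F.Bet
import Pool.Agent.Lib.DR.F.Pa
import Pool.Agent.Lib.DR.F.Pb
import Pool.Agent.Lib.DR.F.F2
import Pool.Agent.Lib.DR.F.Kf
import Pool.Agent.Lib.DR.F.Asm
import Pool.Agent.Lib.DN.B.All

/-!
# Theorem DR, part F: Proposition F (`S_F` of `DR/IfaceL.lean`) from the statements of parts O, R, D, E, C (helper12)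
-/

set_option autoImplicit false

noncomputable section

namespace Pool.Agent.DR.F

open Pool.Agent.DN

/-- `S_Lead`. -/
theorem xLead (hC7 : DS.S_C7) (hR1 : S_R1) (hD2 : S_D2) (hE10 : S_E10) (hKf : S_Kf) : S_Lead :=
  have hC7' : S_C7 := cC7 hC7
  have hHm : S_Hm := tHm aB7 hC7'
  have hAl : S_Al := tAl hC7'
  tLead hR1 hD2 hC7' (tCoL hKf hE10 hR1 hHm hAl) (tHas hR1 hC7' hAl) (tV1b hC7' (tV1a hC7'))

/-- `S_Psi`. -/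
theorem xPsi (hO4 : S_O4) (hC3 : DS.S_C3) (hC7 : DS.S_C7) (hR1 : S_R1) (hKf : S_Kf)
    (hLead : S_Lead) : S_Psi :=
  sPsi (tGt aB1 aB2 aB3 aB4) (tPsG hO4 (cC7 hC7) (tCus (cC3 hC3))) (tPsE hKf hLead aB1 aB7 hR1)

/-- `S_F2`. -/
theorem xF2 (hO4 : S_O4) (hC2 : DS.S_C2) (hC6 : DS.S_C6) (hC8 : DS.S_C8) (hC10 : DR.S_C10)
    (hR1 : S_R1) (hD2 : S_D2) (hE1 : S_E1) (hE7 : S_E7) (hE10 : S_E10) (hE11 : S_E11)
    (hKf : S_Kf) (hLead : S_Lead) : S_F2 :=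
  have hKP : FA.S_KP := FA.tKP hO4
  have hOd : FA.S_Od := FA.tOd hO4
  have hTm : FA.S_Tm := FA.tTm hO4 hOd
  have hGc : FA.S_Gc := FA.tGc hE1 hE10 aB7 hR1 hD2 hKf
  have hYE : FA.S_YE := FA.tYE (cC6 hC6) (cC8 hC8)
    (fun n t _ f M m b hm hb hl P hP r hr => (hC10 n t f M m b hm hb hl P hP r hr).1) hE1 hTm
  FA.tF2 hE1 hE7 hE11 hKf hKP hGc hYE (FA.tKap hO4 hKP hOd hGc) (FA.tSm hYE)
    (FA.tBet hO4 hE1 hKf hKP hGc)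
    (FA.tPb hKP (FA.tPa (cC2 hC2) (cC6 hC6) hE1 hKf hTm hGc hYE)) hLead

/-- **Proposition F**, from the statements of the other parts and `S_Kf`. -/
theorem xF (hO4 : S_O4) (hC2 : DS.S_C2) (hC3 : DS.S_C3) (hC6 : DS.S_C6) (hC7 : DS.S_C7)
    (hC8 : DS.S_C8) (hC10 : DR.S_C10) (hR1 : S_R1) (hR2 : S_R2) (hD2 : S_D2) (hD10 : S_D10)
    (hE1 : S_E1) (hE7 : S_E7) (hE10 : S_E10) (hE11 : S_E11) (hKf : S_Kf) : S_F :=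
  have hLead : S_Lead := xLead hC7 hR1 hD2 hE10 hKf
  tAsm hKf (xF2 hO4 hC2 hC6 hC8 hC10 hR1 hD2 hE1 hE7 hE10 hE11 hKf hLead)
    (xPsi hO4 hC3 hC7 hR1 hKf hLead) (tFH hO4 aB1 aB2 hR1 hR2 hD10 hKf hLead)

/-- `S_Kf`. -/
theorem xKf (hO4 : S_O4) (hE1 : DS.S_E1) (hE4 : S_E4a) (hE7 : DS.S_E7) (hE8 : DS.S_E8)
    (hCj : DS.S_Cj) (hIne : FW.S_Ine) : S_Kf :=
  tKf hO4 (FA.tKP hO4) hE1 hE4 hE7 hE8 hCj hIne

end Pool.Agent.DR.F
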