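import Pool.Agent.Lib.DR.F.SpecA

/-!
# Theorem DR, part F, module KP: the field `K` at the primes above `2`
-/

set_option autoImplicit false

open scoped Pointwise

noncomputable section

namespace Pool.Agent.DR.FA

open Pool.Agent.MuZ Pool.Agent.FW NumberField IsDedekindDomain Pool.Agent.DN Pool.Agent.DN.FA
open Pool.Agent.DI (io ofC io_inj exists_io io_ofC ofC_io VP MP UP TP ex)

variable {n t : ℕ} {P : Ideal ZZ}

/-- elements of `KQ` are `a + b w` -/
private theorem KP_form [SqN n t] (x : Om) (hx : x ∈ KQ n t) :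
    ∃ a b : ℚ, x = (a : Om) + (b : Om) * wO n t := by
  have hint : IsIntegral ℚ (wO n t) := (Algebra.IsAlgebraic.isAlgebraic (wO n t)).isIntegral
  have h1 : x ∈ Algebra.adjoin ℚ {wO n t} := by
    rw [← IntermediateField.adjoin_simple_toSubalgebra_of_isAlgebraic hint.isAlgebraic]
    exact hx
  clear hx
  induction h1 using Algebra.adjoin_induction with
  | mem y hy =>
      rw [Set.mem_singleton_iff] at hy
      exact ⟨0, 1, by rw [hy]; simp⟩
  | algebraMap r => exact ⟨r, 0, by simp⟩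
  | add y z hy hz ihy ihz =>
      obtain ⟨a, b, h⟩ := ihy
      obtain ⟨a', b', h'⟩ := ihz
      refine ⟨a + a', b + b', ?_⟩
      rw [h, h']
      push_cast
      ring
  | mul y z hy hz ihy ihz =>
      obtain ⟨a, b, h⟩ := ihy
      obtain ⟨a', b', h'⟩ := ihz
      refine ⟨a * a' - n * (b * b'), a * b' + b * a' + t * (b * b'), ?_⟩
      rw [h, h']
      push_cast
      linear_combination ((b : Om) * b') * wO_sq (n := n) (t := t)

private theorem KP_den [SqN n t] (x : Om) (hx : x ∈ KQ n t) :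
    ∃ (N : ℕ) (v : OO n t), 0 < N ∧ x * (N : Om) = toO v := by
  obtain ⟨a, b, h⟩ := KP_form x hx
  refine ⟨a.den * b.den, ⟨a.num * b.den, b.num * a.den⟩, Nat.mul_pos a.pos b.pos, ?_⟩
  have ha : (a : Om) * (a.den : Om) = (a.num : Om) := by
    have h1 := Rat.mul_den_eq_num a
    exact_mod_cast congrArg (fun r : ℚ => (r : Om)) h1
  have hb : (b : Om) * (b.den : Om) = (b.num : Om) := by
    have h1 := Rat.mul_den_eq_num b
    exact_mod_cast congrArg (fun r : ℚ => (r : Om)) h1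
  rw [toO_apply, h]
  push_cast
  linear_combination (b.den : Om) * ha + (a.den : Om) * wO n t * hb

theorem KP_toO2 [SqN n t] : toO (2 : OO n t) = 2 := by
  have h := toO_nat (n := n) (t := t) 2
  exact_mod_cast h

private theorem KP_odd [P.IsPrime] (h2 : MP P 2) {m : ℤ} (h : ¬ (2 : ℤ) ∣ m) :
    ¬ MP P (m : Om) := by
  intro hm
  obtain ⟨j, hj⟩ : ∃ j : ℤ, m = 2 * j + 1 := by
    obtain ⟨j, hj⟩ : Odd m := by
      rw [← Int.not_even_iff_odd, even_iff_two_dvd]
      exact h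
    exact ⟨j, hj⟩
  have e : (1 : Om) = m - (j : Om) * 2 := by
    rw [hj]
    push_cast
    ring
  apply DI.MP.one_not (P := P)
  rw [e]
  exact hm.sub (DI.MP.mul_left (DI.VP.int j) h2)

/-- `pO` is in `pp`. -/
theorem pO_mem : pO n t ∈ pp n t := Ideal.subset_span (by simp)

theorem two_mem : (2 : OO n t) ∈ pp n t := Ideal.subset_span (by simp)

/-- The elements of `pp` are in `P`. -/
private theorem KP_mp (hO4 : S_O4) [Rmf n t] (hP : Ab2 P) {v : OO n t} (h : v ∈ pp n t) :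
    MP P (toO v) := by
  have hPp : P.IsPrime := hP.1.1
  obtain ⟨-, -, -, h4, -⟩ := hO4 n t
  have h5 : v * v ∈ pp n t * pp n t := Ideal.mul_mem_mul h h
  rw [h4, Ideal.mem_span_singleton] at h5
  obtain ⟨u, hu⟩ := h5
  refine DI.MP.of_pow (n := 2) ?_
  rw [pow_two, ← toO_mul, hu, toO_mul, KP_toO2]
  exact DI.MP.mul_right hP.2 (toO_VP _)

private theorem KP_up [SqN n t] (hP : Ab2 P) {v : OO n t} (h : ¬ (2 : ℤ) ∣ Nm v) :
    UP P (toO v) := by
  have hPp : P.IsPrime := hP.1.1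
  refine ⟨toO_VP v, fun h1 => ?_⟩
  apply KP_odd hP.2 h
  rw [← toO_int (n := n) (t := t), ← mul_cjO, toO_mul]
  exact DI.MP.mul_right h1 (toO_VP _)

private theorem KP_iff (hO4 : S_O4) [Rmf n t] (hP : Ab2 P) (v : OO n t) :
    MP P (toO v) ↔ v ∈ pp n t := by
  obtain ⟨-, -, -, -, -, -, h7, h8, -⟩ := hO4 n t
  constructor
  · intro h
    by_contra hn
    exact (KP_up hP ((h8 v).1 ((h7 v).2 hn))).2 h
  · exact KP_mp hO4 hP

/-- The square of `pO`. -/
theorem pO_sq (hO4 : S_O4) [Rmf n t] : ∃ u : OO n t, pO n t ^ 2 = 2 * u ∧ Cop u 2 := by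
  obtain ⟨h1, -, -, h4, -, -, -, h8, -⟩ := hO4 n t
  have h5 : pO n t * pO n t ∈ pp n t * pp n t := Ideal.mul_mem_mul pO_mem pO_mem
  rw [h4, Ideal.mem_span_singleton] at h5
  obtain ⟨u, hu⟩ := h5
  refine ⟨u, by rw [pow_two, hu], (h8 u).2 ?_⟩
  have ht : t = 0 := Rmf.zero (n := n)
  have e1 : Nm (pO n t) ^ 2 = 4 * Nm u := by
    rw [pow_two, ← Nm_mul, hu, Nm_mul]
    have h5 := Nm_nat (n := n) (t := t) 2
    push_cast at h5
    rw [h5]
  have e2 : Nm (pO n t) = (n % 2 : ℕ) + n := by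
    have e3 : Nm (pO n t) = ((n % 2 : ℕ) : ℤ) ^ 2 + t * ((n % 2 : ℕ) : ℤ) * 1 + n * 1 ^ 2 := rfl
    rw [e3, ht]
    rcases Nat.mod_two_eq_zero_or_one n with h | h
    · rw [h]
      norm_num
    · rw [h]
      norm_num
  rw [e2] at e1
  intro h6
  obtain ⟨j, hj⟩ := h6
  obtain ⟨k, hk⟩ : ∃ k : ℤ, (((n % 2 : ℕ) + n : ℕ) : ℤ) = 2 * (2 * k + 1) := by
    rcases h1 with h | h
    · refine ⟨(n / 4 : ℕ), ?_⟩
      omega
    · refine ⟨(n / 4 : ℕ), ?_⟩
      omega
  push_cast at hk e1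
  rw [hk, hj] at e1
  have e3 : (2 * k + 1) ^ 2 = 2 * j := by nlinarith
  have e4 : 2 * (2 * k ^ 2 + 2 * k - j) = -1 := by linear_combination e3
  omega

private theorem KP_pO (hO4 : S_O4) [Rmf n t] (hP : Ab2 P) : UP P (toO (pO n t) ^ 2 / 2) := by
  obtain ⟨u, hu, hc⟩ := pO_sq (n := n) (t := t) hO4
  obtain ⟨-, -, -, -, -, -, -, h8, -⟩ := hO4 n t
  have e : toO (pO n t) ^ 2 / 2 = toO u := by
    rw [← toO_pow, hu, toO_mul, KP_toO2, mul_div_cancel_left₀ _ two_ne_zero]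
  rw [e]
  exact KP_up hP ((h8 u).1 hc)

/-- `toO v / 2` in `V_P` implies `2 ∣ v`. -/
private theorem KP_half (hO4 : S_O4) [Rmf n t] (hP : Ab2 P) {v : OO n t} (h : VP P (toO v / 2)) :
    (2 : OO n t) ∣ v := by
  have hPp : P.IsPrime := hP.1.1
  have h0 := hO4 n t
  obtain ⟨-, -, -, -, -, -, -, -, h9, -⟩ := h0
  have h1 : MP P (toO v) := by
    have e : toO v = 2 * (toO v / 2) := by
      field_simp
    rw [e]
    exact DI.MP.mul_right hP.2 h
  rcases (h9 v).1 ((KP_iff hO4 hP v).1 h1) with h2 | ⟨x, hx⟩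
  · exact h2
  · exfalso
    have e : v = pO n t + 2 * x := by rw [← hx]; ring
    have h3 : VP P (toO (pO n t) / 2) := by
      have e2 : toO (pO n t) / 2 = toO v / 2 - toO x := by
        rw [e, toO_add, toO_mul, KP_toO2]
        field_simp
        ring
      rw [e2]
      exact DI.VP.sub h (toO_VP x)
    have h4 := KP_pO (n := n) (t := t) hO4 hP
    have h5 : MP P (toO (pO n t) ^ 2 / 2) := by
      have e3 : toO (pO n t) ^ 2 / 2 = toO (pO n t) * (toO (pO n t) / 2) := by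
        field_simp
      rw [e3]
      exact DI.MP.mul_right (KP_mp hO4 hP pO_mem) h3
    exact h4.2 h5

private theorem KP_two (hO4 : S_O4) [Rmf n t] (hP : Ab2 P) (j : ℕ) : ∀ v : OO n t,
    VP P (toO v / 2 ^ j) → ∃ s : OO n t, v = 2 ^ j * s := by
  have hPp : P.IsPrime := hP.1.1
  induction j with
  | zero =>
    intro v _
    exact ⟨v, by rw [pow_zero, one_mul]⟩
  | succ j ih =>
    intro v hv
    have h1 : VP P (toO v / 2) := by
      have e : toO v / 2 = 2 ^ j * (toO v / 2 ^ (j + 1)) := by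
        field_simp
        ring
      rw [e]
      exact (hP.2.vp.pow j).mul hv
    obtain ⟨u, rfl⟩ := KP_half hO4 hP h1
    have e : toO u / 2 ^ j = toO (2 * u) / 2 ^ (j + 1) := by
      rw [toO_mul, KP_toO2, pow_succ]
      field_simp
    obtain ⟨s, rfl⟩ := ih u (by rwa [e])
    exact ⟨s, by ring⟩

private theorem KP_nx (hO4 : S_O4) [Rmf n t] (hP : Ab2 P) (x : Om) (hx : x ∈ KQ n t) (hv : VP P x) :
    ∃ N : ℕ, Odd N ∧ ∃ v : OO n t, (N : Om) * x = toO v := by
  have hPp : P.IsPrime := hP.1.1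
  obtain ⟨N, v, hN, h⟩ := KP_den x hx
  obtain ⟨j, m, hm, hj⟩ := Nat.exists_eq_pow_mul_and_not_dvd hN.ne' 2 (by norm_num)
  have h2 : (2 : Om) ^ j ≠ 0 := pow_ne_zero j two_ne_zero
  have h3 : (m : Om) * x = toO v / 2 ^ j := by
    rw [eq_div_iff h2, ← h, hj]
    push_cast
    ring
  obtain ⟨s, hs⟩ := KP_two hO4 hP j v (h3 ▸ (DI.VP.nat m).mul hv)
  refine ⟨m, ?_, s, ?_⟩
  · rw [← Nat.not_even_iff_odd, even_iff_two_dvd]
    exact hm
  · rw [h3, hs, toO_mul, toO_pow, KP_toO2, mul_div_cancel_left₀ _ h2]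

theorem tKP (hO4 : S_O4) : S_KP := by
  intro n t _ P hP
  have hPp : P.IsPrime := hP.1.1
  have h0 := hO4 n t
  obtain ⟨-, -, -, -, -, -, h7, h8, h9, -, h11, -⟩ := h0
  refine ⟨?_, KP_iff hO4 hP, KP_nx hO4 hP, ?_, KP_mp hO4 hP pO_mem, KP_pO hO4 hP⟩
  · intro x hx hv
    obtain ⟨N, ⟨j, hj⟩, v, h⟩ := KP_nx hO4 hP x hx hv
    refine ⟨v, ?_⟩
    have e : x - toO v = -((j : Om) * x) * 2 := by
      rw [← h, hj]
      push_cast
      ring
    rw [e]
    exact DI.MP.mul_left ((DI.VP.nat j).mul hv).neg hP.2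
  · intro v hv
    refine ⟨KP_up hP ((h8 v).1 hv), ?_⟩
    have h12 : v - 1 ∈ pp n t := by
      rw [h9]
      rcases (h11 v).1 hv with h | h
      · exact Or.inl h
      · refine Or.inr ?_
        have e : v - 1 - pO n t = v - (1 + pO n t) := by ring
        rw [e]
        exact h
    have h13 := KP_mp hO4 hP h12
    rwa [toO_sub, toO_one] at h13

end Pool.Agent.DR.FA
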