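import Pool.Agent.Lib.DR.F.SpecA
import Pool.Agent.Lib.DR.F.YE
import Pool.Agent.Lib.DR.F.KP

/-!
# Theorem DR, part F, module `F2a`: lemmas for `S_F2` (roots of unity of odd order, complex conjugation, inertia)
-/

set_option autoImplicit false

open scoped Pointwise

noncomputable section

namespace Pool.Agent.DR.FA

open Pool.Agent.MuZ Pool.Agent.FW NumberField IsDedekindDomain Pool.Agent.DN Pool.Agent.DN.FA
open Pool.Agent.DI (io ofC io_inj exists_io io_ofC ofC_io VP MP UP TP ex)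

/-- Roots of unity of odd order are different modulo the primes above `2`. -/
theorem F2_root {P : Ideal ZZ} (hP : Ab2 P) {x y : Om} {j : ℕ} (hj : Odd j) (hx : x ^ j = 1)
    (hy : y ^ j = 1) (h : MP P (x - y)) : x = y := by
  have hPp : P.IsPrime := hP.1.1
  have hj0 : 0 < j := hj.pos
  have uy : UP P y := DI.UP.of_pow hj0 (by rw [hy]; exact DI.UP.one)
  have ux : UP P x := DI.UP.of_pow hj0 (by rw [hx]; exact DI.UP.one)
  have y0 := uy.ne_zero
  by_contra hne
  obtain ⟨z, hz⟩ : ∃ z, z = x * y⁻¹ := ⟨_, rfl⟩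
  have vz : VP P z := by
    rw [hz]
    exact ux.1.mul uy.inv.1
  have mz : MP P (z - 1) := by
    have e : z - 1 = (x - y) * y⁻¹ := by
      rw [hz]
      field_simp
    rw [e]
    exact DI.MP.mul_right h uy.inv.1
  have z1 : z - 1 ≠ 0 := by
    intro h1
    apply hne
    have h2 : x * y⁻¹ = 1 := by
      rw [← hz]
      exact sub_eq_zero.1 h1
    field_simp at h2
    exact h2
  have zj : z ^ j = 1 := by
    rw [hz, mul_pow, inv_pow, hx, hy]
    norm_num
  have hpow : ∀ i : ℕ, MP P (z ^ i - 1) := by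
    intro i
    induction i with
    | zero =>
      rw [pow_zero, sub_self]
      exact DI.MP.zero
    | succ i ih =>
      have e : z ^ (i + 1) - 1 = (z ^ i - 1) * z + (z - 1) := by ring
      rw [e]
      exact DI.MP.add (DI.MP.mul_right ih vz) mz
  have h0 : ∑ i ∈ Finset.range j, z ^ i = 0 := by
    have h1 := geom_sum_mul z j
    rw [zj, sub_self] at h1
    exact (mul_eq_zero.1 h1).resolve_right z1
  have h2 : MP P (∑ i ∈ Finset.range j, (z ^ i - 1)) := DI.MP.sum _ _ fun i _ => hpow i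
  rw [Finset.sum_sub_distrib, h0, zero_sub] at h2
  have h3 : MP P ((j : ℕ) : Om) := by
    have h4 := DI.MP.neg h2
    rw [neg_neg] at h4
    simpa using h4
  obtain ⟨i, hi⟩ := hj
  have h5 : MP P (1 : Om) := by
    have e : (1 : Om) = ((j : ℕ) : Om) - 2 * (i : Om) := by
      rw [hi]
      push_cast
      ring
    rw [e]
    exact DI.MP.sub h3 (DI.MP.mul_right hP.2 (DI.VP.nat i))
  exact DI.MP.one_not h5

theorem F2_cc {c : Gal(Om/ℚ)} (hcc : c * c = 1) (x : Om) : c (c x) = x :=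
  congrArg (fun g : Gal(Om/ℚ) => g x) hcc

theorem F2_vp {c : Gal(Om/ℚ)} (hcc : c * c = 1) {Q : Ideal ZZ} [Q.IsPrime] {x : Om}
    (h : VP (c • Q) x) : VP Q (c x) := by
  have h2 := (DI.VP.smul (P := c • Q) c (x := x)).2 h
  rwa [smul_smul, hcc, one_smul] at h2

theorem F2_mp {c : Gal(Om/ℚ)} (hcc : c * c = 1) {Q : Ideal ZZ} [Q.IsPrime] {x : Om}
    (h : MP (c • Q) x) : MP Q (c x) := by
  have h2 := (DI.MP.smul (P := c • Q) c (x := x)).2 h
  rwa [smul_smul, hcc, one_smul] at h2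

/-- `conj pO / pO` is `1` modulo the primes above `2`. -/
theorem F2_pO (hKP : S_KP) {n t : ℕ} [Rmf n t] {Q : Ideal ZZ} (hQ : Ab2 Q) {c : Gal(Om/ℚ)}
    (hcw : c (wO n t) = - wO n t) : toO (pO n t) ≠ 0 ∧
      MP Q (c (toO (pO n t)) / toO (pO n t) - 1) := by
  have hQp : Q.IsPrime := hQ.1.1
  obtain ⟨-, -, -, -, h5, h6⟩ := hKP n t Q hQ
  have h0 : toO (pO n t) ≠ 0 := by
    intro h
    have := h6.ne_zero
    rw [h] at this
    norm_num at this
  refine ⟨h0, ?_⟩
  have e1 : toO (pO n t) = ((n % 2 : ℕ) : Om) + wO n t := by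
    have hre : (pO n t).re = ((n % 2 : ℕ) : ℤ) := rfl
    have him : (pO n t).im = 1 := rfl
    rw [toO_apply, hre, him, Int.cast_natCast, Int.cast_one, one_mul]
  have e2 : c (toO (pO n t)) = toO (pO n t) - 2 * wO n t := by
    rw [e1, map_add, map_natCast, hcw]
    ring
  have hw : VP Q (wO n t) := by
    rw [← toO_wI]
    exact toO_VP _
  have e : c (toO (pO n t)) / toO (pO n t) - 1 =
      -(toO (pO n t) * ((toO (pO n t) ^ 2 / 2)⁻¹ * wO n t)) := by
    rw [e2]
    field_simp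
    ring
  rw [e]
  exact DI.MP.neg (DI.MP.mul_right h5 (h6.inv.1.mul hw))

end Pool.Agent.DR.FA
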