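import Pool.Agent.Lib.DR.F.F2a

/-!
# Theorem DR, part F, module `F2b`: the leading coefficient (if `χ` is not invariant under conjugation)
-/

set_option autoImplicit false
set_option linter.unusedSectionVars false

open scoped Pointwise

noncomputable section

namespace Pool.Agent.DR.FA

open Pool.Agent.MuZ Pool.Agent.FW NumberField IsDedekindDomain Pool.Agent.DN Pool.Agent.DN.FA
open Pool.Agent.DI (io ofC io_inj exists_io io_ofC ofC_io VP MP UP TP ex)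

/-- The elements outside of `GK`. -/
private theorem F2b_w (hE11 : S_E11) {n t : ℕ} [Rmf n t] {τ : Gal(Om/ℚ)} (h : τ ∉ GK n t) :
    τ (wO n t) = -wO n t := by
  obtain ⟨h1, -⟩ := hE11 n t 15 (by norm_num) dvd_rfl
  have h2 := (h1 τ h).2 (wI n t)
  have ht : t = 0 := Rmf.zero (n := n)
  have h3 : cjO (wI n t) = -wI n t := by
    apply ext'
    · unfold cjO wI
      rw [QuadraticAlgebra.re_neg, ht]
      simp
    · unfold cjO wI
      rw [QuadraticAlgebra.im_neg]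
  rw [h3, toO_neg, toO_wI] at h2
  exact h2

/-- **The main step.** -/
theorem F2_key (hE1 : S_E1) (hE7 : S_E7) (hE11 : S_E11) (hKf : S_Kf) (hGc : S_Gc) (hKap : S_Kap)
    (hBet : S_Bet) {n t : ℕ} [Rmf n t] {f : ℕ} {R : Finset (Ideal (OO n t))} (hf : Odd f)
    (h15 : 15 ∣ f) (hFR : FR f R) (hR : IsRC f R) {χ : Ideal (OO n t) → Om}
    (hχ : IsChi (2 * f) χ) (hN : Ncj χ) {P : Ideal ZZ} (hP : Ab2 P)
    {σ : Ideal (OO n t) → Gal(Om/ℚ)} (hσ : IsSig n t f σ) {c : Gal(Om/ℚ)} (hc : IsCj c)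
    (S : Set Om)
    (hS : ∀ w ∈ S, w ∈ Kf n t f ∧ ∀ Q : Ideal ZZ, Ab2 Q → ∀ τ ∈ GK n t, VP Q (τ w))
    (hS'' : ∀ w ∈ S, MP P (∑ b ∈ R, χ b * rO ⊤ b * σ b w)) {b1 : Ideal (OO n t)} (hb1 : FB f b1) :
    ∃ β ∈ Kf n t f, (∀ Q : Ideal ZZ, Ab2 Q → ∀ τ ∈ GK n t, VP Q (τ β)) ∧
      (∀ w ∈ S, MP P (∑ b ∈ R, σ b (β * w))) ∧ ∃ Q : Ideal ZZ, Ab2 Q ∧
        ¬ MP Q (rO b1 ⊤ * σ b1 β + c (rO b1 ⊤ * σ b1 β)) := by
  classical
  have hPp : P.IsPrime := hP.1.1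
  have h2f : 0 < 2 * f := two_f hf
  have h152 : 15 ∣ 2 * f := h15.mul_left 2
  obtain ⟨-, -, -, -, -, -, -, k9, k10⟩ := hKf n t f hf h15
  obtain ⟨hcc, hcw⟩ := k9 c hc
  obtain ⟨τ0, hτ0, hτ0K⟩ := k10 P hP
  obtain ⟨g1, g4, g5⟩ := hGc n t f hf h15
  obtain ⟨p1, p2⟩ := hKap n t f hf h15 χ hχ P hP
  have htop : FB f (⊤ : Ideal (OO n t)) := fb_top f
  have hfbm : ∀ a b : Ideal (OO n t), FB f a → FB f b → FB f (a * b) := fun a b h h' => fb_mul h h'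
  -- `g = τ0⁻¹ c`
  obtain ⟨g, hg⟩ : ∃ g : Gal(Om/ℚ), g = τ0⁻¹ * c := ⟨_, rfl⟩
  have hτ0w := F2b_w (n := n) (t := t) hE11 hτ0K
  have hgK : g ∈ GK n t := by
    rw [mem_GK_iff, hg, AlgEquiv.mul_apply, hcw]
    apply τ0.injective
    rw [← AlgEquiv.mul_apply, mul_inv_cancel, AlgEquiv.one_apply, hτ0w]
  have hcg : ∀ x : Om, c x = τ0 (g x) := by
    intro x
    rw [hg, ← AlgEquiv.mul_apply, mul_inv_cancel_left]
  obtain ⟨k0, hk0⟩ := (hE1 n t (2 * f) h2f h152).1 g hgK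
  have hfk0 : FB f k0 := fb_psi hk0
  obtain ⟨-, e2, e3, -⟩ := hE11 n t (2 * f) h2f h152
  have hcC := e3 c hc
  -- the action of `c` on the framing
  have hcr : ∀ b b' : Ideal (OO n t), FB f b → FB f b' → c (rO b b') = rO (cjI b) (cjI b') := by
    intro b b' hb hb'
    have h1 := ((e2 c ⊤ hcC).1 b (fb_g15 h15 hb)).2 b' (fb_g15 h15 hb')
    rw [Ideal.top_mul, Ideal.top_mul] at h1
    exact h1
  have hcjt : cjI (⊤ : Ideal (OO n t)) = ⊤ := DN.F.cjI_top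
  have hcjf : ∀ b : Ideal (OO n t), FB f b → FB f (cjI b) := fun b hb => DN.F.fb_cj hb
  by_contra hcon
  push Not at hcon
  -- the congruence for one class `e'`
  have main : ∀ e' : Ideal (OO n t), FB f e' →
      MP P (χ e' + χ k0 * rO ⊤ k0 * χ (cjI e')) := by
    intro e' he'
    have he'' : FB f (cjI e') := hcjf e' he'
    obtain ⟨u, huK, hu⟩ := hE7 n t (2 * f) e' h2f h152 he'.ne he'.cop
    -- `u' = c u c`
    have hu' : Psi (c * u * c) (2 * f) (cjI e') := by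
      have h1 := ((e2 c ⊤ hcC).2.2.2.1 u e' hu).2
      rw [Ideal.top_mul] at h1
      have h2 := (e2 (c * u) (cjI e') h1).2.2.2.2 c ⊤ hcC
      rw [hcjt, Ideal.mul_top] at h2
      exact h2
    have hu'K : c * u * c ∈ GK n t := by
      rw [mem_GK_iff, AlgEquiv.mul_apply, AlgEquiv.mul_apply, hcw, map_neg, mem_GK_iff.1 huK,
        map_neg, hcw, neg_neg]
    have hgu : Psi (g * (c * u * c)) (2 * f) (k0 * cjI e') := Eb.psi_mul hk0 hu'
    have hguK : g * (c * u * c) ∈ GK n t := mul_mem hgK hu'K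
    have hf1 : FB f (e' * b1) := hfbm _ _ he' hb1
    have hf2 : FB f (k0 * cjI e' * b1) := hfbm _ _ (hfbm _ _ hfk0 he'') hb1
    have hf3 : FB f (k0 * cjI e') := hfbm _ _ hfk0 he''
    obtain ⟨i1, hi1, hr1⟩ := hR.ex _ hf1.ne (fb_f hf1)
    obtain ⟨i2, hi2, hr2⟩ := hR.ex _ hf2.ne (fb_f hf2)
    -- the coefficients
    have hl1 : UP P (rO (e' * b1) e') := by
      have h1 := (p1 (e' * b1) hf1).2
      have h2 := (p1 e' he').2
      have h3 := (g4 ⊤ htop).2.2.2.1 (e' * b1) e' hf1 he'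
      have h4 : rO (e' * b1) e' = rO ⊤ e' * (rO ⊤ (e' * b1))⁻¹ := by
        rw [← h3]
        have := h1.ne_zero
        field_simp
      rw [h4]
      exact h2.mul h1.inv
    have hl2 : UP P (rO (k0 * cjI e' * b1) (k0 * cjI e')) := by
      have h1 := (p1 _ hf2).2
      have h2 := (p1 _ hf3).2
      have h3 := (g4 ⊤ htop).2.2.2.1 _ _ hf2 hf3
      have h4 : rO (k0 * cjI e' * b1) (k0 * cjI e') =
          rO ⊤ (k0 * cjI e') * (rO ⊤ (k0 * cjI e' * b1))⁻¹ := by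
        rw [← h3]
        have := h1.ne_zero
        field_simp
      rw [h4]
      exact h2.mul h1.inv
    have hkR : ∀ b ∈ R, VP P (χ b * rO ⊤ b) := fun b hb =>
      (p1 b (hFR b hb)).1.1.mul (p1 b (hFR b hb)).2.1
    -- the functional vanishes at `κ`
    have hvan : MP P (rO (e' * b1) e' * (χ i1 * rO ⊤ i1) +
        rO (k0 * cjI e' * b1) (k0 * cjI e') * (χ i2 * rO ⊤ i2)) := by
      by_contra hne
      obtain ⟨β, hβK, hβ1, hβ2, hβ3⟩ := hBet n t f R hf h15 hFR hR P hP σ hσ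
        (fun b => χ b * rO ⊤ b) S hkR hS hS'' i1 hi1 i2 hi2 _ _ hl1.1 hl2.1 hne
      have hQ : Ab2 (u⁻¹ • P) := ab2_smul u⁻¹ hP
      have h1 := hcon β hβK hβ2 hβ3 (u⁻¹ • P) hQ
      have h2 := (DI.MP.smul (P := u⁻¹ • P) u
        (x := rO b1 ⊤ * σ b1 β + c (rO b1 ⊤ * σ b1 β))).2 h1
      rw [smul_inv_smul, map_add] at h2
      obtain ⟨s1, s2⟩ := g5 σ hσ f (Or.inl rfl) β hβK
      -- the two terms
      have t1 : u (rO b1 ⊤ * σ b1 β) = rO (e' * b1) e' * σ i1 β := by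
        have a1 := g1 u huK e' hu b1 hb1 ⊤ htop
        rw [Ideal.mul_top] at a1
        rw [map_mul, a1, (s2 u huK e' hu b1 hb1).1, s1 _ _ hf1 (hFR i1 hi1) hr1]
      have t2 : u (c (rO b1 ⊤ * σ b1 β)) =
          τ0 (rO (k0 * cjI e' * b1) (k0 * cjI e') * σ i2 β) := by
        have a1 := g1 _ hguK _ hgu b1 hb1 ⊤ htop
        rw [Ideal.mul_top] at a1
        have a2 : u (c (rO b1 ⊤ * σ b1 β)) = c ((c * u * c) (rO b1 ⊤ * σ b1 β)) := by
          rw [AlgEquiv.mul_apply, AlgEquiv.mul_apply, F2_cc hcc]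
        rw [a2, hcg, ← AlgEquiv.mul_apply g, map_mul (g * (c * u * c)), a1,
          (s2 _ hguK _ hgu b1 hb1).1, s1 _ _ hf2 (hFR i2 hi2) hr2]
      have hv2 : VP P (rO (k0 * cjI e' * b1) (k0 * cjI e') * σ i2 β) :=
        hl2.1.mul (hβ2 P hP _ (hσ.mem i2 (hFR i2 hi2)))
      have h3 := DI.VP.inertia hτ0 hv2
      rw [t1, t2] at h2
      apply hβ1
      have e : rO (e' * b1) e' * σ i1 β + rO (k0 * cjI e' * b1) (k0 * cjI e') * σ i2 β =
          (rO (e' * b1) e' * σ i1 β + τ0 (rO (k0 * cjI e' * b1) (k0 * cjI e') * σ i2 β)) -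
          (τ0 (rO (k0 * cjI e' * b1) (k0 * cjI e') * σ i2 β) -
            rO (k0 * cjI e' * b1) (k0 * cjI e') * σ i2 β) := by ring
      rw [e]
      exact DI.MP.sub h2 h3
    -- replace the representatives
    have hd1 := (p2 _ _ hf1 (hFR i1 hi1) hr1).2
    have hd2 := (p2 _ _ hf2 (hFR i2 hi2) hr2).2
    have hvan2 : MP P (rO (e' * b1) e' * (χ (e' * b1) * rO ⊤ (e' * b1)) +
        rO (k0 * cjI e' * b1) (k0 * cjI e') *
          (χ (k0 * cjI e' * b1) * rO ⊤ (k0 * cjI e' * b1))) := by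
      have e : rO (e' * b1) e' * (χ (e' * b1) * rO ⊤ (e' * b1)) +
          rO (k0 * cjI e' * b1) (k0 * cjI e') *
            (χ (k0 * cjI e' * b1) * rO ⊤ (k0 * cjI e' * b1)) =
          (rO (e' * b1) e' * (χ i1 * rO ⊤ i1) +
            rO (k0 * cjI e' * b1) (k0 * cjI e') * (χ i2 * rO ⊤ i2)) +
          (rO (e' * b1) e' * (χ (e' * b1) * rO ⊤ (e' * b1) - χ i1 * rO ⊤ i1) +
            rO (k0 * cjI e' * b1) (k0 * cjI e') *
              (χ (k0 * cjI e' * b1) * rO ⊤ (k0 * cjI e' * b1) - χ i2 * rO ⊤ i2)) := by ring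
      rw [e]
      exact DI.MP.add hvan (DI.MP.add (DI.MP.mul_left hl1.1 hd1) (DI.MP.mul_left hl2.1 hd2))
    -- the quotients of the framings
    have q1 := (g4 ⊤ htop).2.2.2.1 (e' * b1) e' hf1 he'
    have q2 := (g4 ⊤ htop).2.2.2.1 _ _ hf2 hf3
    have q3 := (g4 ⊤ htop).2.2.2.1 k0 (k0 * cjI e') hfk0 hf3
    have q4 : rO k0 (k0 * cjI e') = τ0⁻¹ (rO ⊤ e') := by
      have a1 := g1 g hgK k0 hk0 ⊤ htop (cjI e') he''
      rw [Ideal.mul_top] at a1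
      have a2 := hcr ⊤ e' htop he'
      rw [hcjt] at a2
      rw [← a1, ← a2, hg, AlgEquiv.mul_apply, F2_cc hcc]
    have hre := (p1 e' he').2
    have q5 : MP P (rO k0 (k0 * cjI e') - rO ⊤ e') := by
      rw [q4]
      exact DI.VP.inertia (inv_mem hτ0) hre.1
    have e : rO (e' * b1) e' * (χ (e' * b1) * rO ⊤ (e' * b1)) +
        rO (k0 * cjI e' * b1) (k0 * cjI e') *
          (χ (k0 * cjI e' * b1) * rO ⊤ (k0 * cjI e' * b1)) =
        χ b1 * rO ⊤ e' * (χ e' + χ k0 * rO ⊤ k0 * χ (cjI e')) +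
          χ b1 * (χ k0 * rO ⊤ k0 * χ (cjI e')) * (rO k0 (k0 * cjI e') - rO ⊤ e') := by
      have m1 : rO (e' * b1) e' * (χ (e' * b1) * rO ⊤ (e' * b1)) = χ e' * χ b1 * rO ⊤ e' := by
        rw [← q1, hχ.mul]
        ring
      have m2 : rO (k0 * cjI e' * b1) (k0 * cjI e') *
          (χ (k0 * cjI e' * b1) * rO ⊤ (k0 * cjI e' * b1)) =
          χ k0 * χ (cjI e') * χ b1 * (rO ⊤ k0 * rO k0 (k0 * cjI e')) := by
        rw [q3, ← q2, hχ.mul, hχ.mul]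
        ring
      rw [m1, m2]
      ring
    rw [e] at hvan2
    have hv3 : MP P (χ b1 * rO ⊤ e' * (χ e' + χ k0 * rO ⊤ k0 * χ (cjI e'))) := by
      have h1 := DI.MP.sub hvan2 (DI.MP.mul_left ((p1 b1 hb1).1.1.mul
        (((p1 k0 hfk0).1.1.mul (p1 k0 hfk0).2.1).mul (p1 _ he'').1.1)) q5)
      rwa [add_sub_cancel_right] at h1
    have hub : UP P (χ b1 * rO ⊤ e') := (p1 b1 hb1).1.mul hre
    have h4 := DI.MP.mul_left hub.inv.1 hv3
    rwa [inv_mul_cancel_left₀ hub.ne_zero] at h4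
  -- `e' = 1`
  obtain ⟨j, hj, hodd⟩ := hχ.odd
  have hχt : χ ⊤ = 1 := by
    have h4 : χ ⊤ = χ ⊤ * χ ⊤ := by
      rw [← hχ.mul, Ideal.mul_top]
    exact (mul_eq_left₀ (p1 ⊤ htop).1.ne_zero).1 h4.symm
  have hone := main ⊤ htop
  rw [hcjt, hχt, mul_one] at hone
  have hall : ∀ e' : Ideal (OO n t), FB f e' → χ (cjI e') = χ e' := by
    intro e' he'
    have he'' : FB f (cjI e') := hcjf e' he'
    symm
    refine F2_root hP hj (hodd e' he'.ne he'.cop) (hodd _ he''.ne he''.cop) ?_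
    have e : χ e' - χ (cjI e') = (χ e' + χ k0 * rO ⊤ k0 * χ (cjI e')) -
        (1 + χ k0 * rO ⊤ k0) * χ (cjI e') := by ring
    rw [e]
    exact DI.MP.sub (main e' he') (DI.MP.mul_right hone (p1 _ he'').1.1)
  obtain ⟨b, hb⟩ := hN
  apply hb
  by_cases h : b ≠ ⊥ ∧ PrI b (2 * f)
  · exact hall b ⟨h.1, h.2⟩
  · have h1 : b = ⊥ ∨ ¬ PrI b (2 * f) := by
      by_contra h2
      push Not at h2
      exact h h2
    have h2 : cjI b = ⊥ ∨ ¬ PrI (cjI b) (2 * f) := by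
      rcases h1 with h1 | h1
      · left
        by_contra h3
        have h4 := DN.F.cjI_ne h3
        rw [DN.F.cjI_cjI] at h4
        exact h4 h1
      · right
        rwa [DN.F.pri_cj]
    rw [hχ.zero _ h1, hχ.zero _ h2]

end Pool.Agent.DR.FA
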