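import Pool.Agent.Lib.DR.F.SpecL

/-!
# Theorem DR, part F: module `Hm` (homogeneity)
-/

set_option autoImplicit false
set_option linter.unusedSectionVars false

open scoped Pointwise Topology MatrixGroups
open Filter

noncomputable section

namespace Pool.Agent.DR.F

open Pool.Agent.MuZ Pool.Agent.FW NumberField IsDedekindDomain Pool.Agent.DN Pool.Agent.DN.F
open Pool.Agent.DI (io ofC io_inj exists_io io_ofC ofC_io VP MP UP TP ex)

private theorem Hm_lam {n t : ℕ} [SqN n t] {N : ℕ} (hN : 0 < N) (b : Ideal (OO n t)) {α : OO n t}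
    (hα : (N : OO n t) ∣ α - 1) (v : ℂ) :
    v - 1 / N ∈ Lam (sp α * b) ↔ toC α * v - 1 / N ∈ Lam b := by
  rw [lam_sp]
  obtain ⟨u, hu⟩ := hα
  have hf0 : (N : ℂ) ≠ 0 := by exact_mod_cast hN.ne'
  have h1 : toC α - 1 = N * toC u := by
    rw [← toC_one (n := n) (t := t), ← toC_sub, hu, toC_mul, toC_nat]
  have h2 : toC α * (v - 1 / N) - (toC α * v - 1 / N) ∈ Lam b := by
    have e : toC α * (v - 1 / N) - (toC α * v - 1 / N) = -toC u := by
      field_simp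
      linear_combination -h1
    rw [e]
    apply lam_neg
    intro x _
    exact ⟨x * u, (toC_mul x u).symm⟩
  exact lam_sub_iff h2

private theorem Hm_norm {n t : ℕ} [SqN n t] (α : OO n t) (b : Ideal (OO n t)) (v : ℂ) (F : ℝ) :
    F ^ 2 * NI (sp α * b) * ‖v‖ ^ 2 = F ^ 2 * NI b * ‖toC α * v‖ ^ 2 := by
  have h1 : ((NI (sp α) : ℕ) : ℝ) = ‖toC α‖ ^ 2 := by
    rw [← Nm_norm, ← NI_sp]
    push_cast
    rfl
  rw [NI_mul, norm_mul]
  push_cast
  rw [h1]
  ring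

theorem tHm (hB7 : S_B7) (hC7 : S_C7) : S_Hm := by
  intro n t _ f m b hm hb α hα hα1
  have hf : 0 < f := fm_pos hm
  have h2f : 0 < 2 * f := by omega
  have hb' : FB f (sp α * b) := pn_fb (pn_mul ⟨Eb.ne_sp hα, pri_of_one hα1⟩ (fb_pn hb))
  have hG : G15 b := fb_15 hm.dvd hb
  have h15 : (15 : OO n t) ∣ α - 1 := by
    have h1 : ((15 : ℕ) : OO n t) ∣ ((2 * f : ℕ) : OO n t) := Nat.cast_dvd_cast (hm.dvd.mul_left 2)
    exact_mod_cast h1.trans hα1
  have h3 : (3 : OO n t) ∣ α - 1 := (show (3 : OO n t) ∣ 15 from ⟨5, by norm_num⟩).trans h15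
  have h5 : (5 : OO n t) ∣ α - 1 := (show (5 : OO n t) ∣ 15 from ⟨3, by norm_num⟩).trans h15
  refine ⟨hb', (((hB7 n t b hb.ne).2.2 hG.cop).1 α hα h3 (Or.inl h5)).1, fun j => ?_⟩
  have hmb : m * (sp α * b) = sp α * (m * b) := mul_left_comm m (sp α) b
  have h7 := (hC7 n t f m b hm hb).2.1 j
  have h7' := (hC7 n t f m (sp α * b) hm hb').2.1 j
  have hα0 : toC α ≠ 0 := toC_ne hα
  have key : ∀ v : ℂ, v ∈ vN (2 * f) (m * (sp α * b)) j ↔ toC α * v ∈ vN (2 * f) (m * b) j := by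
    intro v
    rw [h7, h7', hmb, Hm_lam h2f (m * b) hα1 v, Hm_norm]
  unfold cM
  rw [Finset.mul_sum]
  refine Finset.sum_bij (fun v _ => toC α * v) (fun v hv => (key v).1 hv) ?_ ?_ ?_
  · intro v _ v' _ h
    exact mul_left_cancel₀ hα0 h
  · intro w hw
    refine ⟨(toC α)⁻¹ * w, ?_, ?_⟩
    · rw [key, mul_inv_cancel_left₀ hα0]
      exact hw
    · exact mul_inv_cancel_left₀ hα0 w
  · intro v _
    have e : v - 1 / (2 * f : ℕ) ∈ Lam (sp α * b) ↔ toC α * v - 1 / (2 * f : ℕ) ∈ Lam b :=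
      Hm_lam h2f b hα1 v
    rw [mul_inv, mul_left_comm, mul_inv_cancel_left₀ hα0]
    by_cases h : toC α * v - 1 / (2 * f : ℕ) ∈ Lam b
    · rw [if_pos h, if_pos (e.2 h)]
    · rw [if_neg h, if_neg (fun h' => h (e.1 h'))]

end Pool.Agent.DR.F
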