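import Pool.Agent.Lib.DR.IfaceF
import Pool.Agent.Lib.DN.F.Base
import Pool.Agent.Lib.DN.F.SpecA
import Pool.Agent.Lib.DS.IfaceC

/-!
# Theorem DR, part F: part C in the form of `DN/IfaceC.lean` (modulus `2 f`, level `32 M`), from `DS.S_C2` - `DS.S_C8`
-/

set_option autoImplicit false

open scoped Pointwise Topology
open Filter

noncomputable section

namespace Pool.Agent.DR.F

open Pool.Agent.MuZ Pool.Agent.FW NumberField Pool.Agent.DN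
open Pool.Agent.DI (io ofC io_inj exists_io io_ofC ofC_io VP MP UP TP ex)

/-- Transformation under `Γ_1(32 M)`, on the upper half plane. -/
def S_C2 : Prop :=
  ∀ (n t : ℕ) [Rmf n t] (f M : ℕ) (m b : Ideal (OO n t)), FM f m → FB f b → IsLv f m {b} M →
    ∀ (a b' c d : ℤ), G0 (32 * M) a b' c d → (32 * M : ℤ) ∣ d - 1 → ∀ z : ℂ, 0 < z.im →
      ThM (2 * f) m b ((a * z + b') / (c * z + d)) =
        ThM (2 * f) m b z + io (etaM (2 * f) m b (b' / d) - etaM (2 * f) m b 0)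

/-- Expansions at all cusps. -/
def S_C3 : Prop :=
  ∀ (n t : ℕ) [Rmf n t] (f M : ℕ) (m b : Ideal (OO n t)), FM f m → FB f b → IsLv f m {b} M →
    ∀ (a b' c d : ℤ), a * d - b' * c = 1 →
    ∃ (c0 : ℂ) (cf : ℕ → ℂ) (C : ℝ), (∀ j, ‖cf j‖ ≤ C * (j + 1) ^ 3) ∧ ∀ z : ℂ, 0 < z.im →
      HasSum (fun j : ℕ => cf j * ex ((j + 1) * z / (32 * M : ℕ)))
        (ThM (2 * f) m b ((a * z + b') / (c * z + d)) - c0)

/-- Class functions. -/
def S_C6 : Prop :=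
  ∀ (n t : ℕ) [SqN n t] (f : ℕ) (m b : Ideal (OO n t)), FM f m → FB f b →
    ∀ b' : Ideal (OO n t), FB f b' → Ray (2 * f) b b' →
      (∀ z : ℂ, ThM (2 * f) m b z = ThM (2 * f) m b' z) ∧
      ∀ r : ℚ, etaM (2 * f) m b r = etaM (2 * f) m b' r

/-- Holomorphy; the `q`-expansion. -/
def S_C7 : Prop :=
  ∀ (n t : ℕ) [SqN n t] (f : ℕ) (m b : Ideal (OO n t)), FM f m → FB f b →
    DifferentiableOn ℂ (ThM (2 * f) m b) {z | 0 < z.im} ∧
    (∀ (j : ℕ) (v : ℂ), v ∈ vN (2 * f) (m * b) j ↔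
      v - 1 / (2 * f : ℕ) ∈ Lam (m * b) ∧ ((2 * f : ℕ) : ℝ) ^ 2 * NI (m * b) * ‖v‖ ^ 2 = j) ∧
    (∀ j : ℕ, j % 2 = 0 → vN (2 * f) (m * b) j = ∅) ∧
    (∃ C : ℝ, ∀ j : ℕ, ‖cM (2 * f) m b j‖ ≤ C * (j + 1) ^ 2) ∧
    (∀ j : ℕ, io (ofC (cM (2 * f) m b j)) = cM (2 * f) m b j ∧
      ∀ P : Ideal ZZ, Ab2 P → TP P 2 (ofC (cM (2 * f) m b j))) ∧
    ∀ z : ℂ, 0 < z.im → HasSum (fun j : ℕ => cM (2 * f) m b j / fr b * ex (j * z)) (ThM (2 * f) m b z)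

/-- The Galois action on the values. -/
def S_C8 : Prop :=
  ∀ (n t : ℕ) [SqN n t] (f : ℕ) (m b : Ideal (OO n t)), FM f m → FB f b → ∀ r : ℚ,
    r.den.Coprime (NI m) → ∀ τ ∈ GK n t, ∀ a : Ideal (OO n t), Psi τ (2 * f) a →
      τ (etaM (2 * f) m b r) = etaM (2 * f) m (a * b) r

variable {n t : ℕ}

theorem fmg [SqN n t] {f : ℕ} {m : Ideal (OO n t)} (h : FM f m) : DS.FMg (2 * f) m :=
  ⟨by have := h.odd.pos; omega, Dvd.intro _ rfl, h.dvd.mul_left 2, h.ne,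
    ((aO6 n t).2.1 2 f m).2 ⟨h.two, h.cop⟩⟩

theorem fbg {f : ℕ} {b : Ideal (OO n t)} (h : FB f b) : DS.FBg (2 * f) b := ⟨h.ne, h.cop⟩

theorem dvd_dO (n : ℕ) : n ∣ 2 * dO n := by
  unfold dO
  split_ifs with h
  · exact ⟨1, by omega⟩
  · exact Dvd.intro_left _ rfl

theorem ilg [Rmf n t] {f M : ℕ} {m : Ideal (OO n t)} {R : Finset (Ideal (OO n t))}
    (h : IsLv f m R M) : DS.IsLg (2 * f) m R (32 * M) := by
  refine ⟨by have := h.odd.pos; omega, ?_⟩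
  have ht : t = 0 := Rmf.zero (n := n)
  have e : DS.levg (2 * f) m R = 16 * (n * (f ^ 2 * (NI m * ∏ b ∈ R, NI b) ^ 3)) := by
    have h0 : 4 * n - t ^ 2 = 4 * n := by
      rw [ht]
      simp
    unfold DS.levg Dk
    rw [h0]
    ring
  rw [e]
  have h1 : n * (f ^ 2 * (NI m * ∏ b ∈ R, NI b) ^ 3) ∣
      2 * dO n * (f ^ 2 * (NI m * ∏ b ∈ R, NI b) ^ 3) := mul_dvd_mul_right (dvd_dO n) _
  have h2 : dO n * f ^ 2 * (NI m * ∏ b ∈ R, NI b) ^ 3 ∣ M := h.dvd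
  have h3 : 16 * (2 * dO n * (f ^ 2 * (NI m * ∏ b ∈ R, NI b) ^ 3)) ∣ 32 * M := by
    have e2 : 16 * (2 * dO n * (f ^ 2 * (NI m * ∏ b ∈ R, NI b) ^ 3)) =
      32 * (dO n * f ^ 2 * (NI m * ∏ b ∈ R, NI b) ^ 3) := by ring
    rw [e2]
    exact mul_dvd_mul_left 32 h2
  exact dvd_trans (mul_dvd_mul_left 16 h1) h3

theorem lv_one {f M : ℕ} {m : Ideal (OO n t)} {R : Finset (Ideal (OO n t))} (h : IsLv f m R M)
    {b : Ideal (OO n t)} (hb : b ∈ R) : IsLv f m {b} M := by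
  refine ⟨h.odd, h.three, dvd_trans ?_ h.dvd⟩
  unfold lev
  rw [Finset.prod_singleton]
  exact mul_dvd_mul_left _ (pow_dvd_pow_of_dvd (mul_dvd_mul_left _ (Finset.dvd_prod_of_mem _ hb)) 3)

theorem lv_top [SqN n t] {f M : ℕ} {m : Ideal (OO n t)} {R : Finset (Ideal (OO n t))}
    (h : IsLv f m R M) : IsLv f m {(⊤ : Ideal (OO n t))} M := by
  refine ⟨h.odd, h.three, dvd_trans ?_ h.dvd⟩
  unfold lev
  rw [Finset.prod_singleton, DN.FA.NI_top, mul_one]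
  exact mul_dvd_mul_left _ (pow_dvd_pow_of_dvd (Dvd.intro _ rfl) 3)

theorem lv_m {f M : ℕ} {m : Ideal (OO n t)} {R : Finset (Ideal (OO n t))} (h : IsLv f m R M) :
    NI m ∣ M := by
  refine dvd_trans ?_ h.dvd
  unfold lev
  refine Dvd.dvd.mul_left ?_ _
  exact dvd_trans (Dvd.intro _ rfl) (dvd_pow_self _ (by norm_num))

private theorem g0 {M : ℕ} {a b c d : ℤ} (h : G0 (32 * M) a b c d) :
    G0 ((32 * M : ℕ) : ℤ) a b c d := by
  push_cast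
  exact h

theorem cC2 (h : DS.S_C2) : S_C2 := by
  intro n t _ f M m b hm hb hl a b' c d hg hd z hz
  exact h n t (2 * f) (32 * M) m b (fmg hm) (fbg hb) (ilg hl) a b' c d (g0 hg)
    (by push_cast; exact hd) z hz

theorem cC3 (h : DS.S_C3) : S_C3 := by
  intro n t _ f M m b hm hb hl a b' c d hdet
  exact h n t (2 * f) (32 * M) m b (fmg hm) (fbg hb) (ilg hl) a b' c d hdet

theorem cC6 (h : DS.S_C6) : S_C6 := by
  intro n t _ f m b hm hb b' hb' hr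
  exact (h n t (2 * f) m b (fmg hm) (fbg hb)).1 b' (fbg hb') hr

theorem cC7 (h : DS.S_C7) : S_C7 := by
  intro n t _ f m b hm hb
  obtain ⟨h1, h2, h3, h4, h5, h6⟩ := h n t (2 * f) m b (fmg hm) (fbg hb)
  refine ⟨h1, h2, fun j hj => h3 j 2 (Or.inl (Dvd.intro _ rfl)) ?_, h4, fun j => ⟨(h5 j).1, ?_⟩, h6⟩
  · have h7 : PrI (m * b) 2 := ((aO6 n t).1 2 m b).2 ⟨hm.two, DN.FA.fb_two hb⟩
    have h8 := ((aO6 n t).2.2.1 2 (m * b) (by norm_num)).1 h7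
    have h9 : Odd (NI (m * b)) := Nat.coprime_two_right.1 h8
    intro h10
    obtain ⟨i, hi⟩ := h9
    rw [hi] at h10
    push_cast at h10
    omega
  · intro P hP
    have hPp : P.IsPrime := hP.1.1
    have h7 : MP P ((2 * f : ℕ) : Om) := by
      push_cast
      exact DI.MP.mul_right hP.2 (DI.VP.nat f)
    obtain ⟨y, hy, e⟩ := (h5 j).2 P hP.1 h7
    refine ⟨f * y, (DI.VP.nat f).mul hy, ?_⟩
    rw [e]
    push_cast
    ring

theorem cC8 (h : DS.S_C8) : S_C8 := by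
  intro n t _ f m b hm hb r hr τ hτ a ha
  exact h n t (2 * f) m b (fmg hm) (fbg hb) r hr τ hτ a ha

end Pool.Agent.DR.F
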