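import Pool.Agent.Lib.DN.F.Lin

set_option autoImplicit false

/-!
# Theorem DR, part F: linear algebra over a subfield of the residue field, with a general functional (complete)

`tLinG`: if the vector `k` annihilates `S`, and the functional `l` does not vanish at `k`, then there is `b` which
annihilates `S` (through `∑ r_i(b w)`) with `l(r(b)) ≠ 0`.
-/

noncomputable section

namespace Pool.Agent.DR.F

open Pool.Agent.MuZ Pool.Agent.DI Pool.Agent.DI.F

private theorem ded {R F ι : Type} [CommRing R] [Field F] [Fintype ι] (r : ι → R →+* F)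
    (hr : Function.Injective r) (g : ι → F) (h : ∀ x : R, ∑ i, g i * r i x = 0) : g = 0 := by
  have h1 := (linearIndependent_monoidHom R F).comp (fun i => ((r i : R →+* F) : R →* F)) (by
    intro i j hij
    apply hr
    ext x
    exact DFunLike.congr_fun hij x)
  have h2 := Fintype.linearIndependent_iff.1 h1 g (by
    funext x
    rw [Finset.sum_apply, Pi.zero_apply, ← h x]
    rfl)
  funext i
  exact h2 i

/-- **Linear algebra of F1**, general functional. -/
theorem tLinG {R F ι : Type} [CommRing R] [Field F] [Fintype ι] (K0 : Subfield F)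
    (r : ι → R →+* F) (hr : Function.Injective r)
    (hfin : (Set.range fun (x : R) (i : ι) => r i x).Finite)
    (hdiag : ∀ c ∈ K0, ∃ x : R, ∀ i, r i x = c)
    (hval : ∀ x : R, ∑ i, r i x ∈ K0)
    (k l : ι → F) (S : Set R) (hl : ∑ i, l i * k i ≠ 0) (hS : ∀ w ∈ S, ∑ i, k i * r i w = 0) :
    ∃ b : R, (∑ i, l i * r i b ≠ 0) ∧ ∀ w ∈ S, ∑ i, r i b * r i w = 0 := by
  classical
  have hinj : Function.Injective (algebraMap K0 F) := (algebraMap K0 F).injective
  -- the image
  let Φ : R →+ (ι → F) :=
    { toFun := fun x i => r i x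
      map_zero' := by
        funext i
        exact map_zero (r i)
      map_add' := by
        intro x y
        funext i
        exact map_add (r i) x y }
  have hΦ : ∀ x i, Φ x i = r i x := fun _ _ => rfl
  let U : Submodule K0 (ι → F) :=
    { carrier := Set.range Φ
      add_mem' := by
        rintro _ _ ⟨x, rfl⟩ ⟨y, rfl⟩
        exact ⟨x + y, map_add Φ x y⟩
      zero_mem' := ⟨0, map_zero Φ⟩
      smul_mem' := by
        rintro c _ ⟨x, rfl⟩
        obtain ⟨y, hy⟩ := hdiag c.1 c.2
        refine ⟨y * x, ?_⟩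
        funext i
        rw [hΦ, map_mul, hy]
        rfl }
  have hmem : ∀ v : ι → F, v ∈ U ↔ ∃ x, Φ x = v := fun v => Iff.rfl
  have : Finite U := by
    have h1 : (U : Set (ι → F)) = Set.range fun (x : R) (i : ι) => r i x := rfl
    have h2 : (U : Set (ι → F)).Finite := by
      rw [h1]
      exact hfin
    exact h2.to_subtype
  have : Fintype U := Fintype.ofFinite U
  have : Module.Finite K0 U := Module.Finite.of_finite
  -- the form
  have hform : ∀ u v : U, ∃ c : K0, algebraMap K0 F c = ∑ i, u.1 i * v.1 i := by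
    intro u v
    obtain ⟨x, hx⟩ := (hmem u.1).1 u.2
    obtain ⟨y, hy⟩ := (hmem v.1).1 v.2
    have h1 : ∑ i, u.1 i * v.1 i = ∑ i, r i (x * y) := by
      refine Finset.sum_congr rfl fun i _ => ?_
      rw [← hx, ← hy, hΦ, hΦ, map_mul]
    rw [h1]
    exact ⟨⟨_, hval (x * y)⟩, rfl⟩
  choose B hB using hform
  let t : U →ₗ[K0] Module.Dual K0 U := LinearMap.mk₂ K0 B
    (by
      intro u u' v
      apply hinj
      rw [map_add, hB, hB, hB, ← Finset.sum_add_distrib]
      refine Finset.sum_congr rfl fun i _ => ?_
      simp only [Submodule.coe_add, Pi.add_apply]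
      ring)
    (by
      intro c u v
      apply hinj
      rw [smul_eq_mul, map_mul, hB, hB, Finset.mul_sum]
      refine Finset.sum_congr rfl fun i _ => ?_
      simp only [Submodule.coe_smul, Pi.smul_apply, Algebra.smul_def]
      ring)
    (by
      intro u v v'
      apply hinj
      rw [map_add, hB, hB, hB, ← Finset.sum_add_distrib]
      refine Finset.sum_congr rfl fun i _ => ?_
      simp only [Submodule.coe_add, Pi.add_apply]
      ring)
    (by
      intro c u v
      apply hinj
      rw [smul_eq_mul, map_mul, hB, hB, Finset.mul_sum]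
      refine Finset.sum_congr rfl fun i _ => ?_
      simp only [Submodule.coe_smul, Pi.smul_apply, Algebra.smul_def]
      ring)
  have ht : ∀ u v, algebraMap K0 F (t u v) = ∑ i, u.1 i * v.1 i := fun u v => hB u v
  have htinj : Function.Injective t := by
    rw [injective_iff_map_eq_zero]
    intro u hu
    have h1 : u.1 = 0 := by
      apply ded r hr u.1
      intro x
      have h2 := ht u ⟨Φ x, (hmem _).2 ⟨x, rfl⟩⟩
      rw [hu, LinearMap.zero_apply, map_zero] at h2
      exact h2.symm
    exact Subtype.ext h1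
  have htsurj : Function.Surjective t :=
    (LinearMap.injective_iff_surjective_of_finrank_eq_finrank
      (Subspace.dual_finrank_eq (K := K0) (V := U)).symm).1 htinj
  -- the map `kap`
  let kap : U →ₗ[K0] F :=
    { toFun := fun v => ∑ i, k i * v.1 i
      map_add' := by
        intro v v'
        rw [← Finset.sum_add_distrib]
        refine Finset.sum_congr rfl fun i _ => ?_
        simp only [Submodule.coe_add, Pi.add_apply]
        ring
      map_smul' := by
        intro c v
        rw [RingHom.id_apply, Algebra.smul_def, Finset.mul_sum]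
        refine Finset.sum_congr rfl fun i _ => ?_
        simp only [Submodule.coe_smul, Pi.smul_apply, Algebra.smul_def]
        ring }
  -- a basis of `F` over `K0`, the coordinates
  obtain ⟨J, e⟩ : ∃ J : Set F, Nonempty (Module.Basis J K0 F) :=
    ⟨_, ⟨Module.Basis.ofVectorSpace K0 F⟩⟩
  obtain ⟨e⟩ := e
  obtain ⟨T, hT⟩ : ∃ T : Finset J, ∀ v : U, ∑ a ∈ T, algebraMap K0 F (e.coord a (kap v)) * e a =
      kap v := by
    refine ⟨Finset.univ.biUnion fun v : U => (e.repr (kap v)).support, fun v => ?_⟩
    have h1 := e.linearCombination_repr (kap v)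
    rw [Finsupp.linearCombination_apply] at h1
    have h2 : (e.repr (kap v)).support ⊆
        Finset.univ.biUnion fun v : U => (e.repr (kap v)).support :=
      Finset.subset_biUnion_of_mem (fun v : U => (e.repr (kap v)).support) (Finset.mem_univ v)
    have h3 := Finsupp.sum_of_support_subset (e.repr (kap v)) h2
      (fun (a : J) (c : K0) => c • e a) (fun a _ => zero_smul _ _)
    have h4 : ((e.repr (kap v)).sum fun (a : J) (c : K0) => c • e a) = kap v := h1
    rw [h4] at h3
    refine Eq.trans ?_ h3.symm
    refine Finset.sum_congr rfl fun a _ => ?_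
    rw [Algebra.smul_def]
    rfl
  have hu : ∀ a : J, ∃ u : U, t u = (e.coord a).comp kap := fun a => htsurj _
  choose u hu using hu
  -- `k = ∑ e_a u_a`
  have hk : ∀ i, k i = ∑ a ∈ T, e a * (u a).1 i := by
    have h1 := ded r hr (fun i => k i - ∑ a ∈ T, e a * (u a).1 i) (by
      intro x
      have h2 := hT ⟨Φ x, (hmem _).2 ⟨x, rfl⟩⟩
      have h3 : kap ⟨Φ x, (hmem _).2 ⟨x, rfl⟩⟩ = ∑ i, k i * r i x := rfl
      have h4 : ∀ a : J, algebraMap K0 F (e.coord a (kap ⟨Φ x, (hmem _).2 ⟨x, rfl⟩⟩)) =
          ∑ i, (u a).1 i * r i x := by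
        intro a
        have h5 := ht (u a) ⟨Φ x, (hmem _).2 ⟨x, rfl⟩⟩
        rw [hu a] at h5
        exact h5
      rw [h3] at h2
      rw [Finset.sum_congr rfl fun i _ => sub_mul (k i) _ _, Finset.sum_sub_distrib, ← h2]
      rw [Finset.sum_congr rfl fun i _ => Finset.sum_mul _ _ _, Finset.sum_comm, sub_eq_zero]
      refine Finset.sum_congr rfl fun a _ => ?_
      rw [h3] at h4
      rw [h4 a, Finset.sum_mul]
      refine Finset.sum_congr rfl fun i _ => ?_
      ring)
    intro i
    have h2 := congrFun h1 i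
    exact sub_eq_zero.1 h2
  obtain ⟨a, ha⟩ : ∃ a : J, ∑ i, l i * (u a).1 i ≠ 0 := by
    by_contra hne
    push Not at hne
    apply hl
    have h1 : ∑ i, l i * k i = ∑ a ∈ T, e a * ∑ i, l i * (u a).1 i := by
      rw [Finset.sum_congr rfl fun i _ => by rw [hk i, Finset.mul_sum], Finset.sum_comm]
      refine Finset.sum_congr rfl fun a _ => ?_
      rw [Finset.mul_sum]
      refine Finset.sum_congr rfl fun i _ => ?_
      ring
    rw [h1]
    exact Finset.sum_eq_zero fun a _ => by rw [hne a, mul_zero]
  obtain ⟨b, hb⟩ := (hmem (u a).1).1 (u a).2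
  refine ⟨b, ?_, ?_⟩
  · intro h
    apply ha
    rw [← h]
    refine Finset.sum_congr rfl fun i _ => ?_
    rw [← hb]
    rfl
  · intro w hw
    have h1 := ht (u a) ⟨Φ w, (hmem _).2 ⟨w, rfl⟩⟩
    have h2 : t (u a) ⟨Φ w, (hmem _).2 ⟨w, rfl⟩⟩ = e.coord a (∑ i, k i * r i w) := by
      rw [hu a]
      rfl
    rw [h2, hS w hw, map_zero, map_zero] at h1
    rw [h1]
    refine Finset.sum_congr rfl fun i _ => ?_
    rw [← hb]
    rfl

end Pool.Agent.DR.F
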