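import Pool.Agent.Lib.DR.F.InC
import Pool.Agent.Lib.DR.F.Lin
import Pool.Agent.Lib.DI.F.VPB

/-!
# Theorem DR (`p = 2` ramified), part F: `S_F2` (statements of the modules), author helper12

The module `DR/F/<Name>.lean` proves, in `namespace Pool.Agent.DR.FA`, `theorem t<Name> : S_<Name>`.
The elementary lemmas are those of `DN/F/SpecA.lean` (namespace `Pool.Agent.DN.FA`).
-/

set_option autoImplicit false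
set_option linter.unusedSectionVars false

open scoped Pointwise Topology MatrixGroups
open Filter

noncomputable section

namespace Pool.Agent.DR.FA

open Pool.Agent.MuZ Pool.Agent.FW NumberField IsDedekindDomain Pool.Agent.DN Pool.Agent.DN.FA
open Pool.Agent.DI (io ofC io_inj exists_io io_ofC ofC_io VP MP UP TP ex)

theorem lv_one {n t f M : ℕ} {m : Ideal (OO n t)} {R : Finset (Ideal (OO n t))} (h : IsLv f m R M)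
    {b : Ideal (OO n t)} (hb : b ∈ R) : IsLv f m {b} M := F.lv_one h hb

theorem lv_top {n t f M : ℕ} [SqN n t] {m : Ideal (OO n t)} {R : Finset (Ideal (OO n t))}
    (h : IsLv f m R M) : IsLv f m {(⊤ : Ideal (OO n t))} M := F.lv_top h

theorem lv_m {n t f M : ℕ} {m : Ideal (OO n t)} {R : Finset (Ideal (OO n t))} (h : IsLv f m R M) :
    NI m ∣ M := F.lv_m h

/-- The hypothesis on the values (`S_C10`): integrality at the primes above `2`. -/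
def H_C10 : Prop := ∀ (n t : ℕ) [Rmf n t] (f M : ℕ) (m b : Ideal (OO n t)), FM f m → FB f b →
  IsLv f m {b} M → ∀ P : Ideal ZZ, Ab2 P → ∀ r : ℚ, r.den.Coprime M →
    VP P (toO (pO n t) / 2 * etE f m b r)

/-- MODULE `KP` (from `S_O4`). THE FIELD `K` AT THE PRIMES ABOVE `2`. -/
def S_KP : Prop := ∀ (n t : ℕ) [Rmf n t] (P : Ideal ZZ), Ab2 P →
  (∀ x ∈ KQ n t, VP P x → ∃ v : OO n t, MP P (x - toO v)) ∧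
  (∀ v : OO n t, MP P (toO v) ↔ v ∈ pp n t) ∧
  (∀ x ∈ KQ n t, VP P x → ∃ N : ℕ, Odd N ∧ ∃ v : OO n t, (N : Om) * x = toO v) ∧
  (∀ v : OO n t, Cop v 2 → UP P (toO v) ∧ MP P (toO v - 1)) ∧
  MP P (toO (pO n t)) ∧ UP P (toO (pO n t) ^ 2 / 2)

/-- MODULE `Od` (from `S_O4`). CLASSES MODULO `f` OF IDEALS PRIME TO `2 f`. -/
def S_Od : Prop := ∀ (n t : ℕ) [Rmf n t] (f : ℕ), Odd f → 15 ∣ f → ∀ b b' : Ideal (OO n t), FB f b →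
  FB f b' → Ray f b b' → ∃ α α' : OO n t, α ≠ 0 ∧ α' ≠ 0 ∧ Cop α 2 ∧ Cop α' 2 ∧
    (f : OO n t) ∣ α - 1 ∧ (f : OO n t) ∣ α' - 1 ∧ sp α * b = sp α' * b'

/-- MODULE `Tm` (from `S_O4`, `S_Od`). THE CLASSES MODULO `2 f` IN A CLASS MODULO `f`. -/
def S_Tm : Prop := ∀ (n t : ℕ) [Rmf n t] (f : ℕ), Odd f → 15 ∣ f →
  (∀ α ∈ tm2 n t f, α ≠ 0 ∧ (f : OO n t) ∣ α - 1 ∧ Cop α 2 ∧ Cop α (2 * f)) ∧
  (∀ (A : Type) [AddCommMonoid A] (F : Ideal (OO n t) → A),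
    (∀ b b', FB f b → FB f b' → Ray (2 * f) b b' → F b = F b') →
    (∀ R R2 : Finset (Ideal (OO n t)), IsRC f R → FR f R → IsRC (2 * f) R2 →
      ∑ b ∈ R2, F b = ∑ b ∈ R, ∑ α ∈ tm2 n t f, F (sp α * b)) ∧
    ∀ b b' : Ideal (OO n t), FB f b → FB f b' → Ray f b b' →
      ∑ α ∈ tm2 n t f, F (sp α * b) = ∑ α ∈ tm2 n t f, F (sp α * b')) ∧
  ∀ b : Ideal (OO n t), Ray f b ⊤ → FB f b → ∃ α ∈ tm2 n t f, Ray (2 * f) b (sp α)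

/-- MODULE `Gc` (from `S_E1`, `S_E10`, `S_B7`, `S_R1`, `S_D2`, `S_Kf`). GALOIS ACTION ON `fr`. -/
def S_Gc : Prop := ∀ (n t : ℕ) [Rmf n t] (f : ℕ), Odd f → 15 ∣ f →
  (∀ τ ∈ GK n t, ∀ a : Ideal (OO n t), Psi τ (2 * f) a → ∀ b : Ideal (OO n t), FB f b →
    ∀ b' : Ideal (OO n t), FB f b' → τ (rO b b') = rO (a * b) (a * b')) ∧
  (∀ b : Ideal (OO n t), FB f b → rO ⊤ b ∈ Kf n t f ∧ rO b b = 1 ∧
    (∀ a : Ideal (OO n t), FB f a → ∀ Q : Ideal ZZ, Ab2 Q → UP Q (rO a (b * a))) ∧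
    (∀ b' b'' : Ideal (OO n t), FB f b' → FB f b'' → rO b b' * rO b' b'' = rO b b'') ∧
    ∀ α : OO n t, α ≠ 0 → (f : OO n t) ∣ α - 1 → rO b (sp α * b) = toO α) ∧
  ∀ σ : Ideal (OO n t) → Gal(Om/ℚ), IsSig n t f σ → ∀ N : ℕ, (N = f ∨ N = 2 * f) →
    ∀ x ∈ Kf n t N, (∀ b b' : Ideal (OO n t), FB f b → FB f b' → Ray N b b' → σ b x = σ b' x) ∧
      ∀ τ ∈ GK n t, ∀ a : Ideal (OO n t), Psi τ (2 * f) a → ∀ b : Ideal (OO n t), FB f b →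
        τ (σ b x) = σ (a * b) x ∧ σ b (τ x) = σ (a * b) x

/-- `y_b(r) = (pO/2) E_b(r)`. -/
def yE {n t : ℕ} (f : ℕ) (m b : Ideal (OO n t)) (r : ℚ) : Om := toO (pO n t) / 2 * etE f m b r

/-- MODULE `YE` (from `S_C6`, `S_C8`, `H_C10`, `S_E1`, `S_Tm`). THE NUMBERS `yE`. -/
def S_YE : Prop := ∀ (n t : ℕ) [Rmf n t] (f M : ℕ) (m : Ideal (OO n t)) (R : Finset (Ideal (OO n t))),
  FM f m → FR f R → IsLv f m R M → ∀ r : ℚ, r.den.Coprime M →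
    yE f m ⊤ r ∈ Kf n t f ∧
    (∀ Q : Ideal ZZ, Ab2 Q → ∀ τ ∈ GK n t, VP Q (τ (yE f m ⊤ r))) ∧
    (∀ τ ∈ GK n t, ∀ a : Ideal (OO n t), Psi τ (2 * f) a → τ (yE f m ⊤ r) = yE f m a r)

/-- The numbers `w_g`, `r = 4 b/d`. -/
def wg {n t : ℕ} (f : ℕ) (m : Ideal (OO n t)) (r : ℚ) : Om :=
  yE f m ⊤ r + yE f m ⊤ (-r) - 2 * yE f m ⊤ 0

/-- MODULE `Kap` (from `S_O4`, `S_KP`, `S_Od`, `S_Gc`). THE NUMBERS `χ(b) fr(b)/fr(1)`; `χ` is a character modulo `f`. -/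
def S_Kap : Prop := ∀ (n t : ℕ) [Rmf n t] (f : ℕ), Odd f → 15 ∣ f → ∀ χ : Ideal (OO n t) → Om,
  IsChi (2 * f) χ → ∀ P : Ideal ZZ, Ab2 P →
  (∀ b : Ideal (OO n t), FB f b → UP P (χ b) ∧ UP P (rO ⊤ b)) ∧
  ∀ b b' : Ideal (OO n t), FB f b → FB f b' → Ray f b b' → χ b = χ b' ∧
    MP P (χ b * rO ⊤ b - χ b' * rO ⊤ b')

/-- MODULE `Sm` (from `S_YE`). THE SUMS WITH `χ`. -/
def S_Sm : Prop := ∀ (n t : ℕ) [Rmf n t] (f M : ℕ) (m : Ideal (OO n t)) (R : Finset (Ideal (OO n t))),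
  FM f m → FR f R → IsRC f R → IsLv f m R M → ∀ χ : Ideal (OO n t) → Om,
  ∀ σ : Ideal (OO n t) → Gal(Om/ℚ), IsSig n t f σ → ∀ r : ℚ, r.den.Coprime M →
    ∑ b' ∈ R, χ b' * rO ⊤ b' * σ b' (wg f m r) = xs f m R χ r - xs f m R χ 0

/-- MODULE `Bet` (from `S_E1`, `S_Kf`, `S_KP`, `S_Gc`). THE ELEMENT `β` (two terms). -/
def S_Bet : Prop := ∀ (n t : ℕ) [Rmf n t] (f : ℕ) (R : Finset (Ideal (OO n t))), Odd f → 15 ∣ f →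
  FR f R → IsRC f R → ∀ P : Ideal ZZ, Ab2 P → ∀ σ : Ideal (OO n t) → Gal(Om/ℚ), IsSig n t f σ →
  ∀ (κ : Ideal (OO n t) → Om) (S : Set Om), (∀ b ∈ R, VP P (κ b)) →
  (∀ w ∈ S, w ∈ Kf n t f ∧ ∀ Q : Ideal ZZ, Ab2 Q → ∀ τ ∈ GK n t, VP Q (τ w)) →
  (∀ w ∈ S, MP P (∑ b ∈ R, κ b * σ b w)) →
  ∀ b1 ∈ R, ∀ b2 ∈ R, ∀ l1 l2 : Om, VP P l1 → VP P l2 → ¬ MP P (l1 * κ b1 + l2 * κ b2) →
  ∃ β ∈ Kf n t f, ¬ MP P (l1 * σ b1 β + l2 * σ b2 β) ∧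
    (∀ Q : Ideal ZZ, Ab2 Q → ∀ τ ∈ GK n t, VP Q (τ β)) ∧ ∀ w ∈ S, MP P (∑ b ∈ R, σ b (β * w))

/-- `β = pO β₀/2`. -/
def bet (n t : ℕ) (β₀ : Om) : Om := toO (pO n t) * β₀ / 2

/-- The period. -/
def perA {n t : ℕ} (f : ℕ) (m : Ideal (OO n t)) (R : Finset (Ideal (OO n t)))
    (σ : Ideal (OO n t) → Gal(Om/ℚ)) (β₀ : Om) (b d : ℤ) : Om :=
  ∑ b' ∈ R, σ b' (β₀ * (yE f m ⊤ (4 * (b / d)) - yE f m ⊤ 0))

/-- MODULE `Pa` (from `S_C2`, `S_C6`, `S_E1`, `S_Kf`, `S_Tm`, `S_Gc`, `S_YE`). THE PERIODS OF `A`. -/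
def S_Pa : Prop := ∀ (n t : ℕ) [Rmf n t] (f M : ℕ) (m : Ideal (OO n t)) (R R2 : Finset (Ideal (OO n t))),
  FM f m → FR f R → IsRC f R → IsLv f m R M → FR f R2 → IsRC (2 * f) R2 → IsLv f m R2 M →
  ∀ σ : Ideal (OO n t) → Gal(Om/ℚ), IsSig n t f σ → ∀ β₀ ∈ Kf n t f,
  (∀ Q : Ideal ZZ, Ab2 Q → ∀ τ ∈ GK n t, VP Q (τ β₀)) →
  ∀ a b c' d : ℤ, G0 (32 * M) a b c' d → (32 * M : ℤ) ∣ d - 1 →
    (∀ z : ℂ, 0 < z.im → AF f m R2 σ 1 (bet n t β₀) ((a * z + b) / (c' * z + d)) =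
      AF f m R2 σ 1 (bet n t β₀) z + io (perA f m R σ β₀ b d)) ∧
    perA f m R σ β₀ b d ∈ KQ n t ∧ ∀ Q : Ideal ZZ, Ab2 Q → VP Q (perA f m R σ β₀ b d)

/-- MODULE `Pb` (from `S_KP`, `S_Pa`). FINITELY MANY GENERATORS. -/
def S_Pb : Prop := ∀ (n t : ℕ) [Rmf n t] (f M : ℕ) (m : Ideal (OO n t)) (R R2 : Finset (Ideal (OO n t))),
  FM f m → FR f R → IsRC f R → IsLv f m R M → FR f R2 → IsRC (2 * f) R2 → IsLv f m R2 M →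
  ∀ P : Ideal ZZ, Ab2 P → ∀ σ : Ideal (OO n t) → Gal(Om/ℚ), IsSig n t f σ →
  ∀ β₀ ∈ Kf n t f, (∀ Q : Ideal ZZ, Ab2 Q → ∀ τ ∈ GK n t, VP Q (τ β₀)) →
  ∃ N0 : ℕ, Odd N0 ∧ ∀ a b c' d : ℤ, G0 (32 * M) a b c' d → (32 * M : ℤ) ∣ d - 1 → ∃ α : OO n t,
    (N0 : Om) * perA f m R σ β₀ b d = toO α ∧
    ∀ z : ℂ, 0 < z.im → AF f m R2 σ N0 (bet n t β₀) ((a * z + b) / (c' * z + d)) =
      AF f m R2 σ N0 (bet n t β₀) z + toC α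

end Pool.Agent.DR.FA
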