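import Pool.Agent.Lib.DR.F.InC

/-!
# Theorem DR, part F: the function `G`, `G(v)² = X(2 v) - X(pO/2)`, and the function `Ψ = G(C/2)` (statements)

Modules: `Gt` (`tGt : S_Gt`), `Cus` (`tCus : S_Cus`), `PsG` (`tPsG : S_PsG`), `PsE` (`tPsE : .. → S_PsE`); adapted from
`DN/F` (helper79, helper12). At the end: **`S_Psi`** from `S_Gt`, `S_PsG`, `S_PsE` (complete).
-/

set_option autoImplicit false
set_option linter.unusedSectionVars false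

open scoped Pointwise Topology MatrixGroups
open Filter

noncomputable section

namespace Pool.Agent.DR.F

open Pool.Agent.MuZ Pool.Agent.FW NumberField IsDedekindDomain Pool.Agent.DN Pool.Agent.DN.F
open Pool.Agent.DI (io ofC io_inj exists_io io_ofC ofC_io VP MP UP TP ex)

/-- The point `pO/2` of order `pp`. -/
def TT (n t : ℕ) : ℂ := toC (pO n t) / 2

/-- `e₁ = ℘(pO/2)`, lattice `O`. -/
def e1C (n t : ℕ) : ℂ := wpC (⊤ : Ideal (OO n t)) (TT n t)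

/-- `e₂ = ℘(1/2)`. -/
def e2C (n t : ℕ) : ℂ := wpC (⊤ : Ideal (OO n t)) (1 / 2)

/-- `e₃ = ℘((pO + 1)/2)`. -/
def e3C (n t : ℕ) : ℂ := wpC (⊤ : Ideal (OO n t)) (TT n t + 1 / 2)

/-- The function `G(v) = ((℘(v) - e₁)² - (e₁ - e₂)(e₁ - e₃))/(℘'(v) fr(1))`. -/
def GF (n t : ℕ) (v : ℂ) : ℂ :=
  ((wpC (⊤ : Ideal (OO n t)) v - e1C n t) ^ 2 - (e1C n t - e2C n t) * (e1C n t - e3C n t)) /
    (wdC (⊤ : Ideal (OO n t)) v * fr (⊤ : Ideal (OO n t)))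

/-- The properties of `G`. -/
structure IsGF (n t : ℕ) (G : ℂ → ℂ) : Prop where
  mer : Meromorphic G
  sq : ∀ v : ℂ, 2 * v ∉ Lam (⊤ : Ideal (OO n t)) →
    G v ^ 2 = XC (⊤ : Ideal (OO n t)) (2 * v) - XC (⊤ : Ideal (OO n t)) (toC (pO n t) / 2)
  per : ∀ (v : ℂ) (α : OO n t), G (v + toC α) = G v
  half : ∀ v : ℂ, G (v + toC (pO n t) / 2) = G v

/-- MODULE `Gt` (from `S_B1`, `S_B2`, `S_B3`, `S_B4`). -/
def S_Gt : Prop := ∀ (n t : ℕ) [Rmf n t], IsGF n t (GF n t)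

/-- The function `Ψ = G(C(z)/2)`. -/
def PsF {n t : ℕ} (G : ℂ → ℂ) (f : ℕ) (m : Ideal (OO n t)) (R : Finset (Ideal (OO n t)))
    (σ : Ideal (OO n t) → Gal(Om/ℚ)) (N0 : ℕ) (β : Om) (z : ℂ) : ℂ := G (CF f m R σ N0 β z / 2)

/-- MODULE `Cus` (from `S_C3`). The cusps: `A(γ z)` is an analytic function of `ex (z/(4 M))`. -/
def S_Cus : Prop := ∀ (n t : ℕ) [Rmf n t] (f M : ℕ) (m : Ideal (OO n t)) (R : Finset (Ideal (OO n t))),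
  FM f m → FR f R → IsLv f m R M → ∀ (σ : Ideal (OO n t) → Gal(Om/ℚ)) (N0 : ℕ) (β : Om) (a b c d : ℤ),
  a * d - b * c = 1 → ∃ al : ℂ → ℂ, AnalyticAt ℂ al 0 ∧ ∀ z : ℂ, 0 < z.im →
    AF f m R σ N0 β ((a * z + b) / (c * z + d)) = al (ex (z / (32 * M : ℕ)))

/-- MODULE `PsG` (from `S_C7`, `S_Cus`). The first three items of `S_Psi` for `Ψ = PsF G ..`. -/
def S_PsG : Prop := ∀ (n t : ℕ) [Rmf n t] (f M : ℕ) (m : Ideal (OO n t)) (R : Finset (Ideal (OO n t))),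
  FM f m → FR f R → IsLv f m R M → ∀ (σ : Ideal (OO n t) → Gal(Om/ℚ)) (N0 : ℕ) (β : Om),
  ∀ G : ℂ → ℂ, IsGF n t G →
    (∀ z : ℂ, 0 < z.im → MeromorphicAt (PsF G f m R σ N0 β) z) ∧
    (∀ z z' : ℂ, 0 < z.im → 0 < z'.im → ∀ α α' : OO n t, α + α' ∈ pp n t →
      AF f m R σ N0 β z' = AF f m R σ N0 β z + toC α →
      AF f m R σ N0 β (-(starRingEnd ℂ) z') = AF f m R σ N0 β (-(starRingEnd ℂ) z) + toC α' →
      PsF G f m R σ N0 β z' = PsF G f m R σ N0 β z) ∧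
    ∀ γ : SL(2, ℤ), ∃ (F : ℂ → ℂ) (Y : ℝ), MeromorphicAt F 0 ∧
      ∀ z : UpperHalfPlane, Y < z.im → PsF G f m R σ N0 β ((γ • z : UpperHalfPlane) : ℂ) =
        F (Complex.exp (2 * Real.pi * Complex.I * (z : ℂ) / ((32 * M : ℕ) : ℂ)))

/-- MODULE `PsE` (helper12). THE EXPANSION OF `Ψ`. -/
def S_PsE : Prop := ∀ (n t : ℕ) [Rmf n t] (f : ℕ) (m : Ideal (OO n t)) (R : Finset (Ideal (OO n t))),
  FM f m → FR f R → IsRC (2 * f) R → ∀ σ : Ideal (OO n t) → Gal(Om/ℚ), IsSig n t f σ →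
  ∀ c : Gal(Om/ℚ), IsCj c → ∀ (N0 : ℕ) (β : Om), β ∈ Kf n t (2 * f) → cF f m R σ c N0 β 1 ≠ 0 →
  ∀ G : ℂ → ℂ, IsGF n t G →
  ∃ (T W ψ : PowerSeries Om) (Y : ℝ) (j : ℕ) (L : IntermediateField ℚ Om),
    FiniteDimensional ℚ L ∧ (∀ i, PowerSeries.coeff i ψ ∈ L) ∧
    _root_.DN.F4.TWr (a1O (⊤ : Ideal (OO n t))) (a3O (⊤ : Ideal (OO n t)))
      (uF f m R σ c N0 β) T W ∧
    ψ ^ 2 * W = PowerSeries.X ^ 2 *
      (T - PowerSeries.C (xO (⊤ : Ideal (OO n t)) (toC (pO n t) / 2)) * W) ∧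
    ∀ z : ℂ, Y < z.im → HasSum (fun i : ℕ => io (PowerSeries.coeff i ψ) * ex z ^ i)
      (ex z ^ j * PsF G f m R σ N0 β z)

/-- **`S_Psi`** (complete). -/
theorem sPsi (hG : S_Gt) (hP : S_PsG) (hE : S_PsE) : S_Psi := by
  intro n t _ f M m R hm hR hRC hlv σ hσ c hc N0 β hβ h1
  have hGo := hG n t
  obtain ⟨a1, a2, a3⟩ := hP n t f M m R hm hR hlv σ N0 β (GF n t) hGo
  exact ⟨PsF (GF n t) f m R σ N0 β, a1, a2, a3,
    hE n t f m R hm hR hRC σ hσ c hc N0 β hβ h1 (GF n t) hGo⟩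

end Pool.Agent.DR.F
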